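import Pool.Agent.Lib.MP_bdc5f5_nt.Transfer

/-!
The comparison identity at the two cusps and extraction of one coefficient.
-/

namespace Pool.Agent.Lib.MP_bdc5f5_nt

open Finset PowerSeries

variable {p : ℕ} [hp : Fact p.Prime] {A : Type*} [CommRing A]

theorem frob_map (φ : ℤ_[p] →+* A) (f : ℤ_[p]⟦X⟧) :
    (p : A⟦X⟧) ∣ expand p hp.out.ne_zero (map φ f) - map φ f ^ p := by
  have := map_dvd (map φ) (frobenius_dvd f)
  rw [map_natCast, map_sub, map_pow, map_expand] at this
  exact dvd_sub_comm.1 this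

omit hp in
theorem hp3_series (hp3 : (p : A) ^ 3 = 0) : (p : A⟦X⟧) ^ 3 = 0 := by
  simpa using congrArg (C (R := A)) hp3

theorem u0_all {u : A⟦X⟧} (hu : u = X * pD u) : IsUnit (pAll u) :=
  (((u0_V hu).mul (u0_ok hu).hW).mul (u0_ok hu).hQ).mul (u0_ok hu).hC

theorem phi_zero (h11 : 11 ≤ p) (φ : ℤ_[p] →+* A) (hp3 : (p : A) ^ 3 = 0) {b0 b1 b2 : ℕ → ℤ_[p]}
    (hb : ∀ a < p, ∃ g : Polynomial ℤ_[p], Num a Polynomial.X = Den a Polynomial.X *
      (Polynomial.C (b0 a) + Polynomial.C (b1 a) * Polynomial.X +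
        Polynomial.C (b2 a) * Polynomial.X ^ 2) + Polynomial.X ^ 3 * g)
    {u : ℤ_[p]⟦X⟧} (hu : u = X * pD u) :
    Phi p (fun a => algebraMap A A⟦X⟧ (φ (b0 a))) (fun a => algebraMap A A⟦X⟧ (φ (b1 a)))
      (fun a => algebraMap A A⟦X⟧ (φ (b2 a))) (map φ u) = 0 := by
  obtain ⟨κ, l, hI⟩ := isoData hu
  have ok := u0_ok hu
  have h1 := map_dvd (map φ) (star h11 hI hb)
  rw [th_mF ok (u0_der hu), one_mul, th_m1F ok (u0_der hu), one_mul, map_C, map_pow, map_natCast,
    hp3, map_zero, zero_dvd_iff] at h1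
  have hv : map φ u = X * pD (map φ u) := by
    have := congrArg (map φ) hu
    rwa [map_mul, map_X, map_pD] at this
  set v := map φ u with hvdef
  have hall := u0_all hv
  have ht : tF v = X := by
    have := Ring.mul_inverse_cancel _ (unitD_of_all hall)
    rw [tF]
    linear_combination Ring.inverse (pD v) * hv + X * this
  have hhat : hatF p v = expand p hp.out.ne_zero v := by
    refine hat_eq (hp3_series hp3) hall ?_ (frob_map φ u)
    have h2 := congrArg (expand p hp.out.ne_zero) hv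
    rw [map_mul, expand_X, map_pD] at h2
    have h3 : v ^ p = X ^ p * pD v ^ p := by rw [← mul_pow, ← hv]
    linear_combination pD v ^ p * h2 - pD (expand p hp.out.ne_zero v) * h3
  have oke := ok.map (expand p hp.out.ne_zero)
  rw [map_mF _ ok, map_m1F _ ok, map_m2F _ ok] at h1
  rw [Phi, ht, hhat, ← h1]
  simp only [map_sub, map_add, map_mul, map_pow, map_natCast, map_PP, map_C, map_X, map_expand,
    map_mF _ ok, map_mF _ oke, map_m1F _ oke, map_m2F _ oke, map_sF _ ok, ← hvdef]
  rfl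

/-- expansion of the parameter at the second cusp -/
structure InfData (u ψ : A⟦X⟧) : Prop where
  h0 : constantCoeff ψ = 1
  h1 : 10 * coeff 1 ψ = -3
  hV : pV u = X * ψ
  hD : pD u = -20 * X ^ 4 * u

theorem InfData.map {A' : Type*} [CommRing A'] (φ : A →+* A') {u ψ : A⟦X⟧} (h : InfData u ψ) :
    InfData (map φ u) (map φ ψ) := by
  refine ⟨?_, ?_, ?_, ?_⟩
  · rw [← coeff_zero_eq_constantCoeff_apply, coeff_map, coeff_zero_eq_constantCoeff_apply, h.h0,
      map_one]
  · simpa only [map_mul, map_neg, map_ofNat, coeff_map] using congrArg φ h.h1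
  · simpa only [map_mul, map_pV, map_X] using congrArg (PowerSeries.map φ) h.hV
  · simpa only [map_mul, map_pD, map_X, map_pow, map_neg, map_ofNat]
      using congrArg (PowerSeries.map φ) h.hD

theorem unit_of_30 (h30 : IsUnit (30 : A)) : IsUnit (2 : A) ∧ IsUnit (3 : A) ∧ IsUnit (5 : A) := by
  rw [show (30 : A) = 2 * 3 * 5 by norm_num, IsUnit.mul_iff, IsUnit.mul_iff] at h30
  exact ⟨h30.1.1, h30.1.2, h30.2⟩

theorem exists_inf (h30 : IsUnit (30 : A)) : ∃ u ψ : A⟦X⟧, InfData u ψ := by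
  obtain ⟨h2, h3, h5⟩ := unit_of_30 h30
  obtain ⟨i, hi⟩ : ∃ i : A, 80 * i = 1 := by
    have := ((h2.pow 4).mul h5).exists_right_inv
    rwa [show (2 : A) ^ 4 * 5 = 80 by norm_num] at this
  obtain ⟨j, hj⟩ : ∃ j : A, 25 * j = 1 := by
    have := (h5.pow 2).exists_right_inv
    rwa [show (5 : A) ^ 2 = 25 by norm_num] at this
  have hi' : (80 : A⟦X⟧) * C i = 1 := by simpa only [map_mul, map_ofNat, map_one] using congrArg C hi
  have hj' : (25 : A⟦X⟧) * C j = 1 := by simpa only [map_mul, map_ofNat, map_one] using congrArg C hj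
  obtain ⟨χ, hχ⟩ := exists_fixed_poly (C (-24 * i) : A⟦X⟧) (Polynomial.C (-C i) *
    (24 * Polynomial.X + (1 + Polynomial.C X * Polynomial.X) ^ 2 + 4 * Polynomial.X *
      (1 + Polynomial.C X * Polynomial.X) * (4 + Polynomial.C X * (1 + Polynomial.C X *
        Polynomial.X)) + Polynomial.X ^ 2 * (6 + 4 * Polynomial.C X * Polynomial.X +
          Polynomial.C X ^ 2 * Polynomial.X ^ 2) * (20 + Polynomial.C X *
      (1 + Polynomial.C X * Polynomial.X) * (4 + Polynomial.C X * (1 + Polynomial.C X *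
        Polynomial.X)))))
  simp only [Polynomial.eval_mul, Polynomial.eval_add, Polynomial.eval_pow, Polynomial.eval_C,
    Polynomial.eval_X, Polynomial.eval_ofNat, Polynomial.eval_one, Polynomial.eval_neg, map_mul, map_neg,
    map_ofNat] at hχ
  have c0 : constantCoeff χ = -24 * i := by rw [hχ]; simp [map_ofNat]
  have hV : pV (C j * (X * (1 + X * χ) - 1)) = X * (1 + X * χ) := by
    rw [pV]; linear_combination (X * (1 + X * χ) - 1) * hj'
  refine ⟨C j * (X * (1 + X * χ) - 1), 1 + X * χ, by simp, ?_, hV, ?_⟩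
  · rw [map_add, coeff_succ_X_mul 0, coeff_zero_eq_constantCoeff_apply, c0]
    simp only [coeff_one, one_ne_zero, if_false]
    linear_combination -3 * hi
  · have hQ : pQ (C j * (X * (1 + X * χ) - 1)) = C j * ((X * (1 + X * χ)) ^ 2 +
        4 * (X * (1 + X * χ)) + 20) := by
      rw [pQ]
      linear_combination (C j * (X * (1 + X * χ) - 1) ^ 2 - 1) * hj'
    rw [pD, hV, hQ]
    linear_combination (80 * C j * X ^ 5) * hχ - C j * X ^ 5 * (24 + X * (24 * χ + (1 + X * χ) ^ 2 +
      4 * χ * (1 + X * χ) * (4 + X * (1 + X * χ)) + χ ^ 2 * (6 + 4 * X * χ + X ^ 2 * χ ^ 2) *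
        (20 + X * (1 + X * χ) * (4 + X * (1 + X * χ))))) * hi'

variable {u ψ : A⟦X⟧}

theorem InfData.c0 (h : InfData u ψ) : 25 * constantCoeff u = -1 := by
  have := congrArg constantCoeff h.hV
  simp only [pV, map_add, map_mul, map_one, map_ofNat, constantCoeff_X, zero_mul] at this
  linear_combination this

theorem InfData.unit (h : InfData u ψ) : IsUnit u := by
  rw [isUnit_iff_constantCoeff]
  exact IsUnit.of_mul_eq_one (-25) (by linear_combination -h.c0)

theorem InfData.ok (h : InfData u ψ) (h30 : IsUnit (30 : A)) : Ok u := by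
  obtain ⟨h2, h3, h5⟩ := unit_of_30 h30
  have c0 := h.c0
  refine ⟨?_, ?_, ?_⟩
  · rw [isUnit_iff_constantCoeff, map_pW]
    refine isUnit_of_mul_isUnit_right (x := 25) ?_
    convert (h2.pow 3).mul h3 using 1
    rw [pW]; linear_combination c0
  · rw [isUnit_iff_constantCoeff, map_pQ]
    refine isUnit_of_mul_isUnit_right (x := 25) ?_
    convert (h2.pow 2).mul h5 using 1
    rw [pQ]; linear_combination (25 * constantCoeff u + 5) * c0
  · rw [isUnit_iff_constantCoeff, map_pC]
    refine isUnit_of_mul_isUnit_right (x := 5) ?_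
    convert h2.pow 4 using 1
    rw [pC]; linear_combination (-625 * constantCoeff u ^ 2 - 100 * constantCoeff u - 11) * c0

theorem InfData.der (h : InfData u ψ) : pC u * th A u = -4 * pU u := by
  have d := congrArg (th A) h.hD
  have hψ : IsUnit ψ := by rw [isUnit_iff_constantCoeff, h.h0]; exact isUnit_one
  rw [th_pD, th_mul, th_mul, th_pow_of (l := 1) (by rw [th_X, one_mul]), map_neg, th_num] at d
  push_cast at d
  apply (hψ.pow 3).mul_left_cancel
  apply X_pow_mul_cancel (k := 3)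
  rw [← mul_assoc (X ^ 3), ← mul_assoc (X ^ 3), ← mul_pow, ← h.hV]
  have e : pD u - u * (106 + 8750 * u + 262500 * u ^ 2 + 3437500 * u ^ 3 +
    19531250 * u ^ 4 + 58593750 * u ^ 5) = pV u ^ 3 * pC u := by
    simp only [pD, pV, pQ, pC]; ring
  have e2 : u * pD u = pV u ^ 3 * pU u := by simp only [pD, pU]; ring
  linear_combination -u * d - th A u * e - 4 * e2 + (th A u + 4 * u) * h.hD

/-- Frobenius lift at the second cusp -/
noncomputable def sig (p : ℕ) [hp : Fact p.Prime] (c : A) : A⟦X⟧ →+* A⟦X⟧ :=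
  (expand p hp.out.ne_zero : A⟦X⟧ →ₐ[A] A⟦X⟧).toRingHom.comp (rescale c)

theorem sig_apply (c : A) (f : A⟦X⟧) : sig p c f = expand p hp.out.ne_zero (rescale c f) := rfl

theorem sig_X (c : A) : sig p c X = C c * X ^ p := by
  rw [sig_apply, rescale_X, map_mul, expand_C, expand_X]

theorem sig_cong {c : A} (hc : (p : A) ∣ c - 1) (f : A⟦X⟧) :
    (p : A⟦X⟧) ∣ sig p c f - expand p hp.out.ne_zero f := by
  have : C (p : A) ∣ rescale c f - f := C_dvd_of_coeff fun k => by
    rw [map_sub, coeff_rescale]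
    have := (hc.trans (sub_dvd_pow_sub_pow c 1 k)).mul_right (coeff k f)
    rwa [one_pow, sub_mul, one_mul] at this
  have := map_dvd (expand p hp.out.ne_zero) this
  rwa [expand_C, map_natCast, map_sub] at this

/-- reversed truncated polynomial -/
noncomputable def RR (p : ℕ) (b : ℕ → A) : A⟦X⟧ := ∑ a ∈ range p, C (b a) * X ^ (4 * (p - 1 - a))

theorem coeff_sig {n : ℕ} (hn : p = 2 * n + 1) (b : ℕ → A) (c : A) (f : A⟦X⟧) :
    coeff (4 * (p - 1) + 2) (RR p b * sig p c f) =
      b n * (c ^ 2 * coeff 2 f) := by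
  have h1 : ∀ a < p, coeff (4 * (p - 1) + 2) (C (b a) * X ^ (4 * (p - 1 - a)) * sig p c f) =
      b a * coeff (4 * a + 2) (sig p c f) := by
    intro a ha
    rw [mul_assoc, coeff_C_mul, show 4 * (p - 1) + 2 = 4 * a + 2 + 4 * (p - 1 - a) by omega,
      coeff_X_pow_mul]
  rw [RR, sum_mul, map_sum, sum_eq_single n]
  · rw [h1 n (by omega), show 4 * n + 2 = p * 2 by omega, sig_apply, coeff_expand_mul,
      coeff_rescale]
  · intro a ha han
    rw [h1 a (mem_range.1 ha), sig_apply, coeff_expand_of_not_dvd, mul_zero]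
    intro hd
    have hd2 : p ∣ 2 * (2 * a + 1) := by rwa [show 2 * (2 * a + 1) = 4 * a + 2 by ring]
    have ha' := mem_range.1 ha
    rcases (Nat.Prime.dvd_mul hp.out).1 hd2 with h2 | ⟨k, hk⟩
    · have := Nat.le_of_dvd (by omega) h2
      have := hp.out.two_le
      omega
    · rcases k with _ | _ | k
      · omega
      · omega
      · have : p * (k + 1 + 1) = 2 * p + p * k := by ring
        omega
  · intro h; exact absurd (mem_range.2 (by omega)) h

theorem InfData.star (h : InfData u ψ) (h30 : IsUnit (30 : A)) (hp3 : (p : A) ^ 3 = 0)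
    (hodd : Odd p) (hF : (p : A⟦X⟧) ∣ expand p hp.out.ne_zero u - u ^ p) {c c' : A}
    (hc : -20 * c = 1) (hc' : c' ^ 4 = 20 ^ (p - 1)) (hc1 : (p : A) ∣ c' - 1) {w : A⟦X⟧}
    (hw : w = X * pD w) {b0 b1 b2 : ℕ → A}
    (hz : Phi p (fun a => algebraMap A A⟦X⟧ (b0 a)) (fun a => algebraMap A A⟦X⟧ (b1 a))
      (fun a => algebraMap A A⟦X⟧ (b2 a)) w = 0) :
    X ^ (4 * (p - 1)) * (mF u * PP p (fun a => C (b0 a)) (sF u)) =
      RR p (fun a => b0 a * c ^ a) * sig p c' (mF u) +
      (p : A⟦X⟧) * (RR p (fun a => b1 a * c ^ a) * sig p c' (m1F u)) +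
      (p : A⟦X⟧) ^ 2 * (RR p (fun a => b2 a * c ^ a) * sig p c' (m2F u)) := by
  set L := Localization.Away (X : A⟦X⟧)
  set j := algebraMap A⟦X⟧ L with hj
  have inj : Function.Injective j := IsLocalization.injective L (M := Submonoid.powers X)
    (Submonoid.powers_le.2 (mem_nonZeroDivisors_iff_left.2 fun x hx =>
      X_mul_cancel (by rw [hx, mul_zero])))
  have ok := h.ok h30
  have hX : IsUnit (j X) := IsLocalization.Away.algebraMap_isUnit X
  have hψ : IsUnit ψ := by rw [isUnit_iff_constantCoeff, h.h0]; exact isUnit_one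
  have okj := ok.map j
  have hall : IsUnit (pAll (j u)) := by
    refine ((IsUnit.mul ?_ okj.hW).mul okj.hQ).mul okj.hC
    rw [← map_pV, h.hV, map_mul]
    exact hX.mul (hψ.map j)
  have key := transfer hp3 (aeval_inj (unitD_of_all (u0_all hw)) hw) (u0_all hw) hall b0 b1 b2 hz
  have hL3 : (p : L) ^ 3 = 0 := by simpa using congrArg j (hp3_series hp3)
  have hhat : hatF p (j u) = j (sig p c' u) := by
    refine hat_eq hL3 hall ?_ ?_
    · have h1 := congrArg (sig p c') h.hD
      rw [map_pD, map_mul, map_mul, map_pow, sig_X, map_neg, map_ofNat] at h1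
      have h2 : pD u ^ p = -20 ^ p * (X ^ p) ^ 4 * u ^ p := by
        rw [h.hD, mul_pow, mul_pow, hodd.neg_pow, ← pow_mul, ← pow_mul, mul_comm 4 p]
      have h3 : (C c' : A⟦X⟧) ^ 4 * 20 = 20 ^ p := by
        rw [← map_pow, hc', map_pow, map_ofNat, ← pow_succ, Nat.sub_add_cancel hp.out.pos]
      rw [← map_pD, ← map_pD, ← map_pow, ← map_pow, ← map_mul, ← map_mul, h1, h2, ← h3]
      congr 1; ring
    · have := map_dvd j (dvd_add (sig_cong hc1 u) hF)
      rwa [map_natCast, sub_add_sub_cancel, map_sub, map_pow] at this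
  have hT : tF (j u) * j X ^ 4 = j (C c) := by
    have h1 := Ring.mul_inverse_cancel _ (unitD_of_all hall)
    have h2 := congrArg j h.hD
    have h3 := congrArg (fun a => j (C a)) hc
    simp only [map_pD, map_mul, map_neg, map_ofNat, map_pow, map_one] at h2 h3
    rw [tF]
    linear_combination j (C c) * h1 - j (C c) * Ring.inverse (pD (j u)) * h2 -
      j u * Ring.inverse (pD (j u)) * j X ^ 4 * h3
  have hPP : ∀ b : ℕ → A, j X ^ (4 * (p - 1)) * PP p (fun a => algebraMap A L (b a)) (tF (j u)) =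
      j (RR p fun a => b a * c ^ a) := by
    intro b
    rw [PP, RR, mul_sum, map_sum]
    refine sum_congr rfl fun a ha => ?_
    have ha' := mem_range.1 ha
    rw [show 4 * (p - 1) = 4 * (p - 1 - a) + 4 * a by omega, map_mul, map_mul, map_mul, map_pow,
      map_pow, map_pow, ← hT, show algebraMap A L (b a) = j (C (b a)) from rfl]
    ring
  apply inj
  have oks := ok.map (sig p c')
  rw [Phi, hhat, sub_eq_zero] at key
  simp only [map_add, map_mul, map_pow, map_natCast, ← hPP, map_mF _ ok, map_m1F _ ok,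
    map_m2F _ ok, map_mF j oks, map_m1F j oks, map_m2F j oks, map_PP, map_sF _ ok]
  change _ * (_ * PP p (fun a => algebraMap A L (b0 a)) _) = _
  rw [key]; ring

theorem coeff_two_mul (f g : A⟦X⟧) (hf : constantCoeff f = 0) :
    coeff 2 (f * g) = coeff 1 f * coeff 1 g + coeff 2 f * constantCoeff g := by
  rw [coeff_mul, Nat.sum_antidiagonal_succ, Nat.sum_antidiagonal_succ]
  simp [hf]

theorem InfData.coeffs (h : InfData u ψ) (h30 : IsUnit (30 : A)) :
    constantCoeff (mF u) = 0 ∧ 120 * coeff 2 (mF u) = -41 * coeff 1 (mF u) ∧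
      IsUnit (coeff 1 (mF u)) ∧ 6635520 * constantCoeff (sF u) = -1 ∧
      30 * coeff 1 (sF u) = -161 * constantCoeff (sF u) := by
  obtain ⟨h2, h3, h5⟩ := unit_of_30 h30
  have ok := h.ok h30
  have h24 : IsUnit (24 : A) := by
    have := (h2.pow 3).mul h3
    rwa [show (2 : A) ^ 3 * 3 = 24 by norm_num] at this
  have hV := h.hV
  have e0 := ok.e0
  have es := ok.es
  simp only [pV, pW, pQ] at hV e0 es
  have a1 : mF u * (X * ψ) + 24 * mF u = 25 * (X * ψ) := by
    linear_combination 25 * e0 + (25 - mF u) * hV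
  have a2 : sF u * ((X * ψ + 24) ^ 4 * ((X * ψ) ^ 2 + 4 * (X * ψ) + 20)) = (X * ψ - 1) ^ 5 := by
    rw [← hV]; linear_combination 9765625 * es
  have v0 : constantCoeff (X * ψ) = 0 := by simp
  have v1 : coeff 1 (X * ψ) = 1 := by rw [coeff_succ_X_mul 0]; simp [h.h0]
  have v2 : coeff 2 (X * ψ) = coeff 1 ψ := coeff_succ_X_mul 1 ψ
  have cn : ∀ (k : ℕ) [k.AtLeastTwo], coeff 1 (ofNat(k) : A⟦X⟧) = 0 := by
    intro k _
    rw [← map_ofNat (C (R := A)), coeff_C]; simp
  have cm : ∀ (k i : ℕ) [k.AtLeastTwo] (f : A⟦X⟧), coeff i (ofNat(k) * f) = ofNat(k) * coeff i f := by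
    intro k i _ f
    rw [← map_ofNat (C (R := A)), coeff_C_mul]
  generalize X * ψ = v at a1 a2 v0 v1 v2
  have m0 : constantCoeff (mF u) = 0 := by
    have := congrArg constantCoeff a1
    simp only [map_add, map_mul, v0, map_ofNat] at this
    apply h24.mul_left_cancel; linear_combination this
  have m1 : 24 * coeff 1 (mF u) = 25 := by
    have := congrArg (coeff 1) a1
    rw [map_add, coeff_one_mul, cm, cm, v0, v1, m0] at this
    linear_combination this
  have m2 : 24 * coeff 2 (mF u) + coeff 1 (mF u) = 25 * coeff 1 ψ := by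
    have := congrArg (coeff 2) a1
    rw [map_add, coeff_two_mul _ _ m0, cm, cm, v0, v1, v2] at this
    linear_combination this
  have s0 : 6635520 * constantCoeff (sF u) = -1 := by
    have := congrArg constantCoeff a2
    simp only [map_add, map_mul, map_sub, map_pow, v0, map_ofNat, map_one] at this
    linear_combination this
  refine ⟨m0, ?_, ?_, s0, ?_⟩
  · apply h2.mul_left_cancel
    linear_combination 10 * m2 + 25 * h.h1 + 3 * m1
  · refine isUnit_of_mul_isUnit_right (x := 24) ?_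
    rw [m1]; convert h5.pow 2 using 1; norm_num
  · have := congrArg (coeff 1) a2
    simp only [coeff_one_mul, coeff_one_pow, map_add, map_mul, map_sub, map_pow, v0, v1, map_ofNat,
      map_one, cn, coeff_one, one_ne_zero, if_false] at this
    push_cast at this
    apply ((h24.pow 3).mul (h2.pow 4)).mul_left_cancel
    linear_combination this + 5 * s0

theorem InfData.cusp (h : InfData u ψ) (h30 : IsUnit (30 : A)) {n : ℕ} (hn : p = 2 * n + 1)
    {c c' e s : A} (he : 2 * e = 1) (hs : 6635520 * s = -1) {b0 b1 b2 : ℕ → A}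
    (hz : X ^ (4 * (p - 1)) * (mF u * PP p (fun a => C (b0 a)) (sF u)) =
      RR p (fun a => b0 a * c ^ a) * sig p c' (mF u) +
      (p : A⟦X⟧) * (RR p (fun a => b1 a * c ^ a) * sig p c' (m1F u)) +
      (p : A⟦X⟧) ^ 2 * (RR p (fun a => b2 a * c ^ a) * sig p c' (m2F u))) :
    ∑ a ∈ range p, (644 * a + 41) * b0 a * s ^ a =
      41 * (c ^ n * c' ^ 2) * (b0 n - p * e * b1 n + (p * e) ^ 2 * b2 n) := by
  obtain ⟨h2, h3, h5⟩ := unit_of_30 h30
  obtain ⟨m0, m2, m1, s0, s1⟩ := h.coeffs h30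
  have ok := h.ok h30
  have hs' : constantCoeff (sF u) = s := by
    have : IsUnit (6635520 : A) := IsUnit.of_mul_eq_one (-s) (by linear_combination -hs)
    apply this.mul_left_cancel; rw [s0, hs]
  rw [hs'] at s1
  have d1 := congrArg (coeff 2) (th_mF ok h.der)
  have d2 := congrArg (coeff 2) (th_m1F ok h.der)
  rw [coeff_th, ← map_ofNat (C (R := A)), ← map_neg, coeff_C_mul] at d1 d2
  push_cast at d1 d2
  have f1 : coeff 2 (m1F u) = -e * coeff 2 (mF u) := by
    linear_combination e ^ 2 * d1 - (coeff 2 (m1F u) * (1 + 2 * e) + e * coeff 2 (mF u)) * he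
  have f2 : coeff 2 (m2F u) = e ^ 2 * coeff 2 (mF u) := by
    rw [f1] at d2
    linear_combination e ^ 2 * d2 - (coeff 2 (m2F u) * (1 + 2 * e) - e ^ 2 * coeff 2 (mF u)) * he
  have k := congrArg (coeff (4 * (p - 1) + 2)) hz
  rw [map_add, map_add, ← map_natCast (C (R := A)), ← map_pow, coeff_C_mul, coeff_C_mul,
    coeff_sig hn, coeff_sig hn, coeff_sig hn, add_comm (4 * (p - 1)), coeff_X_pow_mul,
    coeff_two_mul _ _ m0, f1, f2] at k
  have P0 : constantCoeff (PP p (fun a => C (b0 a)) (sF u)) = ∑ a ∈ range p, b0 a * s ^ a := by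
    simp [PP, hs']
  have P1 : 30 * coeff 1 (PP p (fun a => C (b0 a)) (sF u)) =
      -161 * ∑ a ∈ range p, a * b0 a * s ^ a := by
    rw [PP, map_sum, mul_sum, mul_sum]
    refine sum_congr rfl fun a _ => ?_
    rw [coeff_C_mul, coeff_one_pow, hs']
    rcases a with _ | a
    · simp
    · rw [Nat.add_sub_cancel]
      linear_combination (b0 (a + 1) * ((a + 1 : ℕ) : A) * s ^ a) * s1
  have split : ∑ a ∈ range p, (644 * a + 41) * b0 a * s ^ a =
      644 * ∑ a ∈ range p, a * b0 a * s ^ a + 41 * ∑ a ∈ range p, b0 a * s ^ a := by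
    rw [mul_sum, mul_sum, ← sum_add_distrib]
    exact sum_congr rfl fun a _ => by ring
  rw [P0] at k
  rw [split]
  apply m1.mul_left_cancel
  linear_combination -120 * k + 4 * coeff 1 (mF u) * P1 + (∑ a ∈ range p, b0 a * s ^ a -
    c ^ n * c' ^ 2 * (b0 n - p * e * b1 n + (p * e) ^ 2 * b2 n)) * m2

end Pool.Agent.Lib.MP_bdc5f5_nt
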