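import Pool.Agent.Lib.MP_bdc5f5_nt.Gam

/-!
Finite differences: the ratio `c j` of products of integers prime to `p` is interpolated by
polynomials congruent to `1` modulo `p ^ 3`.
-/

namespace Pool.Agent.Lib.MP_bdc5f5_nt

open Finset Polynomial

variable {p : ℕ} [hp : Fact p.Prime]

theorem isUnit_nat {n : ℕ} (h : ¬ p ∣ n) : IsUnit (n : ℤ_[p]) := by
  rw [PadicInt.isUnit_iff, PadicInt.norm_natCast_eq_one_iff]
  exact (hp.out.coprime_iff_not_dvd).2 h

theorem isUnit_of_dvd_sub {x y : ℤ_[p]} (hy : IsUnit y) (h : (p : ℤ_[p]) ∣ x - y) : IsUnit x := by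
  by_contra hx
  rw [PadicInt.not_isUnit_iff, PadicInt.norm_lt_one_iff_dvd] at hx
  have : (p : ℤ_[p]) ∣ y := by simpa using dvd_sub hx h
  rw [← PadicInt.norm_lt_one_iff_dvd, ← PadicInt.not_isUnit_iff] at this
  exact this hy

theorem isUnit_G (n : ℕ) {z : ℤ_[p]} (hz : (p : ℤ_[p]) ∣ z) : IsUnit (G p n z) := by
  unfold G
  refine IsUnit.prod_iff.2 fun i hi => ?_
  exact isUnit_of_dvd_sub (isUnit_nat (mem_filter.1 hi).2) (by simpa using hz)

/-- divisibility by `p ^ ⌈e / 2⌉` -/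
def Dv (e : ℕ) (x : ℤ_[p]) : Prop := (p : ℤ_[p]) ^ ((e + 1) / 2) ∣ x

theorem Dv.mono {e e' : ℕ} {x : ℤ_[p]} (h : Dv e x) (he : e' ≤ e) : Dv e' x :=
  (pow_dvd_pow _ (by omega)).trans h

theorem Dv.mul {e e' : ℕ} {x y : ℤ_[p]} (h : Dv e x) (h' : Dv e' y) : Dv (e + e') (x * y) := by
  have := mul_dvd_mul h h'
  rw [← pow_add] at this
  exact (pow_dvd_pow _ (by omega)).trans this

/-- iterated differences gain half a power of `p` -/
def Sk : ℕ → ℕ → (ℕ → ℤ_[p]) → Prop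
  | 0, r, φ => ∀ n, Dv r (φ n)
  | k + 1, r, φ => (∀ n, Dv r (φ n)) ∧ Sk k (r + 1) (fun n => φ (n + 1) - φ n)

theorem Sk.base {k r : ℕ} {φ : ℕ → ℤ_[p]} (h : Sk k r φ) : ∀ n, Dv r (φ n) := by
  cases k with
  | zero => exact h
  | succ k => exact h.1

theorem Sk.mono {k : ℕ} : ∀ {r r' : ℕ} {φ : ℕ → ℤ_[p]}, Sk k r φ → r' ≤ r → Sk k r' φ := by
  induction k with
  | zero => intro r r' φ h hr n; exact (h n).mono hr
  | succ k ih => intro r r' φ h hr; exact ⟨fun n => (h.1 n).mono hr, ih h.2 (by omega)⟩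

theorem Sk.weak {k : ℕ} : ∀ {r : ℕ} {φ : ℕ → ℤ_[p]}, Sk (k + 1) r φ → Sk k r φ := by
  induction k with
  | zero => intro r φ h; exact h.1
  | succ k ih => intro r φ h; exact ⟨h.1, ih h.2⟩

theorem Sk.congr {k r : ℕ} {φ ψ : ℕ → ℤ_[p]} (h : Sk k r φ) (e : ∀ n, φ n = ψ n) : Sk k r ψ := by
  rwa [← funext e]

theorem Sk.add {k : ℕ} : ∀ {r : ℕ} {φ ψ : ℕ → ℤ_[p]}, Sk k r φ → Sk k r ψ →
    Sk k r (fun n => φ n + ψ n) := by
  induction k with
  | zero => intro r φ ψ h h' n; exact dvd_add (h n) (h' n)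
  | succ k ih =>
    intro r φ ψ h h'
    exact ⟨fun n => dvd_add (h.1 n) (h'.1 n), (ih h.2 h'.2).congr fun n => by ring⟩

theorem Sk.shift {k : ℕ} : ∀ {r : ℕ} {φ : ℕ → ℤ_[p]}, Sk k r φ → Sk k r (fun n => φ (n + 1)) := by
  induction k with
  | zero => intro r φ h n; exact h _
  | succ k ih => intro r φ h; exact ⟨fun n => h.1 _, ih h.2⟩

theorem Sk.mul {k : ℕ} : ∀ {r s : ℕ} {φ ψ : ℕ → ℤ_[p]}, Sk k r φ → Sk k s ψ →
    Sk k (r + s) (fun n => φ n * ψ n) := by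
  induction k with
  | zero => intro r s φ ψ h h' n; exact (h n).mul (h' n)
  | succ k ih =>
    intro r s φ ψ h h'
    refine ⟨fun n => (h.1 n).mul (h'.1 n), ?_⟩
    have h1 := (ih h.2 h'.weak.shift).mono (r' := r + s + 1) (by omega)
    have h2 := (ih h.weak h'.2).mono (r' := r + s + 1) (by omega)
    exact (h1.add h2).congr fun n => by ring

theorem Sk.zero {k : ℕ} : ∀ {r : ℕ}, Sk (p := p) k r (fun _ => 0) := by
  induction k with
  | zero => intro r n; exact dvd_zero _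
  | succ k ih => intro r; exact ⟨fun _ => dvd_zero _, ih.congr fun n => by ring⟩

theorem Sk.const {k r : ℕ} {c : ℤ_[p]} (h : Dv r c) : Sk k r (fun _ => c) := by
  cases k with
  | zero => exact fun _ => h
  | succ k => exact ⟨fun _ => h, Sk.zero.congr fun n => by ring⟩

theorem dv_zero (c : ℤ_[p]) : Dv 0 c := by simp [Dv]

theorem Sk.lin (k : ℕ) : Sk (p := p) k 1 (fun n => (p : ℤ_[p]) * n) := by
  cases k with
  | zero => intro n; simp [Dv]
  | succ k =>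
    refine ⟨fun n => by simp [Dv], ?_⟩
    refine (Sk.const (c := (p : ℤ_[p])) (by simp [Dv])).congr fun n => ?_
    push_cast; ring

theorem Sk.poly0 (k : ℕ) (H : ℤ_[p][X]) : Sk k 0 (fun n : ℕ => H.eval ((p : ℤ_[p]) * (n : ℤ_[p]))) := by
  induction H using Polynomial.induction_on with
  | C a => exact (Sk.const (dv_zero a)).congr fun n => by simp
  | add f g hf hg => exact (hf.add hg).congr fun n => by simp
  | monomial j a h =>
    refine ((h.mul (Sk.lin k)).mono (Nat.zero_le _)).congr fun n => ?_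
    simp [pow_succ, mul_assoc]

theorem Sk.poly1 (k : ℕ) (H : ℤ_[p][X]) :
    Sk k 1 (fun n => H.eval ((p : ℤ_[p]) * n) - H.eval 0) := by
  refine ((Sk.poly0 k H.divX).mul (Sk.lin k)).congr fun n => ?_
  have := congrArg (eval ((p : ℤ_[p]) * n)) (X_mul_divX_add H)
  rw [← coeff_zero_eq_eval_zero]
  simp only [eval_add, eval_mul, eval_X, eval_C] at this
  linear_combination this

theorem Sk.of_rec {φ ρ : ℕ → ℤ_[p]} (hρ : ∀ k, Sk k 0 φ → Sk k 1 ρ)
    (h : ∀ n, φ (n + 1) - φ n = ρ n * φ n) (k : ℕ) : Sk k 0 φ := by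
  induction k with
  | zero => exact fun n => dv_zero _
  | succ k ih => exact ⟨fun n => dv_zero _, ((hρ k ih).mul ih).congr fun n => (h n).symm⟩

theorem Sk.inv {g ψ : ℕ → ℤ_[p]} (hg : ∀ k, Sk k 1 (fun n => g n - g 0))
    (h : ∀ n, g n * ψ n = 1) (k : ℕ) : Sk k 0 ψ := by
  refine Sk.of_rec (ρ := fun n => (-1) * (g (n + 1) - g n) * ψ (n + 1)) (fun k hk => ?_)
    (fun n => ?_) k
  · have h1 : Sk k 1 (fun n => g (n + 1) - g n) :=
      ((hg (k + 1)).2.mono (by omega)).congr fun n => by ring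
    exact ((Sk.const (dv_zero (-1))).mul h1).mul hk.shift
  · linear_combination (-ψ (n + 1)) * h n + ψ n * h (n + 1)

theorem Sk.iter {k : ℕ} : ∀ {r : ℕ} {φ : ℕ → ℤ_[p]}, Sk k r φ →
    ∀ n, Dv (k + r) ((fwdDiff 1)^[k] φ n) := by
  induction k with
  | zero => intro r φ h n; simpa using h n
  | succ k ih =>
    intro r φ h n
    rw [Function.iterate_succ_apply]
    exact (ih h.2 n).mono (by omega)

theorem iter_dvd {c : ℤ_[p]} {k : ℕ} : ∀ {φ : ℕ → ℤ_[p]}, (∀ n, c ∣ φ n) →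
    ∀ n, c ∣ (fwdDiff 1)^[k] φ n := by
  induction k with
  | zero => intro φ h n; simpa using h n
  | succ k ih =>
    intro φ h n
    rw [Function.iterate_succ_apply]
    exact ih (fun n => dvd_sub (h _) (h _)) n

/-- Newton interpolation -/
theorem newton (h11 : 11 ≤ p) {φ : ℕ → ℤ_[p]} (h1 : ∀ k, Sk k 0 φ)
    (h3 : ∀ n, (p : ℤ_[p]) ^ 3 ∣ φ n) (N : ℕ) :
    ∃ P : ℤ_[p][X], ∀ j ≤ N, φ j = (p : ℤ_[p]) ^ 3 * P.eval (j : ℤ_[p]) := by
  have key : ∀ k, ∃ d, (fwdDiff 1)^[k] φ 0 = (p : ℤ_[p]) ^ 3 * (k.factorial : ℤ_[p]) * d := by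
    intro k
    by_cases hk : k < p
    · have hu : IsUnit (k.factorial : ℤ_[p]) :=
        isUnit_nat (by rw [hp.out.dvd_factorial]; omega)
      exact (hu.mul_right_dvd).2 (iter_dvd h3 0)
    · obtain ⟨v, u, hu, hfac⟩ :=
        Nat.exists_eq_pow_mul_and_not_dvd k.factorial_ne_zero p hp.out.ne_one
      have hv : v ≤ padicValNat p k.factorial :=
        (padicValNat_dvd_iff_le k.factorial_ne_zero).1 ⟨u, hfac⟩
      have hlt := sub_one_mul_padicValNat_factorial_lt_of_ne_zero p (n := k) (by omega)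
      have h10 : 10 * v ≤ (p - 1) * padicValNat p k.factorial :=
        Nat.mul_le_mul (by omega) hv
      have hd := (h1 k).iter 0
      have : (p : ℤ_[p]) ^ 3 * (k.factorial : ℤ_[p]) = (p : ℤ_[p]) ^ (3 + v) * (u : ℤ_[p]) := by
        rw [hfac]; push_cast; ring
      show (p : ℤ_[p]) ^ 3 * (k.factorial : ℤ_[p]) ∣ _
      rw [this, (isUnit_nat hu).mul_right_dvd]
      exact (pow_dvd_pow _ (by omega)).trans hd
  choose d hd using key
  refine ⟨∑ k ∈ range (N + 1), C (d k) * descPochhammer ℤ_[p] k, fun j hj => ?_⟩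
  have := shift_eq_sum_fwdDiff_iter 1 φ j 0
  simp only [zero_add, smul_eq_mul, mul_one] at this
  rw [this, eval_finsetSum, mul_sum]
  rw [← sum_subset (range_subset_range.2 (by omega : j + 1 ≤ N + 1))]
  · refine sum_congr rfl fun k _ => ?_
    rw [hd, eval_mul, eval_C, descPochhammer_eval_eq_descFactorial,
      Nat.descFactorial_eq_factorial_mul_choose]
    simp only [nsmul_eq_mul]
    push_cast; ring
  · intro k _ hk
    rw [eval_mul, descPochhammer_eval_eq_descFactorial,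
      Nat.descFactorial_eq_zero_iff_lt.2 (by simpa using hk)]
    simp

/-- the ratio of products of integers prime to `p` -/
noncomputable def cc (p : ℕ) [Fact p.Prime] (j : ℕ) : ℤ_[p] :=
  G p (p * (4 * j)) 0 * Ring.inverse (G p (p * j) 0 ^ 4)

theorem cc_mul (j : ℕ) : cc p j * G p (p * j) 0 ^ 4 = G p (p * (4 * j)) 0 := by
  rw [cc, mul_assoc, Ring.inverse_mul_cancel _ ((isUnit_G _ (dvd_zero _)).pow 4), mul_one]

theorem cc_add (x m : ℕ) : cc p (x + m) * G p (p * m) ((p : ℤ_[p]) * x) ^ 4 =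
    cc p x * G p (p * (4 * m)) (4 * ((p : ℤ_[p]) * x)) := by
  apply ((isUnit_G (p * x) (dvd_zero (p : ℤ_[p]))).pow 4).mul_right_cancel
  have h1 := cc_mul (p := p) (x + m)
  have h2 := cc_mul (p := p) x
  rw [mul_add, G_add (dvd_mul_right _ _), mul_add, mul_add, G_add (dvd_mul_right _ _)] at h1
  have e1 : (0 : ℤ_[p]) + ((p * x : ℕ) : ℤ_[p]) = (p : ℤ_[p]) * x := by push_cast; ring
  have e2 : (0 : ℤ_[p]) + ((p * (4 * x) : ℕ) : ℤ_[p]) = 4 * ((p : ℤ_[p]) * x) := by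
    push_cast; ring
  rw [e1, e2] at h1
  linear_combination h1 - G p (p * (4 * m)) (4 * ((p : ℤ_[p]) * x)) * h2

theorem cc_cong (h3 : 3 < p) (K e : ℕ) : ((p : ℤ_[p]) ^ (K + 1)) ^ 3 ∣ cc p (p ^ K * e) - 1 := by
  have hu := (isUnit_G (p * (p ^ K * e)) (dvd_zero (p : ℤ_[p]))).pow 4
  rw [← hu.dvd_mul_right, sub_mul, cc_mul, one_mul]
  have e1 : p * (4 * (p ^ K * e)) = p ^ (K + 1) * (4 * e) := by ring
  have e2 : p * (p ^ K * e) = p ^ (K + 1) * e := by ring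
  rw [e1, e2]
  have h1 := G_mul_cong hp.out h3 K (4 * e)
  have h2 := (G_mul_cong hp.out h3 K e).trans (sub_dvd_pow_sub_pow _ _ 4)
  have h := dvd_sub h1 h2
  have e3 : G p (p ^ (K + 1) * (4 * e)) (0 : ℤ) - G p (p ^ (K + 1)) 0 ^ (4 * e) -
      (G p (p ^ (K + 1) * e) 0 ^ 4 - (G p (p ^ (K + 1)) 0 ^ e) ^ 4) =
      G p (p ^ (K + 1) * (4 * e)) (0 : ℤ) - G p (p ^ (K + 1) * e) 0 ^ 4 := by ring
  rw [e3] at h
  have := map_dvd (Int.castRingHom ℤ_[p]) h
  rw [map_sub, map_pow, map_pow, map_G, map_G, map_zero] at this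
  simpa using this

theorem cc_Sk (h3 : 3 < p) (k : ℕ) : Sk k 0 (cc p) := by
  set g : ℕ → ℤ_[p] := fun n => (G p p (X : ℤ_[p][X]) ^ 4).eval ((p : ℤ_[p]) * n) with hg
  set H : ℤ_[p][X] := G p (p * 4) (4 * X) - G p p X ^ 4 with hH
  have hev : ∀ (N : ℕ) (z : ℤ_[p]) (f : ℤ_[p][X]), (G p N f).eval z = G p N (f.eval z) :=
    fun N z f => map_G (evalRingHom z) p N f
  have hgu : ∀ n, IsUnit (g n) := fun n => by
    simp only [hg, eval_pow, hev, eval_X]
    exact (isUnit_G _ (dvd_mul_right _ _)).pow 4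
  have hψ : ∀ k, Sk k 0 (fun n => Ring.inverse (g n)) :=
    Sk.inv (g := g) (fun k => (Sk.poly1 k (G p p (X : ℤ_[p][X]) ^ 4)).congr fun n => by simp [hg])
      (fun n => Ring.mul_inverse_cancel _ (hgu n))
  have hH0 : Dv 1 (H.eval 0) := by
    have h1 := cc_cong (p := p) h3 0 1
    have h2 := cc_mul (p := p) 1
    simp only [hH, eval_sub, eval_pow, hev, eval_mul, eval_X, mul_zero]
    simp only [mul_one, pow_zero, zero_add, pow_one] at h1 h2
    rw [← h2]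
    have : (p : ℤ_[p]) ∣ cc p 1 - 1 := (dvd_pow_self _ (by omega)).trans h1
    simp only [Dv, Nat.reduceAdd, Nat.reduceDiv, pow_one]
    refine (this.mul_right (G p p 0 ^ 4)).trans (dvd_of_eq ?_)
    ring
  have hH1 : ∀ k, Sk k 1 (fun n : ℕ => H.eval ((p : ℤ_[p]) * (n : ℤ_[p]))) := fun k =>
    ((Sk.poly1 k H).add (Sk.const hH0)).congr fun n => by ring
  refine Sk.of_rec (ρ := fun n => H.eval ((p : ℤ_[p]) * (n : ℤ_[p])) * Ring.inverse (g n))
    (fun k _ => (hH1 k).mul (hψ k)) (fun n => ?_) k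
  apply (hgu n).mul_right_cancel
  have h1 := cc_add (p := p) n 1
  have h2 := Ring.mul_inverse_cancel _ (hgu n)
  have h4 : g n = G p p ((p : ℤ_[p]) * n) ^ 4 := by simp [hg, hev]
  have h5 : H.eval ((p : ℤ_[p]) * (n : ℤ_[p])) =
      G p (p * 4) (4 * ((p : ℤ_[p]) * n)) - g n := by simp [hH, hev, h4]
  simp only [mul_one] at h1
  rw [← h4] at h1
  rw [h5]
  linear_combination h1 - (G p (p * 4) (4 * ((p : ℤ_[p]) * n)) - g n) * cc p n * h2

theorem cc_interp (h11 : 11 ≤ p) (N : ℕ) :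
    ∃ P : ℤ_[p][X], ∀ j ≤ N, cc p j = 1 + (p : ℤ_[p]) ^ 3 * P.eval (j : ℤ_[p]) := by
  obtain ⟨P, hP⟩ := newton h11 (φ := fun n => cc p n + (-1))
    (fun k => (cc_Sk (by omega) k).add (Sk.const (dv_zero _)))
    (fun n => by simpa [sub_eq_add_neg] using cc_cong (p := p) (by omega) 0 n) N
  exact ⟨P, fun j hj => by linear_combination hP j hj⟩

end Pool.Agent.Lib.MP_bdc5f5_nt
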