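import Pool.Agent.Lib.MP_bdc5f5_nt.Cusp

/-!
Evaluation of the constant and conclusion.
-/

namespace Pool.Agent.Lib.MP_bdc5f5_nt

open Finset

variable {p : ℕ} [hp : Fact p.Prime] {A : Type*} [CommRing A]

omit hp in
theorem dvd_prod_sub {d : A} (n : ℕ) {f g : ℕ → A} (h : ∀ i, d ∣ f i - g i) :
    d ∣ ∏ i ∈ range n, f i - ∏ i ∈ range n, g i := by
  induction n with
  | zero => simp
  | succ n ih =>
    rw [prod_range_succ, prod_range_succ]
    refine (dvd_add (ih.mul_right (f n)) ((h n).mul_left (∏ i ∈ range n, g i))).trans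
      (dvd_of_eq ?_)
    ring

theorem G_shiftA (h3 : 3 < p) (hp3 : (p : A) ^ 3 = 0) (r : ℤ) :
    G p p ((r : A) * p) = G p p 0 := by
  have := map_dvd (Int.castRingHom A) (G_shift hp.out h3 0 r)
  rw [map_sub, map_G, map_G] at this
  simp only [zero_add, pow_one, map_pow, map_natCast, map_mul, eq_intCast,
    Int.cast_zero, hp3, zero_dvd_iff] at this
  exact sub_eq_zero.1 this

theorem mu_eq (φ : ℤ_[p] →+* A) (hp3 : (p : A) ^ 3 = 0) {n : ℕ} (hn : p = 2 * n + 1) (h3 : 3 < p)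
    {e μ : A} (he : 2 * e = 1) (h : Num n (-(p * e)) = Den n (-(p * e)) * μ) : μ = p := by
  obtain ⟨k, rfl⟩ : ∃ k, n = k + 1 := ⟨n - 1, by omega⟩
  have hpA : (p : A) = 2 * k + 3 := by rw [hn]; push_cast; ring
  have hG : ∀ z : A, G p p z = ∏ i ∈ range (2 * k + 2), (z + ((i + 1 : ℕ) : A)) := by
    intro z
    rw [← G_p, show 2 * k + 2 + 1 = p by omega]
  have h4 : 4 * (-((p : A) * e)) = -2 * p := by linear_combination (-2 * (p : A)) * he
  have hN : Num (k + 1) (-((p : A) * e)) = p * G p p (((-2 : ℤ) : A) * p) *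
      G p p (((-1 : ℤ) : A) * p) := by
    rw [Num, h4, show 4 * (k + 1) = (2 * k + 2) + 1 + (2 * k + 1) by ring, prod_range_add,
      prod_range_succ, hG, hG, prod_range_succ (n := 2 * k + 1)
        (fun i => ((-1 : ℤ) : A) * p + ((i + 1 : ℕ) : A))]
    have e1 : ∏ i ∈ range (2 * k + 1), (-2 * (p : A) + ((2 * k + 2 + 1 + i + 1 : ℕ) : A)) =
        ∏ i ∈ range (2 * k + 1), (((-1 : ℤ) : A) * p + ((i + 1 : ℕ) : A)) :=
      prod_congr rfl fun i _ => by rw [hpA]; push_cast; ring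
    have e2 : -2 * (p : A) + ((2 * k + 2 + 1 : ℕ) : A) = -p := by rw [hpA]; push_cast; ring
    have e3 : ((-1 : ℤ) : A) * p + ((2 * k + 1 + 1 : ℕ) : A) = -1 := by rw [hpA]; push_cast; ring
    rw [e1, e2, e3]
    push_cast; ring
  rw [G_shiftA h3 hp3, G_shiftA h3 hp3] at hN
  have hF : G p p (0 : A) = ∏ i ∈ range (k + 1), (((i + 1 : ℕ) : A) * (p - ((i + 1 : ℕ) : A))) := by
    rw [hG, show 2 * k + 2 = (k + 1) + (k + 1) by ring, prod_range_add, prod_mul_distrib,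
      ← prod_range_reflect (fun i => (0 : A) + ((k + 1 + i + 1 : ℕ) : A))]
    congr 1
    · simp
    · refine prod_congr rfl fun i hi => ?_
      obtain ⟨d, rfl⟩ := Nat.exists_eq_add_of_le (Nat.lt_succ_iff.1 (mem_range.1 hi))
      rw [hpA, show i + d + 1 - 1 - i = d by omega]; push_cast; ring
  have hFu : IsUnit (G p p (0 : A)) := by
    have := (isUnit_G (p := p) p (dvd_zero _)).map φ
    rwa [map_G, map_zero] at this
  have hH : (p : A) ^ 2 ∣ ∏ i ∈ range (k + 1), (-(-((p : A) * e) + ((i + 1 : ℕ) : A)) ^ 2) -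
      G p p (0 : A) := by
    rw [hF]
    refine dvd_prod_sub _ fun i => ⟨-e ^ 2, ?_⟩
    linear_combination ((p : A) * ((i + 1 : ℕ) : A)) * he
  have hD : Den (k + 1) (-((p : A) * e)) =
      (∏ i ∈ range (k + 1), (-(-((p : A) * e) + ((i + 1 : ℕ) : A)) ^ 2)) ^ 2 := by
    rw [Den, ← prod_pow, ← prod_pow]
    exact prod_congr rfl fun i _ => by ring
  have hHu := unit_of_dvd hp3 hFu ((dvd_pow_self _ two_ne_zero).trans hH)
  rw [hN, hD] at h
  obtain ⟨r, hr⟩ := hH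
  generalize ∏ i ∈ range (k + 1), (-(-((p : A) * e) + ((i + 1 : ℕ) : A)) ^ 2) = H at *
  apply (hHu.pow 2).mul_left_cancel
  linear_combination -h - (p : A) * (H + G p p 0) * hr - r * (H + G p p 0) * hp3

theorem fermat_int (a : ℤ) (ha : ¬ (p : ℤ) ∣ a) : (p : ℤ) ∣ a ^ (p - 1) - 1 := by
  rw [← ZMod.intCast_zmod_eq_zero_iff_dvd] at ha ⊢
  push_cast
  rw [ZMod.pow_card_sub_one_eq_one ha, sub_self]

theorem exists_root (hp3 : (p : A) ^ 3 = 0) {n : ℕ} (hn : p = 2 * n + 1) (h5 : 5 < p)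
    {e c : A} (he : 2 * e = 1) (hc : -20 * c = 1) : ∃ c' : A, c' ^ 4 = 20 ^ (p - 1) ∧
      (p : A) ∣ c' - 1 ∧ c ^ n * c' ^ 2 = (legendreSym p (-5) : A) := by
  have nd : ∀ k : ℕ, k ∣ 20 → ¬ (p : ℤ) ∣ (k : ℤ) := by
    intro k hk h
    have h1 : p ∣ 2 ^ 2 * 5 := (Int.natCast_dvd_natCast.1 h).trans hk
    rcases (Nat.Prime.dvd_mul hp.out).1 h1 with h2 | h2
    · have := Nat.le_of_dvd (by omega) (hp.out.dvd_of_dvd_pow h2); omega
    · have := Nat.le_of_dvd (by omega) h2; omega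
  obtain ⟨w, hw⟩ : (p : A) ∣ 20 ^ (p - 1) - 1 := by
    simpa using map_dvd (Int.castRingHom A) (fermat_int 20 (nd 20 dvd_rfl))
  have h4 : (1 + e ^ 2 * (p * w) - 3 * e ^ 5 * (p * w) ^ 2) ^ 4 = 20 ^ (p - 1) := by
    linear_combination -hw + ((p * w) * (2 * e + 1) - 6 * e ^ 4 * (p * w) ^ 2) * he +
      w ^ 3 * (-36 * e ^ 7 + 54 * e ^ 10 * (p * w) + 4 * (e ^ 2 - 3 * e ^ 5 * (p * w)) ^ 3 +
        (p * w) * (e ^ 2 - 3 * e ^ 5 * (p * w)) ^ 4) * hp3
  have h1 : (p : A) ∣ (1 + e ^ 2 * (p * w) - 3 * e ^ 5 * (p * w) ^ 2) - 1 :=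
    ⟨e ^ 2 * w - 3 * e ^ 5 * p * w ^ 2, by ring⟩
  refine ⟨_, h4, h1, ?_⟩
  generalize 1 + e ^ 2 * (p * w) - 3 * e ^ 5 * (p * w) ^ 2 = c' at h4 h1
  have h5' : ((-5 : ℤ) : ZMod p) ≠ 0 := by
    rw [Ne, ZMod.intCast_zmod_eq_zero_iff_dvd, dvd_neg]; exact nd 5 (by norm_num)
  have hL : (legendreSym p (-5) : A) ^ 2 = 1 := by
    exact_mod_cast congrArg (Int.cast : ℤ → A) (legendreSym.sq_one p h5')
  have hLg : (p : ℤ) ∣ legendreSym p (-5) * (-20) ^ n - 1 := by
    have h10 := fermat_int 10 (nd 10 (by norm_num))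
    rw [← ZMod.intCast_zmod_eq_zero_iff_dvd] at h10 ⊢
    rw [Int.cast_sub, Int.cast_mul, legendreSym.eq_pow, show p / 2 = n by omega, ← h10,
      show p - 1 = 2 * n by omega, pow_mul]
    push_cast
    rw [← mul_pow]; norm_num
  have hLg' : (p : A) ∣ (legendreSym p (-5) : A) * (-20) ^ n - 1 := by
    simpa using map_dvd (Int.castRingHom A) hLg
  have hg2 : ((-20 : A) ^ n) ^ 2 = c' ^ 4 := by
    rw [h4, show p - 1 = 2 * n by omega, ← pow_mul, mul_comm n, pow_mul, pow_mul]; norm_num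
  have hcg : c ^ n * (-20) ^ n = 1 := by rw [← mul_pow, mul_comm, hc, one_pow]
  have hu : IsUnit (c' ^ 2 + (legendreSym p (-5) : A) * (-20) ^ n) := by
    refine unit_of_dvd hp3 (IsUnit.of_mul_eq_one e he) ?_
    refine (dvd_add (h1.mul_right (c' + 1)) hLg').trans (dvd_of_eq ?_)
    ring
  have : c' ^ 2 = (legendreSym p (-5) : A) * (-20) ^ n := by
    apply hu.mul_left_cancel
    linear_combination -hg2 - ((-20 : A) ^ n) ^ 2 * hL
  rw [this]
  linear_combination (legendreSym p (-5) : A) * hcg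

theorem mainA (h11 : 11 ≤ p) (φ : ℤ_[p] →+* A) (hp3 : (p : A) ^ 3 = 0) {b0 b1 b2 : ℕ → ℤ_[p]}
    (hb : ∀ a < p, ∃ g : Polynomial ℤ_[p], Num a Polynomial.X = Den a Polynomial.X *
      (Polynomial.C (b0 a) + Polynomial.C (b1 a) * Polynomial.X +
        Polynomial.C (b2 a) * Polynomial.X ^ 2) + Polynomial.X ^ 3 * g)
    {s : A} (hs : 6635520 * s = -1) :
    ∑ a ∈ range p, (644 * a + 41) * φ (b0 a) * s ^ a = 41 * p * (legendreSym p (-5) : A) := by
  have h30 : IsUnit (30 : ℤ_[p]) := by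
    refine isUnit_nat (n := 30) fun h => ?_
    have h1 : p ∣ 6 * 5 := h
    rcases (Nat.Prime.dvd_mul hp.out).1 h1 with h2 | h2 <;>
    · have := Nat.le_of_dvd (by omega) h2; omega
  have h30A : IsUnit (30 : A) := by simpa only [map_ofNat] using h30.map φ
  obtain ⟨h2, h3, h5⟩ := unit_of_30 h30A
  obtain ⟨e, he⟩ := h2.exists_right_inv
  obtain ⟨c, hc⟩ : ∃ c : A, -20 * c = 1 := by
    have := ((h2.pow 2).mul h5).neg.exists_right_inv
    rwa [show -((2 : A) ^ 2 * 5) = -20 by norm_num] at this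
  have hodd : Odd p := hp.out.odd_of_ne_two (by omega)
  obtain ⟨n, hn⟩ := hodd
  obtain ⟨c', h4, h1, hL⟩ := exists_root hp3 hn (by omega) he hc
  obtain ⟨w, hw⟩ := exists_u0 (A := ℤ_[p])
  obtain ⟨u, ψ, hI⟩ := exists_inf h30
  have hw' : PowerSeries.map φ w = PowerSeries.X * pD (PowerSeries.map φ w) := by
    have := congrArg (PowerSeries.map φ) hw
    rwa [map_mul, PowerSeries.map_X, map_pD] at this
  have key := (hI.map φ).cusp h30A hn he hs ((hI.map φ).star h30A hp3 ⟨n, hn⟩ (frob_map φ u) hc h4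
    h1 hw' (phi_zero h11 φ hp3 hb hw))
  obtain ⟨g, hg⟩ := hb n (by omega)
  have hg' := congrArg (Polynomial.eval₂RingHom φ (-(p * e))) hg
  rw [map_Num, map_add, map_mul, map_Den] at hg'
  simp only [Polynomial.coe_eval₂RingHom, Polynomial.eval₂_add, Polynomial.eval₂_mul,
    Polynomial.eval₂_X, Polynomial.eval₂_C, Polynomial.eval₂_pow] at hg'
  have hμ := mu_eq φ hp3 hn (by omega) he (μ := φ (b0 n) - p * e * φ (b1 n) + (p * e) ^ 2 * φ (b2 n))
    (by linear_combination hg' - e ^ 3 * Polynomial.eval₂ φ (-(p * e)) g * hp3)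
  rw [key, hμ, hL]; ring

theorem mainZ (h11 : 11 ≤ p) : ∃ (b : ℕ → ℤ_[p]) (s x : ℤ_[p]),
    (∀ a < p, b a * (a.factorial : ℤ_[p]) ^ 4 = ((4 * a).factorial : ℤ_[p])) ∧ 6635520 * s = -1 ∧
    ∑ a ∈ range p, (644 * a + 41) * b a * s ^ a - 41 * p * (legendreSym p (-5) : ℤ_[p]) =
      (p : ℤ_[p]) ^ 3 * x := by
  have hD0 : ∀ a, (Den a (Polynomial.X : Polynomial ℤ_[p])).coeff 0 = (a.factorial : ℤ_[p]) ^ 4 := by
    intro a
    rw [Polynomial.coeff_zero_eq_eval_zero, ← Polynomial.coe_evalRingHom, map_Den]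
    simp [Den, ← prod_range_add_one_eq_factorial]
  have hN0 : ∀ a, (Num a (Polynomial.X : Polynomial ℤ_[p])).coeff 0 =
      ((4 * a).factorial : ℤ_[p]) := by
    intro a
    rw [Polynomial.coeff_zero_eq_eval_zero, ← Polynomial.coe_evalRingHom, map_Num]
    simp [Num, ← prod_range_add_one_eq_factorial]
  have : ∀ a, ∃ b0 b1 b2 : ℤ_[p], a < p → ∃ g : Polynomial ℤ_[p],
      Num a Polynomial.X = Den a Polynomial.X * (Polynomial.C b0 + Polynomial.C b1 * Polynomial.X +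
        Polynomial.C b2 * Polynomial.X ^ 2) + Polynomial.X ^ 3 * g := by
    intro a
    by_cases ha : a < p
    · obtain ⟨b0, b1, b2, g, hg⟩ := div3 (Num a Polynomial.X) (Den a (Polynomial.X : Polynomial ℤ_[p]))
        (by
          rw [hD0]
          exact (isUnit_nat fun h => absurd (hp.out.dvd_factorial.1 h) (by omega)).pow 4)
      exact ⟨b0, b1, b2, fun _ => ⟨g, hg⟩⟩
    · exact ⟨0, 0, 0, fun h => absurd h ha⟩
  choose b0 b1 b2 hb using this
  obtain ⟨s, hs⟩ : ∃ s : ℤ_[p], 6635520 * s = -1 := by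
    have hu : IsUnit ((6635520 : ℕ) : ℤ_[p]) := by
      refine isUnit_nat fun h => ?_
      have h1 : p ∣ 6 ^ 14 * 5 := h.trans (by norm_num)
      rcases (Nat.Prime.dvd_mul hp.out).1 h1 with h2 | h2
      · have := Nat.le_of_dvd (by omega) (hp.out.dvd_of_dvd_pow h2); omega
      · have := Nat.le_of_dvd (by omega) h2; omega
    obtain ⟨t, ht⟩ := hu.exists_right_inv
    exact ⟨-t, by push_cast at ht; linear_combination -ht⟩
  set I : Ideal ℤ_[p] := Ideal.span {(p : ℤ_[p]) ^ 3}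
  have hp3 : (p : ℤ_[p] ⧸ I) ^ 3 = 0 := by
    rw [← map_natCast (Ideal.Quotient.mk I), ← map_pow, Ideal.Quotient.eq_zero_iff_mem]
    exact Ideal.mem_span_singleton_self _
  have key := mainA h11 (Ideal.Quotient.mk I) hp3 hb (s := Ideal.Quotient.mk I s)
    (by simpa only [map_mul, map_ofNat, map_neg, map_one] using congrArg (Ideal.Quotient.mk I) hs)
  have h2 : Ideal.Quotient.mk I (∑ a ∈ range p, (644 * a + 41) * b0 a * s ^ a -
      41 * p * (legendreSym p (-5) : ℤ_[p])) = 0 := by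
    simp only [map_sub, map_sum, map_mul, map_add, map_pow, map_ofNat, map_natCast, map_intCast]
    rw [key, sub_self]
  rw [Ideal.Quotient.eq_zero_iff_mem, Ideal.mem_span_singleton] at h2
  obtain ⟨x, hx⟩ := h2
  refine ⟨b0, s, x, fun a ha => ?_, hs, hx⟩
  obtain ⟨g, hg⟩ := hb a ha
  have := congrArg (fun q => Polynomial.coeff q 0) hg
  simp only [hN0, Polynomial.coeff_add, Polynomial.mul_coeff_zero, hD0] at this
  simp at this
  rw [this, mul_comm]

theorem mainQ (h5 : 5 < p) : ∃ c : ℚ, Nat.Coprime c.den p ∧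
    ∑ k ∈ range p, (644 * (k : ℚ) + 41) * (((4 * k).factorial : ℚ) / (k.factorial : ℚ) ^ 4) *
      (-(2 ^ 14 * 3 ^ 4 * 5 : ℚ)) ^ (-(k : ℤ)) - 41 * p * (legendreSym p (-5) : ℚ) =
      (p : ℚ) ^ 3 * c := by
  have hp0 : (p : ℚ) ≠ 0 := by exact_mod_cast hp.out.ne_zero
  refine ⟨(∑ k ∈ range p, (644 * (k : ℚ) + 41) * (((4 * k).factorial : ℚ) / (k.factorial : ℚ) ^ 4) *
      (-(2 ^ 14 * 3 ^ 4 * 5 : ℚ)) ^ (-(k : ℤ)) - 41 * p * (legendreSym p (-5) : ℚ)) / (p : ℚ) ^ 3,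
    ?_, by field_simp⟩
  by_cases h11 : 11 ≤ p
  · obtain ⟨b, s, x, hb, hs, hx⟩ := mainZ h11
    rw [Nat.coprime_comm, hp.out.coprime_iff_not_dvd, ← Rat.padicValuation_le_one_iff,
      ← Padic.norm_rat_le_one_iff_padicValuation_le_one]
    convert x.2 using 2
    have hp1 : (p : ℚ_[p]) ≠ 0 := by exact_mod_cast hp.out.ne_zero
    have hx' := congrArg (PadicInt.Coe.ringHom (p := p)) hx
    have hs' := congrArg (PadicInt.Coe.ringHom (p := p)) hs
    simp only [map_sub, map_sum, map_mul, map_add, map_pow, map_ofNat, map_natCast, map_intCast,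
      map_neg, map_one] at hx' hs'
    push_cast
    rw [div_eq_iff (pow_ne_zero 3 hp1), mul_comm _ ((p : ℚ_[p]) ^ 3)]
    refine Eq.trans ?_ hx'
    congr 1
    refine sum_congr rfl fun a ha => ?_
    have hb' := congrArg (PadicInt.Coe.ringHom (p := p)) (hb a (mem_range.1 ha))
    simp only [map_mul, map_pow, map_natCast] at hb'
    have hf : (a.factorial : ℚ_[p]) ≠ 0 := by exact_mod_cast a.factorial_ne_zero
    congr 1
    · congr 1
      rw [← hb']; field_simp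
    · rw [zpow_neg, zpow_natCast, ← inv_pow]
      congr 1
      exact (eq_inv_of_mul_eq_one_right (by linear_combination -hs')).symm
  · have h7 : p = 7 := by
      have := hp.out
      interval_cases p <;> first | rfl | exact absurd this (by norm_num)
    subst h7
    have hL : legendreSym 7 (-5) = 1 := by norm_num
    rw [hL]
    decide +kernel

end Pool.Agent.Lib.MP_bdc5f5_nt
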