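import Mathlib

/-!
Products of integers prime to `p`, a Jacobsthal type congruence, and finite differences.
-/

namespace Pool.Agent.Lib.MP_bdc5f5_nt

open Finset Polynomial

section G
variable {B B' : Type*} [CommRing B] [CommRing B']

/-- product of `z + i` over `i < n` not divisible by `p` -/
def G (p n : ℕ) (z : B) : B := ∏ i ∈ (range n).filter (fun i => ¬ p ∣ i), (z + (i : B))

theorem map_G {F : Type*} [FunLike F B B'] [RingHomClass F B B'] (f : F) (p n : ℕ) (z : B) :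
    f (G p n z) = G p n (f z) := by
  simp [G, map_prod]

theorem G_add {p n₁ : ℕ} (h : p ∣ n₁) (n₂ : ℕ) (z : B) :
    G p (n₁ + n₂) z = G p n₁ z * G p n₂ (z + n₁) := by
  simp only [G, prod_filter]
  rw [prod_range_add]
  congr 1
  refine prod_congr rfl fun i _ => ?_
  simp only [Nat.dvd_add_right h, Nat.cast_add, add_assoc]

theorem G_zero (p : ℕ) (z : B) : G p 0 z = 1 := by simp [G]

theorem G_p (p : ℕ) (z : B) : G (p + 1) (p + 1) z = ∏ i ∈ range p, (z + ((i + 1 : ℕ) : B)) := by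
  simp only [G, prod_filter]
  rw [prod_range_succ']
  simp only [dvd_zero, not_true_eq_false, if_false, mul_one]
  refine prod_congr rfl fun i hi => ?_
  rw [if_pos]
  intro h
  have := Nat.le_of_dvd (by omega) h
  have := mem_range.1 hi
  omega

theorem rising_eq {p : ℕ} (hp : p ≠ 0) (M : ℕ) (y : B) :
    ∏ i ∈ range (p * M), ((p : B) * y + ((i + 1 : ℕ) : B)) =
      (p : B) ^ M * (∏ l ∈ range M, (y + ((l + 1 : ℕ) : B))) * G p (p * M) (p * y) := by
  obtain ⟨p, rfl⟩ := Nat.exists_eq_succ_of_ne_zero hp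
  induction M with
  | zero => simp [G_zero]
  | succ M ih =>
    rw [Nat.mul_succ, prod_range_add, ih, G_add (dvd_mul_right _ _), G_p, prod_range_succ,
      prod_range_succ (fun l => y + ((l + 1 : ℕ) : B))]
    have : ∏ x ∈ range p, (((p + 1 : ℕ) : B) * y + (((p + 1) * M + x + 1 : ℕ) : B)) =
        ∏ i ∈ range p, (((p + 1 : ℕ) : B) * y + (((p + 1) * M : ℕ) : B) + ((i + 1 : ℕ) : B)) := by
      refine prod_congr rfl fun i _ => ?_
      push_cast; ring
    simp only [Nat.succ_eq_add_one] at *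
    rw [this]
    push_cast; ring

theorem taylor3 (f : B[X]) : ∃ g : B[X],
    f = C (f.coeff 0) + C (f.coeff 1) * X + C (f.coeff 2) * X ^ 2 + X ^ 3 * g := by
  have : X ^ 3 ∣ f - (C (f.coeff 0) + C (f.coeff 1) * X + C (f.coeff 2) * X ^ 2) := by
    rw [X_pow_dvd_iff]
    intro d hd
    interval_cases d <;> simp [coeff_X, coeff_C, coeff_X_pow]
  obtain ⟨g, hg⟩ := this
  exact ⟨g, by rw [← hg]; ring⟩

end G

section Jac
variable {p : ℕ}

theorem filter_eq_coprime (hp : p.Prime) (K : ℕ) :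
    (range (p ^ (K + 1))).filter (fun i => ¬ p ∣ i) =
      (range (p ^ (K + 1))).filter (fun i => (p ^ (K + 1)).Coprime i) := by
  refine filter_congr fun i _ => ?_
  rw [Nat.coprime_pow_left_iff (by omega), hp.coprime_iff_not_dvd]

theorem G_neg (hp : p.Prime) (h2 : 2 < p) (K : ℕ) :
    G p (p ^ (K + 1)) (-((p ^ (K + 1) : ℕ) : ℤ)) = G p (p ^ (K + 1)) 0 := by
  have hq : 2 < p ^ (K + 1) := lt_of_lt_of_le h2 (Nat.le_self_pow (by omega) p)
  have hev : Even ((range (p ^ (K + 1))).filter (fun i => ¬ p ∣ i)).card := by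
    rw [filter_eq_coprime hp, ← Nat.totient_eq_card_coprime]
    exact Nat.totient_even hq
  have hpq : p ∣ p ^ (K + 1) := dvd_pow_self p (by omega)
  unfold G
  have h1 : ∏ i ∈ (range (p ^ (K + 1))).filter (fun i => ¬ p ∣ i), ((0 : ℤ) + (i : ℤ)) =
      ∏ i ∈ (range (p ^ (K + 1))).filter (fun i => ¬ p ∣ i), (-1) * ((0 : ℤ) + (i : ℤ)) := by
    rw [prod_mul_distrib, prod_const, hev.neg_one_pow, one_mul]
  rw [h1]
  refine prod_bij' (fun i _ => p ^ (K + 1) - i) (fun i _ => p ^ (K + 1) - i) ?_ ?_ ?_ ?_ ?_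
  all_goals
    intro i hi
    simp only [mem_filter, mem_range] at hi ⊢
    have hi0 : i ≠ 0 := by rintro rfl; exact hi.2 (dvd_zero _)
  · refine ⟨by omega, fun h => hi.2 ?_⟩
    have := Nat.dvd_sub hpq h
    rwa [Nat.sub_sub_self hi.1.le] at this
  · refine ⟨by omega, fun h => hi.2 ?_⟩
    have := Nat.dvd_sub hpq h
    rwa [Nat.sub_sub_self hi.1.le] at this
  · omega
  · omega
  · rw [Nat.cast_sub hi.1.le]; ring

theorem G_double (hp : p.Prime) (h2 : 2 < p) (K : ℕ) {B : Type*} [CommRing B]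
    (hB : ((p ^ (K + 1) : ℕ) : B) = 0) (z : B) :
    G p (p ^ (K + 1)) (2 * z) =
      2 ^ ((range (p ^ (K + 1))).filter (fun i => ¬ p ∣ i)).card * G p (p ^ (K + 1)) z := by
  set q := p ^ (K + 1) with hq
  set T := (range q).filter (fun i => ¬ p ∣ i) with hT
  have hpq : p ∣ q := dvd_pow_self p (by omega)
  have hq0 : 0 < q := pow_pos hp.pos _
  have hp2 : ¬ p ∣ 2 := fun h => by have := Nat.le_of_dvd (by omega) h; omega
  have hco : Nat.gcd q 2 = 1 := by
    rw [hq]; exact Nat.Coprime.pow_left _ ((hp.coprime_iff_not_dvd).2 hp2)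
  have hinj : Set.InjOn (fun i => 2 * i % q) T := by
    intro i hi j hj hij
    simp only [hT, coe_filter, mem_range, Set.mem_ofPred_eq] at hi hj
    have : i ≡ j [MOD q] := Nat.ModEq.cancel_left_of_coprime hco hij
    exact Nat.ModEq.eq_of_lt_of_lt this hi.1 hj.1
  have hsub : T.image (fun i => 2 * i % q) ⊆ T := by
    intro x hx
    obtain ⟨i, hi, rfl⟩ := mem_image.1 hx
    simp only [hT, mem_filter, mem_range] at hi ⊢
    refine ⟨Nat.mod_lt _ hq0, fun h => ?_⟩
    rw [Nat.dvd_mod_iff hpq] at h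
    rcases (hp.dvd_mul).1 h with h | h
    · exact hp2 h
    · exact hi.2 h
  have himg : T.image (fun i => 2 * i % q) = T :=
    eq_of_subset_of_card_le hsub (by rw [card_image_of_injOn hinj])
  unfold G
  rw [← hT]
  conv_lhs => rw [← himg, prod_image hinj]
  rw [← prod_const, ← prod_mul_distrib]
  refine prod_congr rfl fun i _ => ?_
  have : ((2 * i % q : ℕ) : B) = 2 * i := by
    have h := Nat.mod_add_div (2 * i) q
    have h' := congrArg (Nat.cast : ℕ → B) h
    push_cast at h'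
    rw [hB] at h'
    simpa using h'
  rw [this]; ring

theorem coeff_two_dvd (hp : p.Prime) (h3 : 3 < p) (K : ℕ) :
    ((p ^ (K + 1) : ℕ) : ℤ) ∣ (G p (p ^ (K + 1)) (X : ℤ[X])).coeff 2 := by
  set q := p ^ (K + 1) with hq
  rw [← ZMod.intCast_zmod_eq_zero_iff_dvd]
  set Φ : (ZMod q)[X] := G p q X with hΦ
  have hmap : (G p q (X : ℤ[X])).map (Int.castRingHom (ZMod q)) = Φ := by
    have := map_G (mapRingHom (Int.castRingHom (ZMod q))) p q (X : ℤ[X])
    simpa using this
  have hc : (((G p q (X : ℤ[X])).coeff 2 : ℤ) : ZMod q) = Φ.coeff 2 := by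
    rw [← hmap, coeff_map]; rfl
  rw [hc]
  have hB : ((p ^ (K + 1) : ℕ) : (ZMod q)[X]) = 0 := by
    rw [← hq, ← C_eq_natCast, ZMod.natCast_self, map_zero]
  have hd := G_double hp (by omega) K hB (X : (ZMod q)[X])
  rw [← hq, ← hΦ] at hd
  set c := ((range q).filter (fun i => ¬ p ∣ i)).card
  have hcomp : Φ.comp (C 2 * X) = C (2 ^ c) * Φ := by
    have := map_G (compRingHom (C 2 * X : (ZMod q)[X])) p q (X : (ZMod q)[X])
    simp only [coe_compRingHom_apply, X_comp] at this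
    rw [hΦ, this, ← hΦ, map_pow]
    exact hd
  have h0 := congrArg (fun f => f.coeff 0) hcomp
  have h2 := congrArg (fun f => f.coeff 2) hcomp
  simp only [comp_C_mul_X_coeff, coeff_C_mul] at h0 h2
  have hu : IsUnit (Φ.coeff 0) := by
    rw [coeff_zero_eq_eval_zero, hΦ]
    have := map_G (evalRingHom (0 : ZMod q)) p q (X : (ZMod q)[X])
    simp only [coe_evalRingHom, eval_X] at this
    rw [this]
    unfold G
    refine IsUnit.prod_iff.2 fun i hi => ?_
    rw [zero_add, ZMod.isUnit_iff_coprime]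
    rw [hq, filter_eq_coprime hp] at hi
    exact (mem_filter.1 hi).2.symm
  have h1 : (2 : ZMod q) ^ c = 1 := by
    apply hu.mul_right_cancel
    rw [← h0]; ring
  have h3u : IsUnit ((3 : ℕ) : ZMod q) := by
    rw [ZMod.isUnit_iff_coprime, hq]
    apply Nat.Coprime.pow_right
    apply Nat.Coprime.symm
    rw [hp.coprime_iff_not_dvd]
    intro h; have := Nat.le_of_dvd (by omega) h; omega
  apply h3u.mul_left_cancel
  rw [h1] at h2
  push_cast
  linear_combination h2

/-- Jacobsthal type congruence -/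
theorem G_shift (hp : p.Prime) (h3 : 3 < p) (K : ℕ) (r : ℤ) :
    ((p ^ (K + 1) : ℕ) : ℤ) ^ 3 ∣
      G p (p ^ (K + 1)) (r * ((p ^ (K + 1) : ℕ) : ℤ)) - G p (p ^ (K + 1)) 0 := by
  have hn := G_neg hp (by omega) K
  obtain ⟨ψ, hψ⟩ := coeff_two_dvd hp h3 K
  set q := p ^ (K + 1) with hq
  obtain ⟨g, hg⟩ := taylor3 (G p q (X : ℤ[X]))
  have hev : ∀ z : ℤ, G p q z = (G p q (X : ℤ[X])).coeff 0 + (G p q (X : ℤ[X])).coeff 1 * z +
      (G p q (X : ℤ[X])).coeff 2 * z ^ 2 + z ^ 3 * g.eval z := by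
    intro z
    have := map_G (evalRingHom z) p q (X : ℤ[X])
    simp only [coe_evalRingHom, eval_X] at this
    rw [← this]
    conv_lhs => rw [hg]
    simp
  rw [hev, hev 0] at hn
  rw [hev, hev 0]
  rw [hψ] at hn ⊢
  refine ⟨ψ * (r + r ^ 2) + r ^ 3 * g.eval (r * q) - r * g.eval (-(q : ℤ)), ?_⟩
  linear_combination (-r) * hn

theorem G_mul_cong (hp : p.Prime) (h3 : 3 < p) (K e : ℕ) :
    ((p ^ (K + 1) : ℕ) : ℤ) ^ 3 ∣ G p (p ^ (K + 1) * e) (0 : ℤ) - G p (p ^ (K + 1)) 0 ^ e := by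
  induction e with
  | zero => simp [G_zero]
  | succ e ih =>
    have hs := G_shift hp h3 K e
    rw [Nat.mul_succ, G_add (Dvd.dvd.mul_right (dvd_pow_self p (by omega)) e)]
    have : (0 : ℤ) + ((p ^ (K + 1) * e : ℕ) : ℤ) = e * ((p ^ (K + 1) : ℕ) : ℤ) := by
      push_cast; ring
    rw [this]
    have := dvd_add (hs.mul_left (G p (p ^ (K + 1) * e) (0 : ℤ)))
      (ih.mul_right (G p (p ^ (K + 1)) 0))
    refine Dvd.dvd.trans this (dvd_of_eq ?_)
    ring

end Jac

end Pool.Agent.Lib.MP_bdc5f5_nt
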