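import Pool.Agent.Lib.MP_bdc5f5_nt.Diff

/-!
Hermite type interpolation of the ratios of hypergeometric coefficients deformed by a nilpotent
parameter.
-/

namespace Pool.Agent.Lib.MP_bdc5f5_nt

open Finset Polynomial

section Defs
variable {B B' : Type*} [CommRing B] [CommRing B']

/-- numerator of the deformed coefficient -/
def Num (k : ℕ) (y : B) : B := ∏ i ∈ range (4 * k), (4 * y + ((i + 1 : ℕ) : B))

/-- denominator of the deformed coefficient -/
def Den (k : ℕ) (y : B) : B := (∏ i ∈ range k, (y + ((i + 1 : ℕ) : B))) ^ 4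

/-- deformed hypergeometric coefficient -/
noncomputable def aa (k : ℕ) (y : B) : B := Num k y * Ring.inverse (Den k y)

theorem map_Num {F : Type*} [FunLike F B B'] [RingHomClass F B B'] (f : F) (k : ℕ) (z : B) :
    f (Num k z) = Num k (f z) := by
  simp [Num, map_prod, map_ofNat]

theorem map_Den {F : Type*} [FunLike F B B'] [RingHomClass F B B'] (f : F) (k : ℕ) (z : B) :
    f (Den k z) = Den k (f z) := by
  simp [Den, map_prod]

theorem Num_add (a k : ℕ) (y : B) : Num (k + a) y = Num k y * Num a (y + k) := by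
  rw [Num, mul_add, prod_range_add, Num, Num]
  congr 1
  refine prod_congr rfl fun i _ => ?_
  push_cast; ring

theorem Den_add (a k : ℕ) (y : B) : Den (k + a) y = Den k y * Den a (y + k) := by
  rw [Den, prod_range_add, Den, Den, mul_pow]
  congr 2
  refine prod_congr rfl fun i _ => ?_
  push_cast; ring

theorem Num_mul {p : ℕ} (hp : p ≠ 0) (m : ℕ) (y : B) :
    Num (p * m) (p * y) = (p : B) ^ (4 * m) * Num m y * G p (p * (4 * m)) (4 * (p * y)) := by
  have := rising_eq hp (4 * m) (4 * y)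
  have e : (p : B) * (4 * y) = 4 * (p * y) := by ring
  rw [e] at this
  rw [Num, Num, ← this]
  congr 2; ring

theorem Den_mul {p : ℕ} (hp : p ≠ 0) (m : ℕ) (y : B) :
    Den (p * m) (p * y) = (p : B) ^ (4 * m) * Den m y * G p (p * m) (p * y) ^ 4 := by
  rw [Den, Den, rising_eq hp]; ring

theorem div3 (f d : B[X]) (hd : IsUnit (d.coeff 0)) : ∃ (b0 b1 b2 : B) (g : B[X]),
    f = d * (C b0 + C b1 * X + C b2 * X ^ 2) + X ^ 3 * g := by
  obtain ⟨gf, hf⟩ := taylor3 f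
  obtain ⟨gd, hgd⟩ := taylor3 d
  obtain ⟨v, hv⟩ := hd.exists_right_inv
  generalize f.coeff 0 = f0 at *
  generalize f.coeff 1 = f1 at *
  generalize f.coeff 2 = f2 at *
  generalize d.coeff 0 = d0 at *
  generalize d.coeff 1 = d1 at *
  generalize d.coeff 2 = d2 at *
  set b0 := f0 * v with h0
  set b1 := (f1 - d1 * b0) * v with h1
  set b2 := (f2 - d1 * b1 - d2 * b0) * v with h2
  refine ⟨b0, b1, b2, gf - (C d2 * C b1 + C d1 * C b2 + C d2 * C b2 * X +
    gd * (C b0 + C b1 * X + C b2 * X ^ 2)), ?_⟩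
  have e0 : C d0 * C b0 = C f0 := by
    rw [← map_mul]; congr 1; linear_combination d0 * h0 + f0 * hv
  have e1 : C d0 * C b1 = C f1 - C d1 * C b0 := by
    rw [← map_mul, ← map_mul, ← map_sub]; congr 1
    linear_combination d0 * h1 + (f1 - d1 * b0) * hv
  have e2 : C d0 * C b2 = C f2 - C d1 * C b1 - C d2 * C b0 := by
    rw [← map_mul, ← map_mul, ← map_mul, ← map_sub, ← map_sub]; congr 1
    linear_combination d0 * h2 + (f2 - d1 * b1 - d2 * b0) * hv
  rw [hgd]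
  linear_combination hf - e0 - X * e1 - X ^ 2 * e2

end Defs

variable {p : ℕ} [hp : Fact p.Prime] {R : Type*} [CommRing R] [Algebra ℤ_[p] R]

theorem cube_inv {lam : R} (h : lam ^ 3 = 0) (f : ℤ_[p][X]) :
    ∃ f' : ℤ_[p][X], aeval lam f * aeval lam f' = algebraMap ℤ_[p] R (f.coeff 0 ^ 3) := by
  refine ⟨C (f.coeff 0) ^ 2 - C (f.coeff 0) * (X * f.divX) + (X * f.divX) ^ 2, ?_⟩
  have := congrArg (aeval lam) (X_mul_divX_add f)
  simp only [map_add, map_mul, aeval_X, aeval_C, map_sub, map_pow] at this ⊢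
  rw [← this]
  linear_combination (aeval lam f.divX) ^ 3 * h

theorem interp_inv {lam : R} (h : lam ^ 3 = 0) (n : ℕ) {i : ℕ} (hi : ¬ p ∣ i) :
    ∃ P : ℤ_[p][X], ∀ m ≤ n, ((p : R) * ((m : R) + lam) + i) * aeval ((m : R) + lam) P = 1 := by
  set W : ℤ_[p][X] := ∏ j ∈ range (n + 1), (X - C ((i : ℤ_[p]) + p * j)) ^ 3 with hW
  have hu : IsUnit (W.coeff 0) := by
    rw [coeff_zero_eq_eval_zero, hW, eval_prod]
    refine IsUnit.prod_iff.2 fun j _ => ?_
    rw [eval_pow]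
    refine IsUnit.pow _ ?_
    simp only [eval_sub, eval_X, eval_C, zero_sub]
    exact (isUnit_of_dvd_sub (isUnit_nat hi) (by simp)).neg
  obtain ⟨v, hv⟩ := hu.exists_right_inv
  refine ⟨C (-v) * W.divX.comp (C (p : ℤ_[p]) * X + C (i : ℤ_[p])), fun m hm => ?_⟩
  set y := (p : R) * ((m : R) + lam) + i with hy
  have h0 : aeval y W = 0 := by
    rw [hW, map_prod]
    refine prod_eq_zero (mem_range.2 (Nat.lt_succ_of_le hm)) ?_
    simp only [map_pow, map_sub, aeval_X, map_add, map_mul, map_natCast, hy]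
    linear_combination (p : R) ^ 3 * h
  have h1 := congrArg (aeval y) (X_mul_divX_add W)
  have h2 := congrArg (algebraMap ℤ_[p] R) hv
  simp only [map_add, map_mul, aeval_X, aeval_C, map_one] at h1 h2
  rw [h0] at h1
  simp only [map_mul, aeval_C, aeval_comp, map_add, aeval_X, map_natCast, map_neg, ← hy]
  linear_combination (-algebraMap ℤ_[p] R v) * h1 + h2

theorem interp_inv_Den {lam : R} (h : lam ^ 3 = 0) (n : ℕ) {a : ℕ} (ha : a < p) :
    ∃ P : ℤ_[p][X], ∀ m ≤ n, Den a ((p : R) * ((m : R) + lam)) * aeval ((m : R) + lam) P = 1 := by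
  have : ∀ a < p, ∃ P : ℤ_[p][X], ∀ m ≤ n, (∏ i ∈ range a, ((p : R) * ((m : R) + lam) +
      ((i + 1 : ℕ) : R))) * aeval ((m : R) + lam) P = 1 := by
    intro a ha
    induction a with
    | zero => exact ⟨1, by simp⟩
    | succ a ih =>
      obtain ⟨P, hP⟩ := ih (by omega)
      obtain ⟨Q, hQ⟩ := interp_inv (p := p) h n (i := a + 1)
        (fun hd => by have := Nat.le_of_dvd (by omega) hd; omega)
      refine ⟨P * Q, fun m hm => ?_⟩
      rw [prod_range_succ, map_mul, mul_mul_mul_comm, hP m hm, hQ m hm, one_mul]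
  obtain ⟨P, hP⟩ := this a ha
  exact ⟨P ^ 4, fun m hm => by rw [Den, map_pow, ← mul_pow, hP m hm, one_pow]⟩

theorem hermite {lam : R} (h : lam ^ 3 = 0) (n : ℕ) : ∃ K : ℕ, ∀ r : ℕ → ℤ_[p][X],
    ∃ P : ℤ_[p][X], ∀ m ≤ n, (p : R) ^ K * aeval lam (r m) = aeval ((m : R) + lam) P := by
  set H : ℕ → ℤ_[p][X] := fun m => ∏ j ∈ (range (n + 1)).erase m, (X - C (j : ℤ_[p])) ^ 3 with hH
  set h0 : ℕ → ℤ_[p] := fun m => ((H m).comp (X + C (m : ℤ_[p]))).coeff 0 ^ 3 with hh0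
  have hne : ∀ m, h0 m ≠ 0 := by
    intro m
    refine pow_ne_zero _ ?_
    rw [coeff_zero_eq_eval_zero, eval_comp, hH]
    simp only [eval_add, eval_X, eval_C, zero_add, eval_prod, eval_pow, eval_sub]
    refine prod_ne_zero_iff.2 fun j hj => pow_ne_zero _ ?_
    rw [sub_ne_zero]
    exact fun e => (mem_erase.1 hj).1 (Nat.cast_injective e).symm
  have hprod : ∏ m ∈ range (n + 1), h0 m ≠ 0 := prod_ne_zero_iff.2 fun m _ => hne m
  have hsp := PadicInt.unitCoeff_spec hprod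
  set K := (∏ m ∈ range (n + 1), h0 m).valuation
  have hdvd : ∀ m, ∃ e, m ≤ n → (p : ℤ_[p]) ^ K = h0 m * e := by
    intro m
    by_cases hm : m ≤ n
    · have : h0 m ∣ (p : ℤ_[p]) ^ K := by
        rw [← (PadicInt.unitCoeff hprod).isUnit.dvd_mul_left, ← hsp]
        exact dvd_prod_of_mem _ (mem_range.2 (by omega))
      obtain ⟨e, he⟩ := this
      exact ⟨e, fun _ => he⟩
    · exact ⟨0, fun h => absurd h hm⟩
  choose e he using hdvd
  choose f hf using fun m : ℕ => cube_inv h ((H m).comp (X + C (m : ℤ_[p])))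
  refine ⟨K, fun r => ⟨∑ m ∈ range (n + 1), H m * (f m * C (e m) * r m).comp (X - C (m : ℤ_[p])),
    fun m hm => ?_⟩⟩
  rw [map_sum, sum_eq_single m]
  · have h1 := hf m
    have h2 := congrArg (algebraMap ℤ_[p] R) (he m hm)
    simp only [aeval_comp, map_add, aeval_X, map_natCast, map_mul, map_pow, map_sub,
      add_sub_cancel_left, aeval_C, hh0] at h1 h2 ⊢
    rw [add_comm lam] at h1
    rw [h2, ← h1]; ring
  · intro j _ hj
    rw [map_mul, hH]
    simp only [map_prod]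
    rw [prod_eq_zero (i := m) (mem_erase.2 ⟨hj.symm, mem_range.2 (by omega)⟩), zero_mul]
    simpa using h
  · intro hm'; exact absurd (mem_range.2 (by omega)) hm'

theorem coeff_dvd_of_evals (h2 : 2 < p) (E : ℤ_[p][X]) (h : ℤ_[p]) (hh : h ≠ 0)
    (h0 : h ^ 3 ∣ E.eval 0) (h1 : h ^ 3 ∣ E.eval h) (h2' : h ^ 3 ∣ E.eval (h * 2)) :
    ∃ r g : ℤ_[p][X], E = C h * r + X ^ 3 * g := by
  obtain ⟨g, hg⟩ := taylor3 E
  generalize E.coeff 0 = e0 at *
  generalize E.coeff 1 = e1 at *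
  generalize E.coeff 2 = e2 at *
  rw [hg] at h0 h1 h2'
  simp only [eval_add, eval_C, eval_mul, eval_X, eval_pow] at h0 h1 h2'
  obtain ⟨a0, ha0⟩ := h0
  obtain ⟨a1, ha1⟩ := h1
  obtain ⟨a2, ha2⟩ := h2'
  have hu : IsUnit ((2 : ℕ) : ℤ_[p]) :=
    isUnit_nat (fun hd => by have := Nat.le_of_dvd (by omega) hd; omega)
  have k2 : h ∣ e2 := by
    rw [← hu.dvd_mul_right]
    refine ⟨a2 - 2 * a1 + a0 + 2 * g.eval h - 8 * g.eval (h * 2), ?_⟩
    apply mul_left_cancel₀ (pow_ne_zero 2 hh)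
    push_cast
    linear_combination ha2 - 2 * ha1 + ha0
  have k1 : h ∣ e1 := by
    refine ⟨h * (a1 - a0 - g.eval h) - e2, ?_⟩
    apply mul_left_cancel₀ hh
    linear_combination ha1 - ha0
  obtain ⟨c2, rfl⟩ := k2
  obtain ⟨c1, rfl⟩ := k1
  refine ⟨C (h ^ 2 * a0) + C c1 * X + C c2 * X ^ 2, g, ?_⟩
  have : e0 = h * (h ^ 2 * a0) := by linear_combination ha0
  rw [hg, this]
  simp only [map_mul]
  ring

theorem c_interp (h11 : 11 ≤ p) {lam : R} (h : lam ^ 3 = 0) (n : ℕ) :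
    ∃ P : ℤ_[p][X], ∀ m ≤ n, G p (p * (4 * m)) (4 * ((p : R) * lam)) =
      (1 + (p : R) ^ 3 * aeval ((m : R) + lam) P) * G p (p * m) ((p : R) * lam) ^ 4 := by
  obtain ⟨K0, hK⟩ := hermite (p := p) h n
  set K := K0 + 3 with hKdef
  obtain ⟨P, hP⟩ := cc_interp h11 (p ^ K * 2 + n)
  have hev : ∀ (N : ℕ) (z : ℤ_[p]) (f : ℤ_[p][X]), (G p N f).eval z = G p N (f.eval z) :=
    fun N z f => map_G (evalRingHom z) p N f
  have key : ∀ m, ∃ r : ℤ_[p][X], m ≤ n → G p (p * (4 * m)) (4 * ((p : R) * lam)) =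
      (1 + (p : R) ^ 3 * aeval ((m : R) + lam) P - (p : R) ^ K * aeval lam r) *
        G p (p * m) ((p : R) * lam) ^ 4 := by
    intro m
    by_cases hm : m ≤ n
    swap
    · exact ⟨0, fun h => absurd h hm⟩
    set D : ℤ_[p][X] := G p (p * m) ((p : ℤ_[p][X]) * X) ^ 4 with hD
    set E : ℤ_[p][X] := (1 + (p : ℤ_[p][X]) ^ 3 * P.comp (X + (m : ℤ_[p][X]))) * D -
      G p (p * (4 * m)) (4 * ((p : ℤ_[p][X]) * X)) with hE
    have hEe : ∀ e ≤ 2, ((p : ℤ_[p]) ^ K) ^ 3 ∣ E.eval ((p ^ K * e : ℕ) : ℤ_[p]) := by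
      intro e he
      have h1 := hP (p ^ K * e + m) (Nat.add_le_add (Nat.mul_le_mul_left _ he) hm)
      have h2 := cc_add (p := p) (p ^ K * e) m
      have h3 := cc_cong (p := p) (by omega) K e
      have h4 : E.eval ((p ^ K * e : ℕ) : ℤ_[p]) = (cc p (p ^ K * e) - 1) *
          G p (p * (4 * m)) (4 * ((p : ℤ_[p]) * ((p ^ K * e : ℕ) : ℤ_[p]))) := by
        simp only [hE, hD, eval_sub, eval_mul, eval_add, eval_one, eval_pow, eval_natCast,
          eval_comp, eval_X, hev, eval_ofNat]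
        rw [Nat.cast_add] at h1
        rw [← h1, h2]; ring
      rw [h4]
      exact Dvd.dvd.mul_right ((pow_dvd_pow_of_dvd (pow_dvd_pow _ (by omega)) 3).trans h3) _
    obtain ⟨r, g, hrg⟩ := coeff_dvd_of_evals (by omega) E ((p : ℤ_[p]) ^ K)
      (pow_ne_zero _ (by exact_mod_cast hp.out.ne_zero)) (by simpa using hEe 0 (by omega))
      (by simpa using hEe 1 (by omega)) (by simpa using hEe 2 (by omega))
    have hDu : IsUnit (D.coeff 0 ^ 3) := by
      rw [coeff_zero_eq_eval_zero, hD, eval_pow, hev]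
      exact ((isUnit_G _ (by simp)).pow 4).pow 3
    obtain ⟨v, hv⟩ := hDu.exists_right_inv
    obtain ⟨D', hD'⟩ := cube_inv h D
    refine ⟨r * D' * C v, fun _ => ?_⟩
    have e1 := congrArg (aeval lam) hrg
    have e2 := congrArg (algebraMap ℤ_[p] R) hv
    rw [map_mul, ← hD', map_one] at e2
    simp only [hE, hD, map_sub, map_mul, map_add, map_one, map_pow, map_natCast, aeval_comp,
      aeval_X, map_G, map_ofNat, aeval_C] at e1 e2 ⊢
    rw [add_comm lam] at e1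
    linear_combination (-1 : R) * e1 - aeval lam g * h + (p : R) ^ K * aeval lam r * e2
  choose r hr using key
  obtain ⟨Q, hQ⟩ := hK r
  refine ⟨P - Q, fun m hm => ?_⟩
  rw [hr m hm, map_sub, ← hQ m hm, hKdef]
  ring

variable [Algebra ℚ R]

omit [Algebra ℤ_[p] R] in
theorem isUnit_succ_add {lam : R} (h : lam ^ 3 = 0) (i : ℕ) : IsUnit (lam + ((i + 1 : ℕ) : R)) := by
  have hu : IsUnit ((i + 1 : ℕ) : R) := by
    have : IsUnit ((i + 1 : ℕ) : ℚ) := isUnit_iff_ne_zero.2 (by positivity)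
    simpa using this.map (algebraMap ℚ R)
  exact IsNilpotent.isUnit_add_right_of_commute ⟨3, h⟩ hu (Commute.all _ _)

omit [Algebra ℤ_[p] R] in
theorem isUnit_Den {lam : R} (h : lam ^ 3 = 0) (k : ℕ) : IsUnit (Den k lam) :=
  (IsUnit.prod_iff.2 fun i _ => isUnit_succ_add h i).pow 4

omit [Algebra ℤ_[p] R] in
theorem aa_mul {lam : R} (h : lam ^ 3 = 0) (k : ℕ) : aa k lam * Den k lam = Num k lam := by
  rw [aa, mul_assoc, Ring.inverse_mul_cancel _ (isUnit_Den h k), mul_one]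

/-- Frobenius relation between the deformed coefficients -/
theorem frob_coeff (h11 : 11 ≤ p) {lam : R} (h : lam ^ 3 = 0) (n : ℕ) {a : ℕ} (ha : a < p)
    {b0 b1 b2 : ℤ_[p]} {g : ℤ_[p][X]}
    (hb : Num a X = Den a X * (C b0 + C b1 * X + C b2 * X ^ 2) + X ^ 3 * g) :
    ∃ B' : ℤ_[p][X], ∀ m ≤ n, aa (p * m + a) ((p : R) * lam) =
      aeval ((m : R) + lam) (C b0 + C (p * b1) * X + C (p ^ 2 * b2) * X ^ 2 +
        C ((p : ℤ_[p]) ^ 3) * B') * aa m lam := by
  obtain ⟨P, hP⟩ := c_interp (p := p) h11 h n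
  obtain ⟨Q, hQ⟩ := interp_inv_Den (p := p) h n ha
  set β : ℤ_[p][X] := C b0 + C (p * b1) * X + C (p ^ 2 * b2) * X ^ 2 with hβ
  set T : ℤ_[p][X] := X ^ 3 * g.comp (C (p : ℤ_[p]) * X) * Q with hT
  refine ⟨T + P * (β + C ((p : ℤ_[p]) ^ 3) * T), fun m hm => ?_⟩
  have hpl : ((p : R) * lam) ^ 3 = 0 := by rw [mul_pow, h, mul_zero]
  apply (isUnit_Den hpl (p * m + a)).mul_right_cancel
  rw [aa_mul hpl, Num_add, Den_add, Num_mul hp.out.ne_zero, Den_mul hp.out.ne_zero, hP m hm,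
    ← aa_mul h m]
  have e : (p : R) * lam + ((p * m : ℕ) : R) = (p : R) * ((m : R) + lam) := by push_cast; ring
  rw [e]
  have h1 := congrArg (aeval ((p : R) * ((m : R) + lam))) hb
  have h2 := hQ m hm
  simp only [map_Num, map_Den, map_add, map_mul, aeval_X, aeval_C, map_pow, hβ, hT, aeval_comp,
    map_natCast] at h1 ⊢
  rw [h1]
  linear_combination (-(p : R) ^ (4 * m) * aa m lam * Den m lam * G p (p * m) (p * lam) ^ 4 *
    (1 + (p : R) ^ 3 * aeval ((m : R) + lam) P) * (p : R) ^ 3 * ((m : R) + lam) ^ 3 *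
    aeval ((p : R) * ((m : R) + lam)) g) * h2

end Pool.Agent.Lib.MP_bdc5f5_nt
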