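import Pool.Agent.Lib.MP_bdc5f5_nt.Star

/-!
The rational parametrisation of the degree five correspondence.
-/

namespace Pool.Agent.Lib.MP_bdc5f5_nt

open PowerSeries

section Defs
variable {B B' : Type*} [CommRing B] [CommRing B']

def pV (x : B) : B := 1 + 25 * x
def pW (x : B) : B := 1 + x
def pQ (x : B) : B := 1 + 6 * x + 25 * x ^ 2
def pC (x : B) : B := 1 - 75 * x - 625 * x ^ 2 - 3125 * x ^ 3
def pE (x : B) : B := 1 + 5 * x + 15 * x ^ 2 - 5 * x ^ 3
def pU (x : B) : B := x * pV x * pQ x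
def pD (x : B) : B := pV x ^ 4 * pQ x
def pN2 (x : B) : B := 1 + 61 * x - 1025 * x ^ 2 - 13125 * x ^ 3 - 100625 * x ^ 4 -
  428125 * x ^ 5 - 859375 * x ^ 6 + 1953125 * x ^ 7
def pN3 (x : B) : B := 1 + 332 * x + 13431 * x ^ 2 + 153200 * x ^ 3 + 3878125 * x ^ 4 +
  36362500 * x ^ 5 + 105216875 * x ^ 6 - 47900000 * x ^ 7 - 2278828125 * x ^ 8 -
  36929687500 * x ^ 9 - 368310546875 * x ^ 10 - 2207031250000 * x ^ 11 -
  6890869140625 * x ^ 12 - 10375976562500 * x ^ 13 + 3814697265625 * x ^ 14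
def pK1 (x : B) : B := 104 + 1680 * x + 23000 * x ^ 2 + 182240 * x ^ 3 + 575000 * x ^ 4 +
  1050000 * x ^ 5 + 1625000 * x ^ 6
def pK2 (x : B) : B := 104 + 25304 * x + 1003840 * x ^ 2 + 21528640 * x ^ 3 + 282744680 * x ^ 4 +
  2570127320 * x ^ 5 + 19471768000 * x ^ 6 + 116361800000 * x ^ 7 + 500719875000 * x ^ 8 +
  1445703125000 * x ^ 9 + 2392500000000 * x ^ 10 + 2056250000000 * x ^ 11 +
  1435546875000 * x ^ 12 + 3173828125000 * x ^ 13

section maps
variable {F : Type*} [FunLike F B B'] [RingHomClass F B B'] (f : F) (x : B)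
theorem map_pV : f (pV x) = pV (f x) := by simp [pV, map_ofNat]
theorem map_pW : f (pW x) = pW (f x) := by simp [pW]
theorem map_pQ : f (pQ x) = pQ (f x) := by simp [pQ, map_ofNat]
theorem map_pC : f (pC x) = pC (f x) := by simp [pC, map_ofNat]
theorem map_pE : f (pE x) = pE (f x) := by simp [pE, map_ofNat]
theorem map_pU : f (pU x) = pU (f x) := by simp [pU, map_pV, map_pQ]
theorem map_pD : f (pD x) = pD (f x) := by simp [pD, map_pV, map_pQ]
theorem map_pN2 : f (pN2 x) = pN2 (f x) := by simp [pN2, map_ofNat]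
theorem map_pN3 : f (pN3 x) = pN3 (f x) := by simp [pN3, map_ofNat]
theorem map_pK1 : f (pK1 x) = pK1 (f x) := by simp [pK1, map_ofNat]
theorem map_pK2 : f (pK2 x) = pK2 (f x) := by simp [pK2, map_ofNat]

theorem map_rinv {a : B} (h : IsUnit a) : f (Ring.inverse a) = Ring.inverse (f a) := by
  have h' : IsUnit (f a) := h.map f
  apply h'.mul_left_cancel
  rw [← map_mul, Ring.mul_inverse_cancel _ h, Ring.mul_inverse_cancel _ h', map_one]
end maps

noncomputable def mF (x : B) : B := pV x * Ring.inverse (pW x)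
noncomputable def m1F (x : B) : B := 24 * pU x * Ring.inverse (pW x) ^ 2 * Ring.inverse (pC x)
noncomputable def m2F (x : B) : B :=
  24 * pU x * pN2 x * Ring.inverse (pW x) ^ 3 * Ring.inverse (pC x) ^ 3
noncomputable def sF (x : B) : B := x ^ 5 * Ring.inverse (pW x) ^ 4 * Ring.inverse (pQ x)
noncomputable def tF (x : B) : B := x * Ring.inverse (pD x)

/-- the denominators are units -/
structure Ok (x : B) : Prop where
  hW : IsUnit (pW x)
  hQ : IsUnit (pQ x)
  hC : IsUnit (pC x)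

section maps2
variable {F : Type*} [FunLike F B B'] [RingHomClass F B B'] (f : F) {x : B}
theorem Ok.map (h : Ok x) : Ok (f x) :=
  ⟨map_pW f x ▸ h.hW.map f, map_pQ f x ▸ h.hQ.map f, map_pC f x ▸ h.hC.map f⟩
theorem map_mF (h : Ok x) : f (mF x) = mF (f x) := by
  simp [mF, map_rinv f h.hW, map_pV, map_pW]
theorem map_m1F (h : Ok x) : f (m1F x) = m1F (f x) := by
  simp [m1F, map_rinv f h.hW, map_rinv f h.hC, map_pU, map_pW, map_pC, map_ofNat]
theorem map_m2F (h : Ok x) : f (m2F x) = m2F (f x) := by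
  simp [m2F, map_rinv f h.hW, map_rinv f h.hC, map_pU, map_pW, map_pC, map_pN2, map_ofNat]
theorem map_sF (h : Ok x) : f (sF x) = sF (f x) := by
  simp [sF, map_rinv f h.hW, map_rinv f h.hQ, map_pQ, map_pW]
theorem map_tF (h : IsUnit (pD x)) : f (tF x) = tF (f x) := by
  simp [tF, map_rinv f h, map_pD]
end maps2

variable {x : B}
theorem Ok.e0 (h : Ok x) : mF x * pW x ^ 1 * pC x ^ 0 = pV x := by
  have := Ring.mul_inverse_cancel _ h.hW
  rw [mF]; linear_combination pV x * this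
theorem Ok.e1 (h : Ok x) : m1F x * pW x ^ 2 * pC x ^ 1 = 24 * pU x := by
  have hW := congrArg (· ^ 2) (Ring.mul_inverse_cancel _ h.hW)
  have hC := Ring.mul_inverse_cancel _ h.hC
  simp only [mul_pow, one_pow] at hW
  rw [m1F]
  linear_combination 24 * pU x * pC x * Ring.inverse (pC x) * hW + 24 * pU x * hC
theorem Ok.e2 (h : Ok x) : m2F x * pW x ^ 3 * pC x ^ 3 = 24 * pU x * pN2 x := by
  have hW := congrArg (· ^ 3) (Ring.mul_inverse_cancel _ h.hW)
  have hC := congrArg (· ^ 3) (Ring.mul_inverse_cancel _ h.hC)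
  simp only [mul_pow, one_pow] at hW hC
  rw [m2F]
  linear_combination 24 * pU x * pN2 x * pC x ^ 3 * Ring.inverse (pC x) ^ 3 * hW +
    24 * pU x * pN2 x * hC
theorem Ok.es (h : Ok x) : sF x * pW x ^ 4 * pQ x = x ^ 5 := by
  have hW := congrArg (· ^ 4) (Ring.mul_inverse_cancel _ h.hW)
  have hQ := Ring.mul_inverse_cancel _ h.hQ
  simp only [mul_pow, one_pow] at hW
  rw [sF]
  linear_combination x ^ 5 * pQ x * Ring.inverse (pQ x) * hW + x ^ 5 * hQ

end Defs

theorem alg_field {K : Type*} [Field K] {x t s m m1 m2 m3 l l1 l2 : K} (hV : pV x ≠ 0)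
    (hW : pW x ≠ 0) (hQ : pQ x ≠ 0) (hC : pC x ≠ 0) (ht : t * pD x = x)
    (hs : s * pW x ^ 4 * pQ x = x ^ 5) (h0 : m * pW x = pV x)
    (h1 : m1 * pW x ^ 2 * pC x = 24 * pU x) (h2 : m2 * pW x ^ 3 * pC x ^ 3 = 24 * pU x * pN2 x)
    (h3 : m3 * pW x ^ 4 * pC x ^ 5 = 24 * pU x * pN3 x) (k0 : l * pW x * pC x = 5 * pV x * pE x)
    (k1 : l1 * pW x ^ 2 * pC x ^ 3 = 5 * pU x * pK1 x)
    (k2 : l2 * pW x ^ 3 * pC x ^ 5 = 5 * pU x * pK2 x) :
    (1 - 256 * s) * ((1 - 256 * t) * m3 - t * (384 * m2 + 176 * m1 + 24 * m)) +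
      (1 - 256 * t) * m * l ^ 3 * (24 * s) = 0 ∧
    (1 - 256 * s) * ((1 - 256 * t) * (3 * m2 * l + 3 * m1 * l1 + m * l2) -
      t * (384 * (2 * m1 * l + m * l1) + 176 * m * l)) + (1 - 256 * t) * m * l ^ 3 * (176 * s) = 0 ∧
    (1 - 256 * s) * ((1 - 256 * t) * (3 * m1 * l ^ 2 + 3 * m * l * l1) - t * (384 * m * l ^ 2)) +
      (1 - 256 * t) * m * l ^ 3 * (384 * s) = 0 := by
  have et : t = x / (pV x ^ 4 * pQ x) := by rw [eq_div_iff (by positivity)]; exact ht
  have es : s = x ^ 5 / (pW x ^ 4 * pQ x) := by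
    rw [eq_div_iff (by positivity), ← mul_assoc]; exact hs
  have et' : 1 - 256 * t = pC x ^ 2 / (pV x ^ 4 * pQ x) := by
    rw [eq_div_iff (by positivity)]
    have : pV x ^ 4 * pQ x - 256 * x = pC x ^ 2 := by simp only [pV, pQ, pC]; ring
    rw [pD] at ht
    linear_combination this - 256 * ht
  have es' : 1 - 256 * s = pE x ^ 2 / (pW x ^ 4 * pQ x) := by
    rw [eq_div_iff (by positivity)]
    have : pW x ^ 4 * pQ x - 256 * x ^ 5 = pE x ^ 2 := by simp only [pW, pQ, pE]; ring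
    linear_combination this - 256 * hs
  have e0 : m = pV x / pW x := by rw [eq_div_iff hW]; exact h0
  have e1 : m1 = 24 * pU x / (pW x ^ 2 * pC x) := by
    rw [eq_div_iff (by positivity), ← mul_assoc]; exact h1
  have e2 : m2 = 24 * pU x * pN2 x / (pW x ^ 3 * pC x ^ 3) := by
    rw [eq_div_iff (by positivity), ← mul_assoc]; exact h2
  have e3 : m3 = 24 * pU x * pN3 x / (pW x ^ 4 * pC x ^ 5) := by
    rw [eq_div_iff (by positivity), ← mul_assoc]; exact h3
  have f0 : l = 5 * pV x * pE x / (pW x * pC x) := by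
    rw [eq_div_iff (by positivity), ← mul_assoc]; exact k0
  have f1 : l1 = 5 * pU x * pK1 x / (pW x ^ 2 * pC x ^ 3) := by
    rw [eq_div_iff (by positivity), ← mul_assoc]; exact k1
  have f2 : l2 = 5 * pU x * pK2 x / (pW x ^ 3 * pC x ^ 5) := by
    rw [eq_div_iff (by positivity), ← mul_assoc]; exact k2
  rw [et', es']
  refine ⟨?_, ?_, ?_⟩
  · rw [et, es, e0, e1, e2, e3, f0, pU]
    field_simp
    simp only [pV, pW, pQ, pC, pE, pN2, pN3]
    ring
  · rw [et, es, e0, e1, e2, f0, f1, f2, pU]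
    field_simp
    simp only [pV, pW, pQ, pC, pE, pN2, pK1, pK2]
    ring
  · rw [et, es, e0, e1, f0, f1, pU]
    field_simp
    simp only [pV, pW, pQ, pC, pE, pK1]
    ring

theorem alg_dom {B : Type*} [CommRing B] [IsDomain B] {x t s m m1 m2 m3 l l1 l2 : B}
    (hV : pV x ≠ 0) (hW : pW x ≠ 0) (hQ : pQ x ≠ 0) (hC : pC x ≠ 0) (ht : t * pD x = x)
    (hs : s * pW x ^ 4 * pQ x = x ^ 5) (h0 : m * pW x = pV x)
    (h1 : m1 * pW x ^ 2 * pC x = 24 * pU x) (h2 : m2 * pW x ^ 3 * pC x ^ 3 = 24 * pU x * pN2 x)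
    (h3 : m3 * pW x ^ 4 * pC x ^ 5 = 24 * pU x * pN3 x) (k0 : l * pW x * pC x = 5 * pV x * pE x)
    (k1 : l1 * pW x ^ 2 * pC x ^ 3 = 5 * pU x * pK1 x)
    (k2 : l2 * pW x ^ 3 * pC x ^ 5 = 5 * pU x * pK2 x) :
    (1 - 256 * s) * ((1 - 256 * t) * m3 - t * (384 * m2 + 176 * m1 + 24 * m)) +
      (1 - 256 * t) * m * l ^ 3 * (24 * s) = 0 ∧
    (1 - 256 * s) * ((1 - 256 * t) * (3 * m2 * l + 3 * m1 * l1 + m * l2) -
      t * (384 * (2 * m1 * l + m * l1) + 176 * m * l)) + (1 - 256 * t) * m * l ^ 3 * (176 * s) = 0 ∧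
    (1 - 256 * s) * ((1 - 256 * t) * (3 * m1 * l ^ 2 + 3 * m * l * l1) - t * (384 * m * l ^ 2)) +
      (1 - 256 * t) * m * l ^ 3 * (384 * s) = 0 := by
  have hinj := IsFractionRing.injective B (FractionRing B)
  set f := algebraMap B (FractionRing B)
  have ne : ∀ {a : B}, a ≠ 0 → f a ≠ 0 := fun ha h => ha (hinj (by rw [h, map_zero]))
  have := alg_field (x := f x) (t := f t) (s := f s) (m := f m) (m1 := f m1) (m2 := f m2)
    (m3 := f m3) (l := f l) (l1 := f l1) (l2 := f l2) (map_pV f x ▸ ne hV) (map_pW f x ▸ ne hW)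
    (map_pQ f x ▸ ne hQ) (map_pC f x ▸ ne hC)
    (by simpa only [map_mul, map_pD] using congrArg f ht)
    (by simpa only [map_mul, map_pow, map_pW, map_pQ] using congrArg f hs)
    (by simpa only [map_mul, map_pW, map_pV] using congrArg f h0)
    (by simpa only [map_mul, map_pow, map_ofNat, map_pW, map_pC, map_pU] using congrArg f h1)
    (by simpa only [map_mul, map_pow, map_ofNat, map_pW, map_pC, map_pU, map_pN2]
      using congrArg f h2)
    (by simpa only [map_mul, map_pow, map_ofNat, map_pW, map_pC, map_pU, map_pN3]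
      using congrArg f h3)
    (by simpa only [map_mul, map_pow, map_ofNat, map_pW, map_pC, map_pV, map_pE]
      using congrArg f k0)
    (by simpa only [map_mul, map_pow, map_ofNat, map_pW, map_pC, map_pU, map_pK1]
      using congrArg f k1)
    (by simpa only [map_mul, map_pow, map_ofNat, map_pW, map_pC, map_pU, map_pK2]
      using congrArg f k2)
  refine ⟨hinj ?_, hinj ?_, hinj ?_⟩ <;>
    simp only [map_add, map_mul, map_sub, map_pow, map_one, map_ofNat, map_zero]
  exacts [this.1, this.2.1, this.2.2]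

section Der
variable {A : Type*} [CommRing A] {u lam : A⟦X⟧}

theorem th_pow_mul (g : A⟦X⟧) (k : ℕ) : th A (g ^ k) * g = k * g ^ k * th A g := by
  cases k with
  | zero => simp
  | succ k => rw [th_pow_succ]; push_cast; ring

theorem th_num (k : ℕ) [k.AtLeastTwo] : th A (ofNat(k) : A⟦X⟧) = 0 := th_ofNat k

theorem th_pW : th A (pW u) = th A u := by simp [pW]

theorem th_pC : th A (pC u) = (-75 - 1250 * u - 9375 * u ^ 2) * th A u := by
  simp only [pC, map_sub, th_mul, th_one, th_num, Derivation.leibniz_pow, smul_eq_mul,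
    nsmul_eq_mul]
  push_cast; ring

theorem th_step (hu : pC u * th A u = lam * pU u) {f g g' : A⟦X⟧} {a b : ℕ}
    (hf : f * pW u ^ a * pC u ^ b = g) (hg : th A g = g' * th A u) :
    th A f * pW u ^ (a + 1) * pC u ^ (b + 2) = lam * pU u * (pW u * pC u * g' -
      g * (a * pC u + b * pW u * (-75 - 1250 * u - 9375 * u ^ 2))) := by
  have d := congrArg (th A) hf
  rw [th_mul, th_mul, hg] at d
  have hW := th_pow_mul (pW u) a
  have hC := th_pow_mul (pC u) b
  rw [th_pW] at hW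
  rw [th_pC] at hC
  linear_combination (pW u * pC u ^ 2) * d - f * pC u ^ (b + 2) * hW -
    f * pW u ^ (a + 1) * pC u * hC - (a * pC u ^ 2 * th A u + b * pW u * pC u *
      (-75 - 1250 * u - 9375 * u ^ 2) * th A u) * hf + (pW u * pC u * g' -
      g * (a * pC u + b * pW u * (-75 - 1250 * u - 9375 * u ^ 2))) * hu

theorem th_mF (h : Ok u) (hu : pC u * th A u = lam * pU u) : th A (mF u) = lam * m1F u := by
  have := th_step hu h.e0 (g' := 25) (by simp [pV, th_num])
  apply ((h.hW.pow 2).mul (h.hC.pow 2)).mul_left_cancel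
  have e : pW u * 25 - pV u = 24 := by simp only [pW, pV]; ring
  push_cast at this
  linear_combination this - lam * pC u * h.e1 + lam * pU u * pC u * e

theorem th_pU : th A (pU u) = (1 + 62 * u + 525 * u ^ 2 + 2500 * u ^ 3) * th A u := by
  simp only [pU, pV, pQ, map_add, th_mul, th_one, th_num, Derivation.leibniz_pow, smul_eq_mul,
    nsmul_eq_mul]
  push_cast; ring

theorem th_m1F (h : Ok u) (hu : pC u * th A u = lam * pU u) : th A (m1F u) = lam * m2F u := by
  have := th_step hu h.e1 (g' := 24 * (1 + 62 * u + 525 * u ^ 2 + 2500 * u ^ 3))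
    (by rw [th_mul, th_num, th_pU]; ring)
  apply ((h.hW.pow 3).mul (h.hC.pow 3)).mul_left_cancel
  have e : pW u * pC u * (1 + 62 * u + 525 * u ^ 2 + 2500 * u ^ 3) -
      pU u * (2 * pC u + pW u * (-75 - 1250 * u - 9375 * u ^ 2)) = pN2 u := by
    simp only [pW, pU, pV, pQ, pC, pN2]; ring
  push_cast at this
  linear_combination this - lam * h.e2 + 24 * lam * pU u * e

theorem exists_fixed_poly (c : A⟦X⟧) (P : Polynomial A⟦X⟧) : ∃ u, u = c + X * P.eval u := by
  obtain ⟨u, hu⟩ := exists_fixed (fun u => c + X * P.eval u) (fun k a b hab => by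
    have := (hab.trans (Polynomial.sub_dvd_eval_sub a b P))
    rw [add_sub_add_left_eq_sub, ← mul_sub, pow_succ']
    exact mul_dvd_mul_left _ this)
  exact ⟨u, hu.symm⟩

theorem th_pD : th A (pD u) = (106 + 8750 * u + 262500 * u ^ 2 + 3437500 * u ^ 3 +
    19531250 * u ^ 4 + 58593750 * u ^ 5) * th A u := by
  simp only [pD, pV, pQ, map_add, th_mul, th_one, th_num, Derivation.leibniz_pow, smul_eq_mul,
    nsmul_eq_mul]
  push_cast; ring

theorem exists_u0 : ∃ u : A⟦X⟧, u = X * pD u := by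
  obtain ⟨u, hu⟩ := exists_fixed_poly (0 : A⟦X⟧) (pD Polynomial.X)
  refine ⟨u, ?_⟩
  have := map_pD (Polynomial.evalRingHom u) Polynomial.X
  simp only [Polynomial.coe_evalRingHom, Polynomial.eval_X] at this
  rw [this, zero_add] at hu
  exact hu

theorem u0_const (hu : u = X * pD u) : constantCoeff u = 0 := by rw [hu]; simp

theorem u0_V (hu : u = X * pD u) : IsUnit (pV u) := by
  rw [isUnit_iff_constantCoeff, map_pV, u0_const hu]; simp [pV]

theorem u0_ok (hu : u = X * pD u) : Ok u := by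
  refine ⟨?_, ?_, ?_⟩
  · rw [isUnit_iff_constantCoeff, map_pW, u0_const hu]; simp [pW]
  · rw [isUnit_iff_constantCoeff, map_pQ, u0_const hu]; simp [pQ]
  · rw [isUnit_iff_constantCoeff, map_pC, u0_const hu]; simp [pC]

theorem u0_der (hu : u = X * pD u) : pC u * th A u = 1 * pU u := by
  have d := congrArg (th A) hu
  rw [th_mul, th_X, th_pD] at d
  apply ((u0_V hu).pow 3).mul_left_cancel
  have e : pD u - u * (106 + 8750 * u + 262500 * u ^ 2 + 3437500 * u ^ 3 +
    19531250 * u ^ 4 + 58593750 * u ^ 5) = pV u ^ 3 * pC u := by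
    simp only [pD, pV, pQ, pC]; ring
  have e2 : u * pD u = pV u ^ 3 * pU u := by simp only [pD, pU]; ring
  linear_combination pD u * d - th A u * e + e2 - (pD u + (106 + 8750 * u + 262500 * u ^ 2 +
    3437500 * u ^ 3 + 19531250 * u ^ 4 + 58593750 * u ^ 5) * th A u) * hu

end Der

theorem isoData {p : ℕ} [Fact p.Prime] {u : ℤ_[p]⟦X⟧} (hu : u = X * pD u) :
    ∃ κ l, IsoData (sF u) κ l (mF u) := by
  have h := u0_ok hu
  have hd := u0_der hu
  have u0 := u0_const hu
  set l := 5 * pV u * pE u * Ring.inverse (pW u) * Ring.inverse (pC u) with hl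
  have k0 : l * pW u ^ 1 * pC u ^ 1 = 5 * pV u * pE u := by
    have hW := Ring.mul_inverse_cancel _ h.hW
    have hC := Ring.mul_inverse_cancel _ h.hC
    rw [hl]
    linear_combination 5 * pV u * pE u * pC u * Ring.inverse (pC u) * hW + 5 * pV u * pE u * hC
  have k1 : th _ l * pW u ^ 2 * pC u ^ 3 = 5 * pU u * pK1 u := by
    rw [th_step hd k0 (g' := 5 * (30 + 280 * u + 1110 * u ^ 2 - 500 * u ^ 3)) (by
      simp only [pV, pE, map_add, map_sub, th_mul, th_one, th_num, Derivation.leibniz_pow,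
        smul_eq_mul, nsmul_eq_mul]
      push_cast; ring)]
    simp only [pW, pU, pV, pQ, pC, pE, pK1]; push_cast; ring
  have k2 : th _ (th _ l) * pW u ^ 3 * pC u ^ 5 = 5 * pU u * pK2 u := by
    rw [th_step hd k1 (g' := 5 * ((1 + 62 * u + 525 * u ^ 2 + 2500 * u ^ 3) * pK1 u + pU u *
      (1680 + 46000 * u + 546720 * u ^ 2 + 2300000 * u ^ 3 + 5250000 * u ^ 4 + 9750000 * u ^ 5)))
      (by
        rw [th_mul, th_mul, th_pU]
        simp only [pK1, map_add, th_mul, th_num, Derivation.leibniz_pow,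
          smul_eq_mul, nsmul_eq_mul]
        push_cast; ring)]
    simp only [pW, pU, pV, pQ, pC, pK1, pK2]; push_cast; ring
  have d1 : th _ (mF u) = m1F u := by rw [th_mF h hd, one_mul]
  have d2 : th _ (m1F u) = m2F u := by rw [th_m1F h hd, one_mul]
  have h3 : th _ (m2F u) * pW u ^ 4 * pC u ^ 5 = 24 * pU u * pN3 u := by
    rw [th_step hd h.e2 (g' := 24 * ((1 + 62 * u + 525 * u ^ 2 + 2500 * u ^ 3) * pN2 u + pU u *
      (61 - 2050 * u - 39375 * u ^ 2 - 402500 * u ^ 3 - 2140625 * u ^ 4 - 5156250 * u ^ 5 +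
        13671875 * u ^ 6)))
      (by
        rw [th_mul, th_mul, th_pU]
        simp only [pN2, map_add, map_sub, th_mul, th_one, th_num, Derivation.leibniz_pow,
          smul_eq_mul, nsmul_eq_mul]
        push_cast; ring)]
    simp only [pW, pU, pV, pQ, pC, pN2, pN3]; push_cast; ring
  have key := alg_dom (t := X) (u0_V hu).ne_zero h.hW.ne_zero h.hQ.ne_zero h.hC.ne_zero hu.symm
    h.es (by simpa using h.e0) (by simpa using h.e1) h.e2 h3 (by simpa using k0) k1 k2
  refine ⟨pD u ^ 5 * Ring.inverse (pW u) ^ 4 * Ring.inverse (pQ u), l, ?_, ?_, ?_, ?_, ?_, ?_, ?_⟩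
  · have : u ^ 5 = X ^ 5 * pD u ^ 5 := by rw [← mul_pow, ← hu]
    rw [sF, this]; ring
  · rw [map_mul, map_mul, map_pow, map_pow, map_rinv _ h.hW, map_rinv _ h.hQ, map_pW, map_pQ,
      map_pD, u0]
    simp [pD, pV, pW, pQ]
  · have d := congrArg (th _) h.es
    have hQ : th _ (pQ u) = (6 + 50 * u) * th _ u := by
      simp only [pQ, map_add, th_mul, th_one, th_num, Derivation.leibniz_pow, smul_eq_mul,
        nsmul_eq_mul]
      push_cast; ring
    simp only [th_mul, th_pW, hQ, Derivation.leibniz_pow, smul_eq_mul, nsmul_eq_mul] at d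
    push_cast at d
    apply (((h.hW.pow 4).mul h.hQ).mul h.hC).mul_left_cancel
    have e : (5 * (pW u ^ 4 * pQ u) - u * (4 * pW u ^ 3 * pQ u + pW u ^ 4 * (6 + 50 * u))) =
      5 * pW u ^ 3 * pE u := by simp only [pW, pQ, pE]; ring
    rw [pU] at hd
    linear_combination pC u * d + (5 * u ^ 4 - sF u * (4 * pW u ^ 3 * pQ u + pW u ^ 4 *
      (6 + 50 * u))) * hd - 5 * pV u * pQ u * h.es + pV u * pQ u * sF u * e -
      sF u * pW u ^ 3 * pQ u * k0
  · rw [map_mF _ h, u0]; simp [mF, pV, pW]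
  · rw [d1, d2]; exact key.1
  · rw [d1, d2]; exact key.2.1
  · rw [d1]; exact key.2.2

end Pool.Agent.Lib.MP_bdc5f5_nt
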