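import Pool.Agent.Lib.MP_bdc5f5_nt.Theta

/-!
Truncated deformed hypergeometric series and the integral lattice they span.
-/

namespace Pool.Agent.Lib.MP_bdc5f5_nt

open Finset PowerSeries

variable {p : ℕ} [hp : Fact p.Prime] {R : Type*} [CommRing R] [Algebra ℤ_[p] R]

/-- coefficient extension -/
noncomputable def io (p : ℕ) [Fact p.Prime] (R : Type*) [CommRing R] [Algebra ℤ_[p] R] :
    ℤ_[p]⟦X⟧ →+* R⟦X⟧ := PowerSeries.map (algebraMap ℤ_[p] R)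

theorem io_C (c : ℤ_[p]) : io p R (C c) = C (algebraMap ℤ_[p] R c) := map_C _ _

theorem io_X : io p R X = X := map_X _

theorem io_th (f : ℤ_[p]⟦X⟧) : io p R (th _ f) = th R (io p R f) := map_th _ _

theorem io_expand (f : ℤ_[p]⟦X⟧) :
    io p R (expand p hp.out.ne_zero f) = expand p hp.out.ne_zero (io p R f) := map_expand _ _ _ _

theorem constantCoeff_io (f : ℤ_[p]⟦X⟧) :
    constantCoeff (io p R f) = algebraMap ℤ_[p] R (constantCoeff f) := by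
  rw [io, ← coeff_zero_eq_constantCoeff_apply, coeff_map, coeff_zero_eq_constantCoeff_apply]

/-- truncated series with a polynomial weight -/
noncomputable def TT (n : ℕ) (e : R) (E S : R⟦X⟧) (B : Polynomial ℤ_[p]) : R⟦X⟧ :=
  E * ∑ i ∈ range n, C (Polynomial.aeval ((i : R) + e) B * aa i e) * S ^ i

theorem TT_add (n : ℕ) (e : R) (E S : R⟦X⟧) (B B' : Polynomial ℤ_[p]) :
    TT n e E S (B + B') = TT n e E S B + TT n e E S B' := by
  simp only [TT, map_add, add_mul, sum_add_distrib, mul_add]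

theorem TT_C_mul (n : ℕ) (e : R) (E S : R⟦X⟧) (c : ℤ_[p]) (B : Polynomial ℤ_[p]) :
    TT n e E S (Polynomial.C c * B) = io p R (C c) * TT n e E S B := by
  simp only [TT, map_mul, Polynomial.aeval_C, io_C, mul_sum]
  exact sum_congr rfl fun i _ => by ring

theorem Dop_TT (n : ℕ) {e μ : R} {E S L : R⟦X⟧} (hS : th R S = L * S)
    (hE : Dop μ E = C e * L * E) (B : Polynomial ℤ_[p]) :
    Dop μ (TT n e E S B) = L * TT n e E S (Polynomial.X * B) := by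
  rw [TT, mul_comm E, Dop_mul, hE, TT, map_sum, sum_mul, sum_mul, ← sum_add_distrib, mul_sum,
    mul_sum]
  refine sum_congr rfl fun i _ => ?_
  rw [th_mul, th_C, th_pow_of hS]
  simp only [map_mul, Polynomial.aeval_X, map_add, map_natCast]
  ring

theorem constantCoeff_TT {n : ℕ} (e : R) {E S : R⟦X⟧} (hE : constantCoeff E = 1)
    (hS : constantCoeff S = 0) (B : Polynomial ℤ_[p]) :
    constantCoeff (TT (n + 1) e E S B) = Polynomial.aeval e B := by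
  rw [TT, map_mul, hE, one_mul, map_sum, sum_range_succ']
  simp [hS, aa, Num, Den]

variable [Algebra ℚ R]

omit [Algebra ℤ_[p] R] in
theorem aa_succ {e : R} (he : e ^ 3 = 0) (k : ℕ) :
    (((k + 1 : ℕ) : R) + e) ^ 3 * aa (k + 1) e =
      (256 * ((k : R) + e) ^ 3 + 384 * ((k : R) + e) ^ 2 + 176 * ((k : R) + e) + 24) * aa k e := by
  have h1 := aa_mul he (k + 1)
  have h2 := aa_mul he k
  rw [Num_add, Den_add, ← h2] at h1
  apply ((isUnit_Den he k).mul (isUnit_succ_add he k)).mul_right_cancel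
  simp only [Num, Den, prod_range_succ, prod_range_zero] at h1 ⊢
  push_cast at h1 ⊢
  linear_combination h1

theorem TT_rec (n : ℕ) {e : R} (he : e ^ 3 = 0) (E : R⟦X⟧) {S : R⟦X⟧} (hS : X ∣ S) :
    X ^ n ∣ TT (p := p) n e E S (Polynomial.X ^ 3) -
      S * (256 * TT (p := p) n e E S (Polynomial.X ^ 3) +
        384 * TT (p := p) n e E S (Polynomial.X ^ 2) +
        176 * TT (p := p) n e E S Polynomial.X + 24 * TT (p := p) n e E S 1) := by
  set f : ℕ → R⟦X⟧ := fun i => C (((i : R) + e) ^ 3 * aa i e) * S ^ i with hf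
  have h1 := sum_range_succ f n
  rw [sum_range_succ'] at h1
  have h0 : f 0 = 0 := by
    simp only [hf, Nat.cast_zero, zero_add, he, zero_mul, map_zero]
  have h2 : ∑ i ∈ range n, f (i + 1) = S * ∑ i ∈ range n,
      (256 * (C (((i : R) + e) ^ 3 * aa i e) * S ^ i) +
      384 * (C (((i : R) + e) ^ 2 * aa i e) * S ^ i) +
      176 * (C (((i : R) + e) * aa i e) * S ^ i) + 24 * (C (1 * aa i e) * S ^ i)) := by
    rw [mul_sum]
    refine sum_congr rfl fun i _ => ?_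
    simp only [hf]
    rw [aa_succ he]
    simp only [map_mul, map_add, map_pow, map_ofNat, map_one]
    ring
  rw [h0, h2] at h1
  simp only [sum_add_distrib, ← mul_sum] at h1
  simp only [TT, map_pow, Polynomial.aeval_X, map_one]
  refine Dvd.dvd.trans (((pow_dvd_pow_of_dvd hS n).mul_left
    (-E * C (((n : R) + e) ^ 3 * aa n e)))) (dvd_of_eq ?_)
  simp only [hf] at h1
  linear_combination E * h1

/-- membership in the integral span, with prescribed first coordinate -/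
def InM (n : ℕ) (Z0 Z1 Z2 : R⟦X⟧) (x0 : ℤ_[p]⟦X⟧) (T : R⟦X⟧) : Prop :=
  ∃ x1 x2 : ℤ_[p]⟦X⟧, X ^ n ∣ T - (io p R x0 * Z0 + io p R x1 * Z1 + io p R x2 * Z2)

section InM
omit [Algebra ℚ R]
variable {n : ℕ} {Z0 Z1 Z2 : R⟦X⟧}

theorem InM.add {x y : ℤ_[p]⟦X⟧} {T T' : R⟦X⟧} (h : InM n Z0 Z1 Z2 x T) (h' : InM n Z0 Z1 Z2 y T') :
    InM n Z0 Z1 Z2 (x + y) (T + T') := by
  obtain ⟨x1, x2, h⟩ := h
  obtain ⟨y1, y2, h'⟩ := h'
  refine ⟨x1 + y1, x2 + y2, (dvd_add h h').trans (dvd_of_eq ?_)⟩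
  simp only [map_add]; ring

theorem InM.smul {x : ℤ_[p]⟦X⟧} {T : R⟦X⟧} (h : InM n Z0 Z1 Z2 x T) (g : ℤ_[p]⟦X⟧) :
    InM n Z0 Z1 Z2 (g * x) (io p R g * T) := by
  obtain ⟨x1, x2, h⟩ := h
  refine ⟨g * x1, g * x2, (h.mul_left (io p R g)).trans (dvd_of_eq ?_)⟩
  simp only [map_mul]; ring

theorem InM.congr {x y : ℤ_[p]⟦X⟧} {T T' : R⟦X⟧} (h : InM n Z0 Z1 Z2 x T) (e : x = y)
    (h' : X ^ n ∣ T' - T) : InM n Z0 Z1 Z2 y T' := by
  obtain ⟨x1, x2, h⟩ := h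
  subst e
  exact ⟨x1, x2, (dvd_add h h').trans (dvd_of_eq (by ring))⟩

theorem InM.congr' {x y : ℤ_[p]⟦X⟧} {T T' : R⟦X⟧} (h : InM n Z0 Z1 Z2 x T) (e : x = y)
    (h' : T = T') : InM n Z0 Z1 Z2 y T' := h.congr e (by simp [h'])

theorem InM.z0 : InM n Z0 Z1 Z2 (1 : ℤ_[p]⟦X⟧) Z0 := ⟨0, 0, by simp⟩
theorem InM.z1 : InM n Z0 Z1 Z2 (0 : ℤ_[p]⟦X⟧) Z1 := ⟨1, 0, by simp⟩
theorem InM.z2 : InM n Z0 Z1 Z2 (0 : ℤ_[p]⟦X⟧) Z2 := ⟨0, 1, by simp⟩
theorem InM.zero : InM n Z0 Z1 Z2 (0 : ℤ_[p]⟦X⟧) 0 := ⟨0, 0, by simp⟩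

theorem InM.sum {ι : Type*} (s : Finset ι) {x : ι → ℤ_[p]⟦X⟧} {T : ι → R⟦X⟧}
    (h : ∀ i ∈ s, InM n Z0 Z1 Z2 (x i) (T i)) :
    InM n Z0 Z1 Z2 (∑ i ∈ s, x i) (∑ i ∈ s, T i) := by
  classical
  induction s using Finset.induction_on with
  | empty => simpa using InM.zero
  | insert a s ha ih =>
    rw [sum_insert ha, sum_insert ha]
    exact (h a (mem_insert_self _ _)).add (ih fun i hi => h i (mem_insert_of_mem hi))

theorem InM.expand {x : ℤ_[p]⟦X⟧} {T : R⟦X⟧} (h : InM n Z0 Z1 Z2 x T) :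
    InM n (expand p hp.out.ne_zero Z0) (expand p hp.out.ne_zero Z1) (expand p hp.out.ne_zero Z2)
      (expand p hp.out.ne_zero x) (expand p hp.out.ne_zero T) := by
  obtain ⟨x1, x2, h⟩ := h
  refine ⟨PowerSeries.expand p hp.out.ne_zero x1, PowerSeries.expand p hp.out.ne_zero x2, ?_⟩
  have := dvd_expand hp.out.ne_zero h
  simpa only [map_sub, map_add, map_mul, io_expand] using this

theorem InM.trans {Y0 Y1 Y2 T : R⟦X⟧} {a0 a1 a2 : ℤ_[p]⟦X⟧} (h0 : InM n Z0 Z1 Z2 a0 Y0)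
    (h1 : InM n Z0 Z1 Z2 a1 Y1) (h2 : InM n Z0 Z1 Z2 a2 Y2) {x : ℤ_[p]⟦X⟧}
    (h : InM n Y0 Y1 Y2 x T) : ∃ x' : ℤ_[p]⟦X⟧, InM n Z0 Z1 Z2 x' T := by
  obtain ⟨x1, x2, h⟩ := h
  exact ⟨_, (((h0.smul x).add (h1.smul x1)).add (h2.smul x2)).congr rfl h⟩

theorem extract {ε : R} (hind : ∀ a b c : ℤ_[p], algebraMap ℤ_[p] R a + algebraMap ℤ_[p] R b * ε +
      algebraMap ℤ_[p] R c * ε ^ 2 = 0 → a = 0 ∧ b = 0 ∧ c = 0)
    (h0 : constantCoeff Z0 = 1) (h1 : constantCoeff Z1 = ε) (h2 : constantCoeff Z2 = ε ^ 2)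
    (n : ℕ) : ∀ {x0 x1 x2 : ℤ_[p]⟦X⟧}, X ^ n ∣ io p R x0 * Z0 + io p R x1 * Z1 + io p R x2 * Z2 →
      X ^ n ∣ x0 := by
  induction n with
  | zero => simp
  | succ n ih =>
    intro x0 x1 x2 h
    have hX : X ∣ io p R x0 * Z0 + io p R x1 * Z1 + io p R x2 * Z2 :=
      (dvd_pow_self X (by omega)).trans h
    rw [X_dvd_iff] at hX
    simp only [map_add, map_mul, constantCoeff_io, h0, h1, h2, mul_one] at hX
    obtain ⟨a0, a1, a2⟩ := hind _ _ _ hX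
    obtain ⟨y0, rfl⟩ := X_dvd_iff.2 a0
    obtain ⟨y1, rfl⟩ := X_dvd_iff.2 a1
    obtain ⟨y2, rfl⟩ := X_dvd_iff.2 a2
    rw [pow_succ']
    refine mul_dvd_mul_left _ (ih (x1 := y1) (x2 := y2) ?_)
    obtain ⟨g, hg⟩ := h
    refine ⟨g, X_mul_cancel ?_⟩
    simp only [map_mul, io_X] at hg
    linear_combination hg

theorem InM.extract {ε : R} (hind : ∀ a b c : ℤ_[p], algebraMap ℤ_[p] R a +
      algebraMap ℤ_[p] R b * ε + algebraMap ℤ_[p] R c * ε ^ 2 = 0 → a = 0 ∧ b = 0 ∧ c = 0)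
    (h0 : constantCoeff Z0 = 1) (h1 : constantCoeff Z1 = ε) (h2 : constantCoeff Z2 = ε ^ 2)
    {x y : ℤ_[p]⟦X⟧} {T : R⟦X⟧} (h : InM n Z0 Z1 Z2 x T) (h' : InM n Z0 Z1 Z2 y T) :
    X ^ n ∣ x - y := by
  obtain ⟨x1, x2, h⟩ := h
  obtain ⟨y1, y2, h'⟩ := h'
  refine Pool.Agent.Lib.MP_bdc5f5_nt.extract hind h0 h1 h2 n (x1 := x1 - y1) (x2 := x2 - y2)
    ((dvd_sub h' h).trans (dvd_of_eq ?_))
  simp only [map_sub]; ring

end InM

theorem lat_TT (n : ℕ) {e μ : R} (he : e ^ 3 = 0) {E : R⟦X⟧} {g l : ℤ_[p]⟦X⟧}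
    (hg : constantCoeff g = 0) (hl : IsUnit l) (hS : th _ g = l * g)
    (hE : Dop μ E = C e * io p R l * E) (B : Polynomial ℤ_[p]) :
    ∃ x : ℤ_[p]⟦X⟧, InM n (TT (p := p) n e E (io p R g) 1)
      (TT (p := p) n e E (io p R g) Polynomial.X)
      (TT (p := p) n e E (io p R g) (Polynomial.X ^ 2)) x (TT n e E (io p R g) B) := by
  have hS' : th R (io p R g) = io p R l * io p R g := by rw [← io_th, hS, map_mul]
  have hD := Dop_TT (p := p) n hS' hE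
  have hXg : X ∣ io p R g := by
    rw [X_dvd_iff, constantCoeff_io, hg, map_zero]
  have hu : IsUnit (1 - 256 * g) := by
    rw [isUnit_iff_constantCoeff]; simp [hg]
  obtain ⟨v, hv⟩ := hu.exists_left_inv
  obtain ⟨l', hl'⟩ := hl.exists_left_inv
  have hv' := congrArg (io p R) hv
  have hl'' := congrArg (io p R) hl'
  simp only [map_mul, map_sub, map_one, map_ofNat] at hv' hl''
  set Z0 := TT (p := p) n e E (io p R g) 1
  set Z1 := TT (p := p) n e E (io p R g) Polynomial.X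
  set Z2 := TT (p := p) n e E (io p R g) (Polynomial.X ^ 2)
  set Z3 := TT (p := p) n e E (io p R g) (Polynomial.X ^ 3) with hZ3
  have h3 : InM n Z0 Z1 Z2 (v * g * 24) Z3 := by
    refine ⟨v * g * 176, v * g * 384, ((TT_rec (p := p) n he E hXg).mul_left (io p R v)).trans
      (dvd_of_eq ?_)⟩
    simp only [map_mul, map_ofNat]
    linear_combination Z3 * hv'
  have d0 : Dop μ Z0 = io p R l * Z1 := by rw [hD, mul_one]
  have d1 : Dop μ Z1 = io p R l * Z2 := by rw [hD, ← sq]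
  have d2 : Dop μ Z2 = io p R l * Z3 := by rw [hD, ← pow_succ']
  induction B using Polynomial.induction_on with
  | C a =>
    refine ⟨_, (InM.z0.smul (C a)).congr' rfl ?_⟩
    rw [← TT_C_mul, mul_one]
  | add f g hf hg =>
    obtain ⟨x, hx⟩ := hf
    obtain ⟨y, hy⟩ := hg
    exact ⟨_, (hx.add hy).congr' rfl (TT_add _ _ _ _ _ _).symm⟩
  | monomial k a h =>
    obtain ⟨x, x1, x2, hx⟩ := h
    have h4 := dvd_Dop μ hx
    rw [Dop_sub, Dop_add, Dop_add, Dop_mul, Dop_mul, Dop_mul, d0, d1, d2, hD] at h4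
    have e1 : Polynomial.X * (Polynomial.C a * Polynomial.X ^ k) =
        Polynomial.C a * (Polynomial.X : Polynomial ℤ_[p]) ^ (k + 1) := by ring
    rw [e1] at h4
    refine ⟨_, (((((InM.z0.smul (th _ x)).add (InM.z1.smul (x * l + th _ x1))).add
      (InM.z2.smul (x1 * l + th _ x2))).add (h3.smul (x2 * l))).smul l').congr rfl
      ((h4.mul_left (io p R l')).trans (dvd_of_eq ?_))⟩
    simp only [map_add, map_mul, io_th]
    linear_combination (TT n e E (io p R g) (Polynomial.C a * Polynomial.X ^ (k + 1))) * hl''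

omit [Algebra ℚ R] in
theorem good_TT (n : ℕ) (e : R) (E S : R⟦X⟧) {Z0 Z1 Z2 : R⟦X⟧} {a0 a1 a2 : ℤ_[p]⟦X⟧}
    (h0 : InM n Z0 Z1 Z2 a0 (TT (p := p) n e E S 1))
    (h1 : InM n Z0 Z1 Z2 a1 (TT (p := p) n e E S Polynomial.X))
    (h2 : InM n Z0 Z1 Z2 a2 (TT (p := p) n e E S (Polynomial.X ^ 2)))
    (h : ∀ B : Polynomial ℤ_[p], ∃ x : ℤ_[p]⟦X⟧, InM n Z0 Z1 Z2 x (TT n e E S B))
    (b0 b1 b2 : ℤ_[p]) (B' : Polynomial ℤ_[p]) :
    ∃ x : ℤ_[p]⟦X⟧, InM n Z0 Z1 Z2 (C b0 * a0 + C b1 * a1 + C b2 * a2 + C ((p : ℤ_[p]) ^ 3) * x)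
      (TT n e E S (Polynomial.C b0 + Polynomial.C b1 * Polynomial.X +
        Polynomial.C b2 * Polynomial.X ^ 2 + Polynomial.C ((p : ℤ_[p]) ^ 3) * B')) := by
  obtain ⟨x, hx⟩ := h B'
  refine ⟨x, ((((h0.smul (C b0)).add (h1.smul (C b1))).add (h2.smul (C b2))).add
    (hx.smul _)).congr' rfl ?_⟩
  rw [TT_add, TT_add, TT_add, TT_C_mul, TT_C_mul, TT_C_mul, ← TT_C_mul n e E S b0, mul_one]

end Pool.Agent.Lib.MP_bdc5f5_nt
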