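import Pool.Agent.Lib.MP_bdc5f5_nt.Lat

/-!
Comparison of the two Frobenius structures along the isogeny correspondence.
-/

namespace Pool.Agent.Lib.MP_bdc5f5_nt

open Finset PowerSeries

variable {p : ℕ} [hp : Fact p.Prime] {R : Type*} [CommRing R] [Algebra ℤ_[p] R] [Algebra ℚ R]

/-- data of the degree five correspondence, as power series in the first coordinate -/
structure IsoData (s κ l m : ℤ_[p]⟦X⟧) : Prop where
  hs : s = X ^ 5 * κ
  hκ : constantCoeff κ = 1
  hl : th _ s = l * s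
  hm : constantCoeff m = 1
  I0 : (1 - 256 * s) * ((1 - 256 * X) * th _ (th _ (th _ m)) -
    X * (384 * th _ (th _ m) + 176 * th _ m + 24 * m)) + (1 - 256 * X) * m * l ^ 3 * (24 * s) = 0
  I1 : (1 - 256 * s) * ((1 - 256 * X) * (3 * th _ (th _ m) * l + 3 * th _ m * th _ l +
    m * th _ (th _ l)) - X * (384 * (2 * th _ m * l + m * th _ l) + 176 * m * l)) +
    (1 - 256 * X) * m * l ^ 3 * (176 * s) = 0
  I2 : (1 - 256 * s) * ((1 - 256 * X) * (3 * th _ m * l ^ 2 + 3 * m * l * th _ l) -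
    X * (384 * m * l ^ 2)) + (1 - 256 * X) * m * l ^ 3 * (384 * s) = 0

variable {s κ l m : ℤ_[p]⟦X⟧}

theorem IsoData.s0 (h : IsoData s κ l m) : constantCoeff s = 0 := by simp [h.hs]

theorem IsoData.thκ (h : IsoData s κ l m) : th _ κ = (l - 5) * κ := by
  have h1 := h.hl
  rw [h.hs, th_mul, th_pow_of (l := 1) (by rw [th_X, one_mul])] at h1
  apply mul_left_cancel₀ (pow_ne_zero 5 (X_ne_zero (R := ℤ_[p])))
  push_cast at h1
  linear_combination h1

theorem IsoData.l5 (h : IsoData s κ l m) : X ∣ l - 5 := by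
  have h1 := X_dvd_iff.1 (X_dvd_th κ)
  rw [h.thκ, map_mul, h.hκ, mul_one] at h1
  exact X_dvd_iff.2 h1

theorem IsoData.lu (h5 : 5 < p) (h : IsoData s κ l m) : IsUnit l := by
  have h1 := X_dvd_iff.1 h.l5
  rw [map_sub, sub_eq_zero] at h1
  rw [isUnit_iff_constantCoeff, h1, map_ofNat]
  exact isUnit_nat (n := 5) (fun hd => by have := Nat.le_of_dvd (by omega) hd; omega)

theorem IsoData.exE (h : IsoData s κ l m) {e : R} (he : e ^ 3 = 0) :
    ∃ E : R⟦X⟧, constantCoeff E = 1 ∧ Dop (5 * e) E = C e * io p R l * E := by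
  have : X ∣ io p R (l - 5) := by simpa [io_X] using map_dvd (io p R) h.l5
  obtain ⟨E, h1, h2⟩ := exists_E this he
  refine ⟨E, h1, ?_⟩
  rw [Dop, h2]
  simp only [map_sub, map_mul, map_ofNat]; ring

omit [Algebra ℤ_[p] R] [Algebra ℚ R] in
theorem Dop_one (e : R) : Dop e (1 : R⟦X⟧) = C e * 1 * 1 := by simp [Dop]

theorem iso_rel (h : IsoData s κ l m) (n : ℕ) {e : R} (he : e ^ 3 = 0) {E : R⟦X⟧}
    (hE0 : constantCoeff E = 1) (hE : Dop (5 * e) E = C e * io p R l * E) :
    X ^ (n + 1) ∣ TT (p := p) (n + 1) (5 * e) 1 X 1 -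
      io p R m * TT (p := p) (n + 1) e E (io p R s) 1 := by
  have he5 : (5 * e) ^ 3 = 0 := by rw [mul_pow, he, mul_zero]
  have hS' : th R (io p R s) = io p R l * io p R s := by rw [← io_th, h.hl, map_mul]
  have hD := Dop_TT (p := p) (n + 1) hS' hE
  have hD' := Dop_TT (p := p) (n + 1) (S := X) (L := 1) (by rw [th_X, one_mul]) (Dop_one (5 * e))
  have hs0 : constantCoeff (io p R s) = 0 := by rw [constantCoeff_io, h.s0, map_zero]
  refine uniq3 he5 ?_ ?_
  · rw [X_dvd_iff, map_sub, map_mul, constantCoeff_TT _ (map_one _) constantCoeff_X,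
      constantCoeff_TT _ hE0 hs0, constantCoeff_io, h.hm]
    simp
  have r1 := TT_rec (p := p) (n + 1) he5 1 (dvd_refl X)
  have r2 := TT_rec (p := p) (n + 1) he E (X_dvd_iff.2 hs0)
  set Z0 := TT (p := p) (n + 1) e E (io p R s) 1
  set Z1 := TT (p := p) (n + 1) e E (io p R s) Polynomial.X
  set Z2 := TT (p := p) (n + 1) e E (io p R s) (Polynomial.X ^ 2)
  set Z3 := TT (p := p) (n + 1) e E (io p R s) (Polynomial.X ^ 3)
  set Y0 := TT (p := p) (n + 1) (5 * e) 1 X 1
  set Y1 := TT (p := p) (n + 1) (5 * e) 1 X Polynomial.X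
  set Y2 := TT (p := p) (n + 1) (5 * e) 1 X (Polynomial.X ^ 2)
  set Y3 := TT (p := p) (n + 1) (5 * e) 1 X (Polynomial.X ^ 3)
  have d0 : Dop (5 * e) Z0 = io p R l * Z1 := by rw [hD, mul_one]
  have d1 : Dop (5 * e) Z1 = io p R l * Z2 := by rw [hD, ← sq]
  have d2 : Dop (5 * e) Z2 = io p R l * Z3 := by rw [hD, ← pow_succ']
  have c0 : Dop (5 * e) Y0 = Y1 := by rw [hD', mul_one, one_mul]
  have c1 : Dop (5 * e) Y1 = Y2 := by rw [hD', ← sq, one_mul]
  have c2 : Dop (5 * e) Y2 = Y3 := by rw [hD', ← pow_succ', one_mul]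
  have hu : IsUnit (1 - 256 * io p R s) := by
    rw [isUnit_iff_constantCoeff]; simp [hs0]
  have I0 := congrArg (io p R) h.I0
  have I1 := congrArg (io p R) h.I1
  have I2 := congrArg (io p R) h.I2
  simp only [map_add, map_mul, map_sub, map_one, map_ofNat, map_pow, io_X, io_th,
    map_zero] at I0 I1 I2
  simp only [Dop_sub, Dop_add, Dop_mul, d0, d1, d2, c0, c1, c2]
  rw [← hu.dvd_mul_left]
  refine (dvd_sub (r1.mul_left (1 - 256 * io p R s))
    (r2.mul_left ((1 - 256 * X) * io p R m * io p R l ^ 3))).trans (dvd_of_eq ?_)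
  linear_combination Z0 * I0 + Z1 * I1 + Z2 * I2

omit [Algebra ℤ_[p] R] [Algebra ℚ R] hp in
theorem sum_range_mul' (f : ℕ → R) (p n : ℕ) :
    ∑ k ∈ range (p * n), f k = ∑ a ∈ range p, ∑ i ∈ range n, f (p * i + a) := by
  rw [sum_comm]
  induction n with
  | zero => simp
  | succ n ih => rw [Nat.mul_succ, sum_range_add, ih, sum_range_succ]

omit [Algebra ℚ R] in
theorem frob_sum (n : ℕ) {e : R} (E : R⟦X⟧) {S : R⟦X⟧} (hS : X ∣ S) {B : ℕ → Polynomial ℤ_[p]}
    (hB : ∀ a < p, ∀ i ≤ n, aa (p * i + a) ((p : R) * e) =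
      Polynomial.aeval ((i : R) + e) (B a) * aa i e) :
    X ^ n ∣ TT (p := p) n (p * e) E S 1 - ∑ a ∈ range p, S ^ a *
      ∑ i ∈ range n, C (Polynomial.aeval ((i : R) + e) (B a) * aa i e) * (E * S ^ (p * i)) := by
  have h1 : ∑ a ∈ range p, S ^ a *
      ∑ i ∈ range n, C (Polynomial.aeval ((i : R) + e) (B a) * aa i e) * (E * S ^ (p * i)) =
      E * ∑ k ∈ range (p * n), C (aa k ((p : R) * e)) * S ^ k := by
    rw [sum_range_mul', mul_sum]
    refine sum_congr rfl fun a ha => ?_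
    rw [mul_sum, mul_sum]
    refine sum_congr rfl fun i hi => ?_
    rw [hB a (mem_range.1 ha) i (mem_range.1 hi).le]
    ring
  obtain ⟨d, hd⟩ := Nat.exists_eq_add_of_le (Nat.le_mul_of_pos_left n hp.out.pos)
  rw [h1, hd, sum_range_add, TT]
  simp only [map_one, one_mul]
  have : X ^ n ∣ ∑ x ∈ range d, C (aa (n + x) ((p : R) * e)) * S ^ (n + x) :=
    dvd_sum fun x _ => ((pow_dvd_pow_of_dvd hS n).trans (pow_dvd_pow _ (by omega))).mul_left _
  refine (this.mul_left (-E)).trans (dvd_of_eq ?_)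
  ring

omit [Algebra ℚ R] in
theorem expand_TT (n : ℕ) (e : R) (E S : R⟦X⟧) (B : Polynomial ℤ_[p]) :
    expand p hp.out.ne_zero (TT n e E S B) = ∑ i ∈ range n,
      C (Polynomial.aeval ((i : R) + e) B * aa i e) *
        (expand p hp.out.ne_zero E * expand p hp.out.ne_zero S ^ i) := by
  rw [TT, map_mul, map_sum, mul_sum]
  refine sum_congr rfl fun i _ => ?_
  rw [map_mul, expand_C, map_pow]; ring

theorem frobenius_dvd (f : ℤ_[p]⟦X⟧) : (p : ℤ_[p]⟦X⟧) ∣ f ^ p - expand p hp.out.ne_zero f := by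
  rw [← map_natCast (C (R := ℤ_[p]))]
  refine C_dvd_of_coeff fun k => ?_
  have h1 : PowerSeries.map (PadicInt.toZMod (p := p)) (f ^ p - expand p hp.out.ne_zero f) = 0 := by
    rw [map_sub, map_pow, map_expand, sub_eq_zero]
    have := MvPowerSeries.map_frobenius_expand p hp.out.ne_zero
      (f := PowerSeries.map (PadicInt.toZMod (p := p)) f)
    rw [← this, ZMod.frobenius_zmod, MvPowerSeries.map_id]
    rfl
  have h2 := congrArg (coeff k) h1
  rw [coeff_map, map_zero, ← RingHom.mem_ker, PadicInt.ker_toZMod,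
    PadicInt.maximalIdeal_eq_span_p, Ideal.mem_span_singleton] at h2
  exact h2

theorem exists_pk (h11 : 11 ≤ p) (k : ℕ) :
    ∃ c : ℤ_[p], (p : ℤ_[p]) ^ (min k 3) * c * k.factorial = (p : ℤ_[p]) ^ k := by
  obtain ⟨v, u, hu, hfac⟩ := Nat.exists_eq_pow_mul_and_not_dvd k.factorial_ne_zero p hp.out.ne_one
  have hv : v ≤ padicValNat p k.factorial :=
    (padicValNat_dvd_iff_le k.factorial_ne_zero).1 ⟨u, hfac⟩
  have h10 : 10 * v ≤ (p - 1) * padicValNat p k.factorial := Nat.mul_le_mul (by omega) hv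
  have hle : min k 3 + v ≤ k := by
    rcases Nat.eq_zero_or_pos k with rfl | hk
    · simp at h10; omega
    · have hlt := sub_one_mul_padicValNat_factorial_lt_of_ne_zero p (n := k) (by omega)
      omega
  obtain ⟨d, hd⟩ := Nat.exists_eq_add_of_le hle
  obtain ⟨w, hw⟩ := (isUnit_nat (p := p) hu).exists_left_inv
  refine ⟨(p : ℤ_[p]) ^ d * w, ?_⟩
  rw [hfac]
  conv_rhs => rw [hd]
  push_cast
  linear_combination ((p : ℤ_[p]) ^ (min k 3) * (p : ℤ_[p]) ^ d * (p : ℤ_[p]) ^ v) * hw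

theorem good_desc (b0 b1 b2 c : ℤ_[p]) (B' : Polynomial ℤ_[p]) (k : ℕ)
    (hc : (p : ℤ_[p]) ^ (min k 3) * c * k.factorial = (p : ℤ_[p]) ^ k) :
    ∃ (c1 c2 : ℤ_[p]) (B'' : Polynomial ℤ_[p]),
      (Polynomial.C b0 + Polynomial.C (p * b1) * Polynomial.X +
        Polynomial.C (p ^ 2 * b2) * Polynomial.X ^ 2 + Polynomial.C ((p : ℤ_[p]) ^ 3) * B') *
        (Polynomial.C ((p : ℤ_[p]) ^ (min k 3) * c) * descPochhammer ℤ_[p] k) =
      Polynomial.C (if k = 0 then b0 else 0) + Polynomial.C c1 * Polynomial.X +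
        Polynomial.C c2 * Polynomial.X ^ 2 + Polynomial.C ((p : ℤ_[p]) ^ 3) * B'' := by
  match k, hc with
  | 0, hc =>
    have : c = 1 := by simpa using hc
    exact ⟨p * b1, p ^ 2 * b2, B', by simp [this]⟩
  | 1, _ =>
    refine ⟨p * c * b0, p ^ 2 * c * b1, Polynomial.C c * (Polynomial.C b2 * Polynomial.X ^ 3 +
      Polynomial.C (p : ℤ_[p]) * B' * Polynomial.X), ?_⟩
    simp only [descPochhammer_one, map_mul, map_pow, one_ne_zero, if_false, map_zero,
      show min 1 3 = 1 from rfl]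
    ring
  | 2, _ =>
    refine ⟨-(p ^ 2 * c * b0), p ^ 2 * c * b0, Polynomial.C c * (Polynomial.C b1 * Polynomial.X +
      Polynomial.C (p * b2) * Polynomial.X ^ 2 + Polynomial.C ((p : ℤ_[p]) ^ 2) * B') *
        (Polynomial.X * (Polynomial.X - 1)), ?_⟩
    simp only [descPochhammer_succ_right, descPochhammer_zero, map_mul, map_pow, map_neg,
      OfNat.ofNat_ne_zero, if_false, map_zero, show min 2 3 = 2 from rfl]
    push_cast
    ring
  | k + 3, _ =>
    refine ⟨0, 0, (Polynomial.C b0 + Polynomial.C (p * b1) * Polynomial.X +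
        Polynomial.C (p ^ 2 * b2) * Polynomial.X ^ 2 + Polynomial.C ((p : ℤ_[p]) ^ 3) * B') *
        (Polynomial.C c * descPochhammer ℤ_[p] (k + 3)), ?_⟩
    rw [if_neg (by omega), show min (k + 3) 3 = 3 by omega]
    simp only [map_mul, map_zero]
    ring

theorem binom_rel (h : IsoData s κ l m) (n : ℕ) {e : R} {E E' : R⟦X⟧}
    (hE0 : constantCoeff E = 1) (hE : Dop (5 * e) E = C e * io p R l * E)
    (hE0' : constantCoeff E' = 1) (hE' : Dop (5 * (p * e)) E' = C (p * e) * io p R l * E')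
    {η : ℤ_[p]⟦X⟧} (hη : κ ^ p = expand p hp.out.ne_zero κ * (1 + p * η)) (hη0 : X ∣ η)
    {c : ℕ → ℤ_[p]} (hc : ∀ k, c k * k.factorial = (p : ℤ_[p]) ^ k) (i : ℕ) :
    X ^ (n + 1) ∣ E' * io p R s ^ (p * i) -
      expand p hp.out.ne_zero E * expand p hp.out.ne_zero (io p R s) ^ i *
        ∑ k ∈ range (n + 1), io p R (C (c k) * η ^ k) *
          C (Polynomial.aeval ((i : R) + e) (descPochhammer ℤ_[p] k)) := by
  have hp0 : (p : ℤ_[p]) ≠ 0 := by exact_mod_cast hp.out.ne_zero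
  have hcs : ∀ k : ℕ, ((k : ℤ_[p]) + 1) * c (k + 1) = p * c k := by
    intro k
    apply mul_right_cancel₀ (b := (k.factorial : ℤ_[p])) (by exact_mod_cast k.factorial_ne_zero)
    have h1 := hc (k + 1)
    rw [Nat.factorial_succ] at h1
    push_cast at h1
    linear_combination h1 - (p : ℤ_[p]) * hc k
  have hcs' : ∀ k : ℕ, ((k : R⟦X⟧) + 1) * io p R (C (c (k + 1))) = p * io p R (C (c k)) := by
    intro k
    have := congrArg (fun x => io p R (C x)) (hcs k)
    simpa only [map_mul, map_add, map_natCast, map_one] using this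
  have hc0 : c 0 = 1 := by simpa using hc 0
  have hG := binom_ode (η := (p : R⟦X⟧) * io p R η) (ηk := fun k => io p R (C (c k) * η ^ k))
    (d := fun k => Polynomial.aeval ((i : R) + e) (descPochhammer ℤ_[p] k)) (x := (i : R) + e)
    (by simp [hc0])
    (fun k => by
      simp only [map_mul, map_pow]
      linear_combination (io p R η ^ (k + 1)) * hcs' k)
    (fun k => by
      simp only [map_mul, map_pow]
      rw [th_mul, io_C, th_C, th_pow_succ, th_mul, th_natCast, ← io_C]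
      linear_combination (io p R η ^ k * th R (io p R η)) * hcs' k)
    (fun k => by simp [descPochhammer_succ_right]) n
  set Gs := ∑ k ∈ range (n + 1), io p R (C (c k) * η ^ k) *
    C (Polynomial.aeval ((i : R) + e) (descPochhammer ℤ_[p] k)) with hGs
  have hη0' : X ∣ io p R η := by simpa [io_X] using map_dvd (io p R) hη0
  have hG0 : constantCoeff Gs = 1 := by
    rw [hGs, map_sum, sum_range_succ']
    simp [X_dvd_iff.1 hη0', hc0]
  set K := io p R κ with hK
  set lam := io p R l - 5 with hlam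
  set σ := expand p hp.out.ne_zero (R := R) with hσ
  have hK0 : constantCoeff K = 1 := by rw [hK, constantCoeff_io, h.hκ, map_one]
  have hlam0 : X ∣ lam := by
    have := map_dvd (io p R) h.l5
    rwa [io_X, map_sub, map_ofNat] at this
  have tK : th R K = lam * K := by
    rw [hK, ← io_th, h.thκ]; simp only [map_mul, map_sub, map_ofNat, hlam]
  have tE : th R E = C e * lam * E := by
    rw [Dop] at hE
    simp only [map_mul, map_ofNat] at hE
    rw [hlam]; linear_combination hE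
  have tE' : th R E' = p * C e * lam * E' := by
    rw [Dop] at hE'
    simp only [map_mul, map_ofNat, map_natCast] at hE'
    rw [hlam]; linear_combination hE'
  have tσK : th R (σ K) = (p * σ lam) * σ K := by rw [hσ, th_expand, tK, map_mul]; ring
  have tσE : th R (σ E) = p * C e * σ lam * σ E := by
    rw [hσ, th_expand, tE, map_mul, map_mul, expand_C]; ring
  have hη' : K ^ p = σ K * (1 + p * io p R η) := by
    have := congrArg (io p R) hη
    simpa only [map_pow, map_mul, map_add, map_one, map_natCast, io_expand] using this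
  have huσ : IsUnit (σ K) := by
    rw [isUnit_iff_constantCoeff, hσ, constantCoeff_expand, hK0]; exact isUnit_one
  have huη : IsUnit (1 + p * io p R η) := by
    rw [isUnit_iff_constantCoeff]; simp [X_dvd_iff.1 hη0']
  have tη : th R (p * io p R η) = (1 + p * io p R η) * (p * (lam - σ lam)) := by
    have h1 := congrArg (th R) hη'
    rw [th_pow_of tK, th_mul, tσK, map_add, th_one, hη'] at h1
    apply huσ.mul_left_cancel
    linear_combination -h1
  have tG : X ^ (n + 1) ∣ th R Gs - C ((i : R) + e) * ((p : R⟦X⟧) * (lam - σ lam)) * Gs := by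
    rw [← huη.dvd_mul_left]
    have h1 : X ^ (n + 1) ∣ th R ((p : R⟦X⟧) * io p R η) * io p R (C (c n) * η ^ n) := by
      rw [pow_succ', map_mul (io p R), map_pow (io p R)]
      exact mul_dvd_mul (X_dvd_th _) ((pow_dvd_pow_of_dvd hη0' n).mul_left _)
    refine ((h1.mul_right _).mul_right _).trans (dvd_of_eq (hG.symm.trans ?_))
    rw [tη]; ring
  have key : X ^ (n + 1) ∣ E' * K ^ (p * i) - σ E * σ K ^ i * Gs := by
    refine uniq1 (h := (p : R⟦X⟧) * C ((i : R) + e) * lam) ?_ (hlam0.mul_left _) ?_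
    · rw [X_dvd_iff]
      simp [hσ, hE0, hE0', hK0, hG0]
    · rw [map_sub, th_mul, th_mul, th_mul, tE', tσE, th_pow_of tK, th_pow_of tσK]
      refine (tG.mul_left (-(σ E * σ K ^ i))).trans (dvd_of_eq ?_)
      simp only [map_add, map_natCast]
      push_cast
      ring
  have hs : io p R s = X ^ 5 * K := by rw [h.hs, map_mul, map_pow, io_X]
  refine (key.mul_left (X ^ (5 * (p * i)))).trans (dvd_of_eq ?_)
  rw [hs, map_mul, map_pow, hσ, expand_X]
  ring

/-- truncated generating polynomial -/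
noncomputable def PP {B : Type*} [CommRing B] (p : ℕ) (b : ℕ → B) (z : B) : B :=
  ∑ a ∈ range p, b a * z ^ a

theorem star_trunc (h11 : 11 ≤ p) (h : IsoData s κ l m) {b0 b1 b2 : ℕ → ℤ_[p]}
    (hb : ∀ a < p, ∃ g : Polynomial ℤ_[p], Num a Polynomial.X = Den a Polynomial.X *
      (Polynomial.C (b0 a) + Polynomial.C (b1 a) * Polynomial.X +
        Polynomial.C (b2 a) * Polynomial.X ^ 2) + Polynomial.X ^ 3 * g)
    {ε : R} (hε : ε ^ 3 = 0) (hind : ∀ a b c : ℤ_[p], algebraMap ℤ_[p] R a +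
      algebraMap ℤ_[p] R b * ε + algebraMap ℤ_[p] R c * ε ^ 2 = 0 → a = 0 ∧ b = 0 ∧ c = 0)
    (n : ℕ) : ∃ x : ℤ_[p]⟦X⟧, X ^ (n + 1) ∣ m * PP p (fun a => C (b0 a)) s -
      (PP p (fun a => C (b0 a)) X * expand p hp.out.ne_zero m +
      (p : ℤ_[p]⟦X⟧) * PP p (fun a => C (b1 a)) X * expand p hp.out.ne_zero (th _ m) +
      (p : ℤ_[p]⟦X⟧) ^ 2 * PP p (fun a => C (b2 a)) X * expand p hp.out.ne_zero (th _ (th _ m))) -
      C ((p : ℤ_[p]) ^ 3) * x := by
  have hε5 : (5 * ε) ^ 3 = 0 := by rw [mul_pow, hε, mul_zero]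
  have hεp : ((p : R) * ε) ^ 3 = 0 := by rw [mul_pow, hε, mul_zero]
  obtain ⟨E, hE0, hE⟩ := h.exE hε
  obtain ⟨E', hE0', hE'⟩ := h.exE hεp
  have hs0 : constantCoeff (io p R s) = 0 := by rw [constantCoeff_io, h.s0, map_zero]
  have hS' : th R (io p R s) = io p R l * io p R s := by rw [← io_th, h.hl, map_mul]
  set β : ℕ → Polynomial ℤ_[p] := fun a => Polynomial.C (b0 a) +
    Polynomial.C (p * b1 a) * Polynomial.X + Polynomial.C (p ^ 2 * b2 a) * Polynomial.X ^ 2 with hβ
  have hF : ∀ lam : R, lam ^ 3 = 0 → ∃ B' : ℕ → Polynomial ℤ_[p], ∀ a < p, ∀ i ≤ n + 1,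
      aa (p * i + a) ((p : R) * lam) = Polynomial.aeval ((i : R) + lam)
        (β a + Polynomial.C ((p : ℤ_[p]) ^ 3) * B' a) * aa i lam := by
    intro lam hlam
    have : ∀ a, ∃ B' : Polynomial ℤ_[p], a < p → ∀ i ≤ n + 1,
        aa (p * i + a) ((p : R) * lam) = Polynomial.aeval ((i : R) + lam)
          (β a + Polynomial.C ((p : ℤ_[p]) ^ 3) * B') * aa i lam := by
      intro a
      by_cases ha : a < p
      · obtain ⟨g, hg⟩ := hb a ha
        obtain ⟨B', hB'⟩ := frob_coeff h11 hlam (n + 1) ha hg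
        exact ⟨B', fun _ => hB'⟩
      · exact ⟨0, fun h => absurd h ha⟩
    choose B' hB' using this
    exact ⟨B', hB'⟩
  set Z0 := TT (p := p) (n + 1) ε E (io p R s) 1 with hZ0
  set Z1 := TT (p := p) (n + 1) ε E (io p R s) Polynomial.X with hZ1
  set Z2 := TT (p := p) (n + 1) ε E (io p R s) (Polynomial.X ^ 2) with hZ2
  set σ := expand p hp.out.ne_zero (R := R) with hσ
  set τ := expand p hp.out.ne_zero (R := ℤ_[p]) with hτ
  set Y := TT (p := p) (n + 1) (p * (5 * ε)) 1 X 1 with hY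
  -- first expression
  have side1 : ∃ x : ℕ → ℤ_[p]⟦X⟧, InM (n + 1) (σ Z0) (σ Z1) (σ Z2)
      (∑ a ∈ range p, X ^ a * τ (C (b0 a) * m + C (p * b1 a) * th _ m +
        C (p ^ 2 * b2 a) * th _ (th _ m) + C ((p : ℤ_[p]) ^ 3) * x a)) Y := by
    obtain ⟨B', hB'⟩ := hF (5 * ε) hε5
    have hD := Dop_TT (p := p) (n + 1) hS' hE
    have hD' := Dop_TT (p := p) (n + 1) (S := X) (L := 1) (by rw [th_X, one_mul]) (Dop_one (5 * ε))
    have i0 := iso_rel h n hε hE0 hE
    have i1 := dvd_Dop (5 * ε) i0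
    rw [Dop_sub, hD', Dop_mul, hD, mul_one, one_mul, ← hZ0, ← hZ1] at i1
    have i2 := dvd_Dop (5 * ε) i1
    rw [Dop_sub, hD', Dop_add, Dop_mul, Dop_mul, Dop_mul, hD, hD, mul_one, one_mul, ← sq,
      ← hZ1, ← hZ2] at i2
    have m0 : InM (n + 1) Z0 Z1 Z2 m (TT (p := p) (n + 1) (5 * ε) 1 X 1) :=
      ⟨0, 0, by simpa using i0⟩
    have m1 : InM (n + 1) Z0 Z1 Z2 (th _ m) (TT (p := p) (n + 1) (5 * ε) 1 X Polynomial.X) :=
      ⟨m * l, 0, i1.trans (dvd_of_eq (by simp only [io_th, map_mul, map_zero]; ring))⟩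
    have m2 : InM (n + 1) Z0 Z1 Z2 (th _ (th _ m))
        (TT (p := p) (n + 1) (5 * ε) 1 X (Polynomial.X ^ 2)) :=
      ⟨2 * th _ m * l + m * th _ l, m * l * l, i2.trans (dvd_of_eq (by
        simp only [io_th, map_mul, map_add, map_ofNat]; ring))⟩
    have hlat : ∀ B : Polynomial ℤ_[p], ∃ x : ℤ_[p]⟦X⟧,
        InM (n + 1) Z0 Z1 Z2 x (TT (n + 1) (5 * ε) 1 X B) := by
      intro B
      obtain ⟨x, hx⟩ := lat_TT (p := p) (n + 1) (μ := 5 * ε) hε5 (E := 1) (g := X) (l := 1)
        constantCoeff_X isUnit_one (by rw [th_X, one_mul]) (by rw [map_one]; exact Dop_one _) B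
      rw [io_X] at hx
      exact InM.trans m0 m1 m2 hx
    choose x hx using fun a => good_TT (n + 1) (5 * ε) 1 X m0 m1 m2 hlat (b0 a) (p * b1 a)
      (p ^ 2 * b2 a) (B' a)
    refine ⟨x, (InM.sum (range p) fun a _ => (hx a).expand.smul (X ^ a)).congr rfl ?_⟩
    refine (frob_sum (n + 1) 1 (dvd_refl X) hB').trans (dvd_of_eq ?_)
    congr 1
    refine sum_congr rfl fun a _ => ?_
    rw [expand_TT, map_pow (io p R), io_X, map_one, expand_X]
    simp only [← pow_mul, hβ]
  -- second expression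
  have side2 : ∃ x : ℕ → ℤ_[p]⟦X⟧, InM (n + 1) (σ Z0) (σ Z1) (σ Z2)
      (m * ∑ a ∈ range p, s ^ a * (C (b0 a) + C ((p : ℤ_[p]) ^ 3) * x a)) Y := by
    obtain ⟨B', hB'⟩ := hF ε hε
    have i0 := iso_rel h n hεp hE0' hE'
    rw [show 5 * ((p : R) * ε) = p * (5 * ε) by ring, ← hY] at i0
    have huκ : IsUnit (τ κ) := by
      rw [isUnit_iff_constantCoeff, hτ, constantCoeff_expand, h.hκ]; exact isUnit_one
    obtain ⟨v, hv⟩ := huκ.exists_right_inv
    obtain ⟨w, hw⟩ := frobenius_dvd κ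
    have hη : κ ^ p = τ κ * (1 + p * (w * v)) := by linear_combination hw - p * w * hv
    have hη0 : X ∣ w * v := by
      refine Dvd.dvd.mul_right ?_ _
      have := congrArg constantCoeff hw
      rw [map_sub, map_pow, constantCoeff_expand, h.hκ, map_mul, map_natCast, one_pow,
        sub_self] at this
      rw [X_dvd_iff]
      exact (mul_eq_zero.1 this.symm).resolve_left (by exact_mod_cast hp.out.ne_zero)
    choose c hc using exists_pk (p := p) h11
    have hbin := binom_rel h n hE0 hE hE0' hE' hη hη0 hc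
    have hlat := lat_TT (p := p) (n + 1) hε h.s0 (h.lu (by omega)) h.hl hE
    have hk : ∀ a k, ∃ x : ℤ_[p]⟦X⟧, InM (n + 1) Z0 Z1 Z2
        (C (if k = 0 then b0 a else 0) + C ((p : ℤ_[p]) ^ 3) * x)
        (TT (n + 1) ε E (io p R s) ((β a + Polynomial.C ((p : ℤ_[p]) ^ 3) * B' a) *
          (Polynomial.C ((p : ℤ_[p]) ^ (min k 3) * c k) * descPochhammer ℤ_[p] k))) := by
      intro a k
      obtain ⟨c1, c2, B'', hB''⟩ := good_desc (b0 a) (b1 a) (b2 a) (c k) (B' a) k (hc k)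
      obtain ⟨x, hx⟩ := good_TT (n + 1) ε E (io p R s) InM.z0 InM.z1 InM.z2 hlat
        (if k = 0 then b0 a else 0) c1 c2 B''
      exact ⟨x, hx.congr' (by ring) (by rw [← hB''])⟩
    choose x hx using hk
    refine ⟨fun a => ∑ k ∈ range (n + 1), (w * v) ^ k * τ (x a k), ((InM.sum (range p) fun a _ =>
      (InM.sum (range (n + 1)) fun k _ => (hx a k).expand.smul ((w * v) ^ k)).smul
        (s ^ a)).smul m).congr ?_ ?_⟩
    · congr 1
      refine sum_congr rfl fun a _ => ?_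
      congr 1
      simp only [map_add, map_mul, expand_C, mul_add, sum_add_distrib, mul_sum]
      congr 1
      · rw [sum_range_succ']; simp
      · exact sum_congr rfl fun k _ => by rw [hτ]; ring
    · have f1 := frob_sum (n + 1) E' (X_dvd_iff.2 hs0) hB'
      have f2 : X ^ (n + 1) ∣ ∑ a ∈ range p, io p R s ^ a * ∑ i ∈ range (n + 1),
          C (Polynomial.aeval ((i : R) + ε) (β a + Polynomial.C ((p : ℤ_[p]) ^ 3) * B' a) *
            aa i ε) * (E' * io p R s ^ (p * i) - σ E * σ (io p R s) ^ i *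
            ∑ k ∈ range (n + 1), io p R (C ((p : ℤ_[p]) ^ (min k 3) * c k) * (w * v) ^ k) *
              C (Polynomial.aeval ((i : R) + ε) (descPochhammer ℤ_[p] k))) :=
        dvd_sum fun a _ => Dvd.dvd.mul_left (dvd_sum fun i _ => (hbin i).mul_left _) _
      refine (dvd_add i0 ((dvd_add f1 f2).mul_left (io p R m))).trans (dvd_of_eq ?_)
      have f3 : ∀ a, ∑ k ∈ range (n + 1), io p R ((w * v) ^ k) * expand p hp.out.ne_zero
          (TT (n + 1) ε E (io p R s) ((β a + Polynomial.C ((p : ℤ_[p]) ^ 3) * B' a) *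
          (Polynomial.C ((p : ℤ_[p]) ^ (min k 3) * c k) * descPochhammer ℤ_[p] k))) =
          ∑ i ∈ range (n + 1),
          C (Polynomial.aeval ((i : R) + ε) (β a + Polynomial.C ((p : ℤ_[p]) ^ 3) * B' a) *
            aa i ε) * (σ E * σ (io p R s) ^ i *
            ∑ k ∈ range (n + 1), io p R (C ((p : ℤ_[p]) ^ (min k 3) * c k) * (w * v) ^ k) *
              C (Polynomial.aeval ((i : R) + ε) (descPochhammer ℤ_[p] k))) := by
        intro a
        simp only [expand_TT, mul_sum]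
        rw [sum_comm]
        refine sum_congr rfl fun i _ => sum_congr rfl fun k _ => ?_
        generalize β a + Polynomial.C ((p : ℤ_[p]) ^ 3) * B' a = B
        generalize (p : ℤ_[p]) ^ (min k 3) * c k = ck
        simp only [map_mul, Polynomial.aeval_C, io_C, hσ]
        ring
      simp only [f3]
      simp only [mul_sub, mul_add, sum_sub_distrib, map_pow (io p R) s]
      ring
  obtain ⟨x, hx⟩ := side1
  obtain ⟨y, hy⟩ := side2
  have := InM.extract hind
    (by rw [hσ, constantCoeff_expand, hZ0, constantCoeff_TT _ hE0 hs0, map_one])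
    (by rw [hσ, constantCoeff_expand, hZ1, constantCoeff_TT _ hE0 hs0, Polynomial.aeval_X])
    (by rw [hσ, constantCoeff_expand, hZ2, constantCoeff_TT _ hE0 hs0, map_pow,
      Polynomial.aeval_X]) hy hx
  refine ⟨∑ a ∈ range p, X ^ a * τ (x a) - m * ∑ a ∈ range p, s ^ a * y a,
    this.trans (dvd_of_eq ?_)⟩
  simp only [PP, map_add, map_mul, hτ, expand_C, map_pow, map_natCast, mul_sum, sum_mul, mul_sub,
    ← sum_add_distrib, ← sum_sub_distrib]
  exact sum_congr rfl fun a _ => by ring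

theorem star (h11 : 11 ≤ p) (h : IsoData s κ l m) {b0 b1 b2 : ℕ → ℤ_[p]}
    (hb : ∀ a < p, ∃ g : Polynomial ℤ_[p], Num a Polynomial.X = Den a Polynomial.X *
      (Polynomial.C (b0 a) + Polynomial.C (b1 a) * Polynomial.X +
        Polynomial.C (b2 a) * Polynomial.X ^ 2) + Polynomial.X ^ 3 * g) :
    C ((p : ℤ_[p]) ^ 3) ∣ m * PP p (fun a => C (b0 a)) s -
      (PP p (fun a => C (b0 a)) X * expand p hp.out.ne_zero m +
      (p : ℤ_[p]⟦X⟧) * PP p (fun a => C (b1 a)) X * expand p hp.out.ne_zero (th _ m) +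
      (p : ℤ_[p]⟦X⟧) ^ 2 * PP p (fun a => C (b2 a)) X * expand p hp.out.ne_zero (th _ (th _ m))) := by
  set f : Polynomial ℚ_[p] := Polynomial.X ^ 3 with hf
  have hε : (AdjoinRoot.root f) ^ 3 = 0 := by
    rw [← AdjoinRoot.mk_X, ← map_pow, ← hf, AdjoinRoot.mk_self]
  have hind : ∀ a b c : ℤ_[p], algebraMap ℤ_[p] (AdjoinRoot f) a +
      algebraMap ℤ_[p] (AdjoinRoot f) b * AdjoinRoot.root f +
      algebraMap ℤ_[p] (AdjoinRoot f) c * AdjoinRoot.root f ^ 2 = 0 → a = 0 ∧ b = 0 ∧ c = 0 := by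
    intro a b c habc
    have h1 : AdjoinRoot.mk f (Polynomial.C (a : ℚ_[p]) + Polynomial.C (b : ℚ_[p]) * Polynomial.X +
        Polynomial.C (c : ℚ_[p]) * Polynomial.X ^ 2) = 0 := by
      rw [← habc]
      simp only [map_add, map_mul, map_pow, AdjoinRoot.mk_X, AdjoinRoot.mk_C]
      rfl
    rw [AdjoinRoot.mk_eq_zero, hf, Polynomial.X_pow_dvd_iff] at h1
    have h0 := h1 0 (by omega)
    have h2 := h1 2 (by omega)
    have h1 := h1 1 (by omega)
    simp [Polynomial.coeff_X, Polynomial.coeff_C, Polynomial.coeff_X_pow] at h0 h1 h2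
    exact ⟨h0, h1, h2⟩
  refine C_dvd_of_coeff fun k => ?_
  obtain ⟨x, hx⟩ := star_trunc h11 h hb hε hind k
  have := X_pow_dvd_iff.1 hx k (by omega)
  rw [map_sub, sub_eq_zero, coeff_C_mul] at this
  exact ⟨_, this⟩

end Pool.Agent.Lib.MP_bdc5f5_nt
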