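import Pool.Agent.Lib.MP_bdc5f5_nt.Interp

/-!
The Euler derivation on power series and uniqueness lemmas.
-/

namespace Pool.Agent.Lib.MP_bdc5f5_nt

open Finset PowerSeries

variable {A A' : Type*} [CommRing A] [CommRing A']

/-- the Euler derivation `X d/dX` -/
noncomputable def th (A : Type*) [CommRing A] : Derivation A A⟦X⟧ A⟦X⟧ :=
  (X : A⟦X⟧) • PowerSeries.derivative A

theorem th_apply (f : A⟦X⟧) : th A f = X * PowerSeries.derivative A f := rfl

theorem coeff_th (f : A⟦X⟧) (n : ℕ) : coeff n (th A f) = (n : A) * coeff n f := by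
  rw [th_apply]
  cases n with
  | zero => simp
  | succ n => rw [coeff_succ_X_mul, coeff_derivative]; push_cast; ring

theorem th_mul (f g : A⟦X⟧) : th A (f * g) = th A f * g + f * th A g := by
  rw [Derivation.leibniz, smul_eq_mul, smul_eq_mul]; ring

theorem th_C (a : A) : th A (C a) = 0 := by simp [th_apply]

theorem th_X : th A X = X := by simp [th_apply]

theorem th_one : th A 1 = 0 := Derivation.map_one_eq_zero _

theorem th_natCast (k : ℕ) : th A (k : A⟦X⟧) = 0 := Derivation.map_natCast _ _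

theorem th_ofNat (k : ℕ) [k.AtLeastTwo] : th A (OfNat.ofNat k : A⟦X⟧) = 0 :=
  Derivation.map_natCast _ _

theorem th_pow_succ (f : A⟦X⟧) (k : ℕ) : th A (f ^ (k + 1)) = ((k : A⟦X⟧) + 1) * f ^ k * th A f := by
  induction k with
  | zero => simp
  | succ k ih => rw [pow_succ, th_mul, ih]; push_cast; ring

theorem th_pow_of {f l : A⟦X⟧} (h : th A f = l * f) (k : ℕ) :
    th A (f ^ k) = (k : A⟦X⟧) * l * f ^ k := by
  cases k with
  | zero => simp
  | succ k => rw [th_pow_succ, h]; push_cast; ring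

theorem map_th (φ : A →+* A') (f : A⟦X⟧) : map φ (th A f) = th A' (map φ f) := by
  ext n; simp [coeff_th]

theorem th_expand {p : ℕ} (hp : p ≠ 0) (f : A⟦X⟧) :
    th A (expand p hp f) = (p : A⟦X⟧) * expand p hp (th A f) := by
  ext n
  rw [← map_natCast (C (R := A)), coeff_C_mul, coeff_th, coeff_expand, coeff_expand]
  split_ifs with h
  · obtain ⟨k, rfl⟩ := h
    rw [coeff_th, Nat.mul_div_cancel_left _ (Nat.pos_of_ne_zero hp)]
    push_cast; ring
  · simp

theorem dvd_th {n : ℕ} {f : A⟦X⟧} (h : X ^ n ∣ f) : X ^ n ∣ th A f := by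
  rw [X_pow_dvd_iff] at h ⊢
  intro m hm; rw [coeff_th, h m hm, mul_zero]

theorem X_dvd_th (f : A⟦X⟧) : X ∣ th A f := ⟨_, th_apply f⟩

theorem dvd_expand {p : ℕ} (hp : p ≠ 0) {n : ℕ} {f : A⟦X⟧} (h : X ^ n ∣ f) :
    X ^ n ∣ expand p hp f := by
  have := map_dvd (expand p hp (R := A)) h
  rw [map_pow, expand_X, ← pow_mul] at this
  exact (pow_dvd_pow _ (Nat.le_mul_of_pos_left _ (Nat.pos_of_ne_zero hp))).trans this

/-- the twisted Euler operator -/
noncomputable def Dop (μ : A) (f : A⟦X⟧) : A⟦X⟧ := th A f + C μ * f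

theorem Dop_mul (μ : A) (g f : A⟦X⟧) : Dop μ (g * f) = th A g * f + g * Dop μ f := by
  simp only [Dop, th_mul]; ring

theorem Dop_add (μ : A) (g f : A⟦X⟧) : Dop μ (g + f) = Dop μ g + Dop μ f := by
  simp only [Dop, map_add]; ring

theorem Dop_sub (μ : A) (g f : A⟦X⟧) : Dop μ (g - f) = Dop μ g - Dop μ f := by
  simp only [Dop, map_sub]; ring

theorem coeff_Dop (μ : A) (f : A⟦X⟧) (n : ℕ) : coeff n (Dop μ f) = ((n : A) + μ) * coeff n f := by
  rw [Dop, map_add, coeff_th, coeff_C_mul]; ring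

theorem dvd_Dop (μ : A) {n : ℕ} {f : A⟦X⟧} (h : X ^ n ∣ f) : X ^ n ∣ Dop μ f :=
  dvd_add (dvd_th h) (h.mul_left _)

theorem uniq_aux {n : ℕ} {f : A⟦X⟧} (h0 : X ∣ f)
    (h : ∀ k, k + 1 < n → X ^ (k + 1) ∣ f → coeff (k + 1) f = 0) : X ^ n ∣ f := by
  have : ∀ k, k + 1 ≤ n → X ^ (k + 1) ∣ f := by
    intro k
    induction k with
    | zero => intro _; simpa using h0
    | succ k ih =>
      intro hk
      have h1 := ih (by omega)
      have h2 := h k (by omega) h1
      rw [X_pow_dvd_iff] at h1 ⊢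
      intro m hm
      rcases Nat.lt_succ_iff_lt_or_eq.1 hm with hm | rfl
      · exact h1 m hm
      · exact h2
  cases n with
  | zero => simp
  | succ n => exact this n le_rfl

theorem coeff_eq_zero_of_dvd {n k : ℕ} {f g : A⟦X⟧} (hk : k < n) (h : X ^ n ∣ f - X * g)
    (hg : X ^ k ∣ g) : coeff k f = 0 := by
  have h1 : X ^ (k + 1) ∣ f - X * g := (pow_dvd_pow _ hk).trans h
  have h2 : X ^ (k + 1) ∣ X * g := by rw [pow_succ']; exact mul_dvd_mul_left _ hg
  have h3 : X ^ (k + 1) ∣ f := by simpa using dvd_add h1 h2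
  exact X_pow_dvd_iff.1 h3 k (by omega)

section Q
variable [Algebra ℚ A]

theorem uniq1 {n : ℕ} {f h : A⟦X⟧} (h0 : X ∣ f) (hh : X ∣ h) (H : X ^ n ∣ th A f - h * f) :
    X ^ n ∣ f := by
  obtain ⟨h', rfl⟩ := hh
  refine uniq_aux h0 fun k hk hf => ?_
  have := coeff_eq_zero_of_dvd hk (g := h' * f) (by rwa [← mul_assoc]) (hf.mul_left _)
  rw [coeff_th] at this
  have hu := isUnit_succ_add (R := A) (lam := 0) (by simp) k
  rw [zero_add] at hu
  exact hu.mul_right_eq_zero.1 this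

theorem uniq3 {n : ℕ} {μ : A} (hμ : μ ^ 3 = 0) {f : A⟦X⟧} (h0 : X ∣ f)
    (H : X ^ n ∣ Dop μ (Dop μ (Dop μ f)) - X * (256 * Dop μ (Dop μ (Dop μ f)) +
      384 * Dop μ (Dop μ f) + 176 * Dop μ f + 24 * f)) : X ^ n ∣ f := by
  refine uniq_aux h0 fun k hk hf => ?_
  have h1 := dvd_Dop μ hf
  have h2 := dvd_Dop μ h1
  have h3 := dvd_Dop μ h2
  have := coeff_eq_zero_of_dvd hk H (dvd_add (dvd_add (dvd_add (h3.mul_left _) (h2.mul_left _))
    (h1.mul_left _)) (hf.mul_left _))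
  simp only [coeff_Dop] at this
  have hu := isUnit_succ_add (R := A) hμ k
  rw [add_comm] at hu
  exact hu.mul_right_eq_zero.1 (hu.mul_right_eq_zero.1 (hu.mul_right_eq_zero.1 this))

theorem exists_E {l : A⟦X⟧} (hl : X ∣ l) {e : A} (he : e ^ 3 = 0) :
    ∃ E : A⟦X⟧, constantCoeff E = 1 ∧ th A E = C e * l * E := by
  set L : A⟦X⟧ := mk fun k => algebraMap ℚ A (1 / k) * coeff k l with hL
  have h1 : th A L = l := by
    ext k
    rw [coeff_th, hL, coeff_mk]
    cases k with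
    | zero => simpa using (X_dvd_iff.1 hl).symm
    | succ k =>
      rw [← mul_assoc, ← map_natCast (algebraMap ℚ A), ← map_mul,
        mul_one_div_cancel (by positivity), map_one, one_mul]
  have h2 : constantCoeff L = 0 := by
    rw [← coeff_zero_eq_constantCoeff_apply, hL, coeff_mk]; simp
  set c : A := algebraMap ℚ A (1 / 2) with hc
  have hc2 : (C c : A⟦X⟧) * 2 = 1 := by
    rw [← map_ofNat (C (R := A)) 2, ← map_mul, ← map_ofNat (algebraMap ℚ A) 2, hc, ← map_mul]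
    norm_num
  have he' : (C e : A⟦X⟧) ^ 3 = 0 := by rw [← map_pow, he, map_zero]
  refine ⟨1 + C e * L + C c * C e * C e * (L * L), by simp [h2], ?_⟩
  simp only [map_add, th_mul, th_C, th_one, h1]
  linear_combination (C e ^ 2 * L * l) * hc2 - (C c * L ^ 2 * l) * he'

end Q

theorem binom_ode {η : A⟦X⟧} {ηk : ℕ → A⟦X⟧} {d : ℕ → A} {x : A} (h0 : ηk 0 = 1)
    (h1 : ∀ k : ℕ, ((k : A⟦X⟧) + 1) * ηk (k + 1) = η * ηk k)
    (h2 : ∀ k, th A (ηk (k + 1)) = ηk k * th A η) (hd : ∀ k, d (k + 1) = d k * (x - k)) (n : ℕ) :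
    (1 + η) * th A (∑ k ∈ range (n + 1), ηk k * C (d k)) -
      C x * th A η * ∑ k ∈ range (n + 1), ηk k * C (d k) =
      th A η * ηk n * C (d n) * ((n : A⟦X⟧) - C x) := by
  induction n with
  | zero => simp [h0, th_C]; ring
  | succ n ih =>
    rw [sum_range_succ, map_add, th_mul, th_C, h2, hd, map_mul, map_sub, map_natCast]
    push_cast
    linear_combination ih - th A η * C (d n) * (C x - n) * h1 n

theorem C_dvd_of_coeff {c : A} {f : A⟦X⟧} (h : ∀ k, c ∣ coeff k f) : C c ∣ f := by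
  choose g hg using h
  exact ⟨mk g, by ext k; rw [coeff_C_mul, coeff_mk, hg]⟩

theorem exists_fixed (F : A⟦X⟧ → A⟦X⟧)
    (hF : ∀ (k : ℕ) a b, X ^ k ∣ a - b → X ^ (k + 1) ∣ F a - F b) : ∃ u, F u = u := by
  have h1 : ∀ k, X ^ k ∣ F^[k + 1] 0 - F^[k] 0 := by
    intro k
    induction k with
    | zero => simp
    | succ k ih =>
      rw [Function.iterate_succ_apply' F (k + 1), Function.iterate_succ_apply' F k]
      rw [Function.iterate_succ_apply' F k] at ih
      exact hF _ _ _ ih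
  have h2 : ∀ k j, X ^ k ∣ F^[k + j] 0 - F^[k] 0 := by
    intro k j
    induction j with
    | zero => simp
    | succ j ih =>
      have := dvd_add ((pow_dvd_pow X (Nat.le_add_right k j)).trans (h1 (k + j))) ih
      simpa [add_assoc] using this
  set u : A⟦X⟧ := mk fun k => coeff k (F^[k + 1] 0) with hu
  have h3 : ∀ k, X ^ k ∣ u - F^[k] 0 := by
    intro k
    rw [X_pow_dvd_iff]
    intro m hm
    obtain ⟨j, rfl⟩ := Nat.exists_eq_add_of_le (Nat.succ_le_of_lt hm)
    have := X_pow_dvd_iff.1 (h2 (m + 1) j) m (by omega)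
    rw [map_sub] at this ⊢
    rw [hu, coeff_mk]
    linear_combination -this
  refine ⟨u, ?_⟩
  ext k
  have h4 := hF k _ _ (h3 k)
  rw [← Function.iterate_succ_apply' F k] at h4
  have := X_pow_dvd_iff.1 h4 k (by omega)
  rw [map_sub, sub_eq_zero] at this
  rw [this, hu, coeff_mk]

end Pool.Agent.Lib.MP_bdc5f5_nt
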