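import Pool.Agent.Lib.MP_bdc5f5_nt.Iso

/-!
Modulo the cube of `p` the Frobenius lift is a rational function on the parametrising line, so
the comparison identity can be moved from one cusp to another one.
-/

namespace Pool.Agent.Lib.MP_bdc5f5_nt

open Finset

section
variable {B B' : Type*} [CommRing B] [CommRing B'] {p : ℕ}

def pD1 (x : B) : B := 106 + 8750 * x + 262500 * x ^ 2 + 3437500 * x ^ 3 + 19531250 * x ^ 4 +
  58593750 * x ^ 5
def pD2 (x : B) : B := 4375 + 262500 * x + 5156250 * x ^ 2 + 39062500 * x ^ 3 + 146484375 * x ^ 4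
def pAll (x : B) : B := pV x * pW x * pQ x * pC x
def hk0 (p : ℕ) (x : B) : B := x ^ p * (pD x ^ p - pD (x ^ p))
def hk1 (p : ℕ) (x : B) : B := pD x ^ p - x ^ p * pD1 (x ^ p)
def hk2 (p : ℕ) (x : B) : B := -(x ^ p * pD2 (x ^ p))
noncomputable def hatF (p : ℕ) (x : B) : B :=
  x ^ p - (hk1 p x ^ 2 * hk0 p x + hk2 p x * hk0 p x ^ 2) * Ring.inverse (hk1 p x) ^ 3

section maps
variable {F : Type*} [FunLike F B B'] [RingHomClass F B B'] (f : F) (x : B)
theorem map_pAll : f (pAll x) = pAll (f x) := by simp [pAll, map_pV, map_pW, map_pQ, map_pC]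
theorem map_pD1 : f (pD1 x) = pD1 (f x) := by simp [pD1, map_ofNat]
theorem map_pD2 : f (pD2 x) = pD2 (f x) := by simp [pD2, map_ofNat]
theorem map_hk0 : f (hk0 p x) = hk0 p (f x) := by simp [hk0, map_pD]
theorem map_hk1 : f (hk1 p x) = hk1 p (f x) := by simp [hk1, map_pD, map_pD1]
theorem map_hk2 : f (hk2 p x) = hk2 p (f x) := by simp [hk2, map_pD2]
theorem map_hatF (h : IsUnit (hk1 p x)) : f (hatF p x) = hatF p (f x) := by
  simp [hatF, map_rinv f h, map_hk0, map_hk1, map_hk2]
theorem map_PP (b : ℕ → B) : f (PP p b x) = PP p (fun a => f (b a)) (f x) := by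
  simp [PP]
end maps

theorem frob_poly [hp : Fact p.Prime] (P : Polynomial ℤ) (x : B) :
    (p : B) ∣ Polynomial.aeval x P ^ p - Polynomial.aeval (x ^ p) P := by
  have h1 : Polynomial.C (p : ℤ) ∣ P ^ p - Polynomial.expand ℤ p P := by
    have : (P ^ p - Polynomial.expand ℤ p P).map (Int.castRingHom (ZMod p)) = 0 := by
      rw [Polynomial.map_sub, Polynomial.map_pow, Polynomial.map_expand, ZMod.expand_card, sub_self]
    rw [Polynomial.C_dvd_iff_dvd_coeff]
    intro i
    have h2 := congrArg (fun q => Polynomial.coeff q i) this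
    simp only [Polynomial.coeff_map, Polynomial.coeff_zero, eq_intCast] at h2
    exact (ZMod.intCast_zmod_eq_zero_iff_dvd _ p).1 h2
  have := map_dvd (Polynomial.aeval x) h1
  simpa using this

theorem frob_pD [Fact p.Prime] (x : B) : (p : B) ∣ pD x ^ p - pD (x ^ p) := by
  simpa only [map_pD, Polynomial.aeval_X] using frob_poly (p := p) (pD Polynomial.X) x

theorem frob_pAll [Fact p.Prime] (x : B) : (p : B) ∣ pAll x ^ p - pAll (x ^ p) := by
  simpa only [map_pAll, Polynomial.aeval_X] using frob_poly (p := p) (pAll Polynomial.X) x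

theorem sub_dvd_pAll (x y : B) : x - y ∣ pAll x - pAll y := by
  have := Polynomial.sub_dvd_eval_sub x y (pAll Polynomial.X)
  have h := fun z : B => map_pAll (Polynomial.evalRingHom z) Polynomial.X
  simp only [Polynomial.coe_evalRingHom, Polynomial.eval_X] at h
  rwa [h, h] at this

theorem unit_of_dvd (hp3 : (p : B) ^ 3 = 0) {a b : B} (ha : IsUnit a) (h : (p : B) ∣ b - a) :
    IsUnit b := by
  obtain ⟨c, hc⟩ := h
  have : IsNilpotent ((p : B) * c) := ⟨3, by rw [mul_pow, hp3, zero_mul]⟩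
  have := this.isUnit_add_left_of_commute ha (Commute.all _ _)
  rwa [← hc, add_sub_cancel] at this

theorem ok_of_all {x : B} (h : IsUnit (pAll x)) : Ok x := by
  simp only [pAll, IsUnit.mul_iff] at h
  exact ⟨h.1.1.2, h.1.2, h.2⟩

theorem unitD_of_all {x : B} (h : IsUnit (pAll x)) : IsUnit (pD x) := by
  simp only [pAll, IsUnit.mul_iff] at h
  exact (h.1.1.1.pow 4).mul h.1.2

variable [Fact p.Prime] {x y : B}

theorem unit_all_pow (hp3 : (p : B) ^ 3 = 0) (h : IsUnit (pAll x)) : IsUnit (pAll (x ^ p)) :=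
  unit_of_dvd hp3 (h.pow p) (dvd_sub_comm.1 (frob_pAll x))

theorem unit_hk1 (hp3 : (p : B) ^ 3 = 0) (h : IsUnit (pAll x)) : IsUnit (hk1 p x) := by
  have h1 := unit_all_pow hp3 h
  simp only [pAll, IsUnit.mul_iff] at h1
  refine unit_of_dvd hp3 ((h1.1.1.1.pow 3).mul h1.2) ((frob_pD x).trans (dvd_of_eq ?_))
  have : ∀ z : B, pD z - z * pD1 z = pV z ^ 3 * pC z := by
    intro z; simp only [pD, pD1, pV, pQ, pC]; ring
  rw [hk1, ← this]; ring

theorem hat_cong (x : B) : (p : B) ∣ hatF p x - x ^ p := by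
  have : (p : B) ∣ hk0 p x := (frob_pD x).mul_left _
  refine (this.mul_left (-(hk1 p x ^ 2 + hk2 p x * hk0 p x) * Ring.inverse (hk1 p x) ^ 3)).trans
    (dvd_of_eq ?_)
  rw [hatF]; ring

theorem ok_hat (hp3 : (p : B) ^ 3 = 0) (h : IsUnit (pAll x)) : Ok (hatF p x) :=
  ok_of_all (unit_of_dvd hp3 (unit_all_pow hp3 h) ((hat_cong x).trans (sub_dvd_pAll _ _)))

theorem hat_eq (hp3 : (p : B) ^ 3 = 0) (h : IsUnit (pAll x))
    (hy : y * pD x ^ p = x ^ p * pD y) (hc : (p : B) ∣ y - x ^ p) : hatF p x = y := by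
  obtain ⟨d, hd⟩ := hc
  obtain ⟨e, he⟩ : (p : B) ∣ hk0 p x := (frob_pD x).mul_left _
  have hu := unit_hk1 hp3 h
  have hi := Ring.mul_inverse_cancel _ hu
  have tay : ∀ z δ : B, ∃ r, pD (z + δ) = pD z + pD1 z * δ + pD2 z * δ ^ 2 + δ ^ 3 * r := by
    intro z δ
    refine ⟨87500 + 859375 * (4 * z + δ) + 3906250 * (10 * z ^ 2 + 5 * z * δ + δ ^ 2) +
      9765625 * (20 * z ^ 3 + 15 * z ^ 2 * δ + 6 * z * δ ^ 2 + δ ^ 3), ?_⟩
    simp only [pD, pD1, pD2, pV, pQ]; ring
  obtain ⟨r, hr⟩ := tay (x ^ p) (p * d)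
  have hy' : y = x ^ p + p * d := by rw [← hd]; ring
  rw [← hy'] at hr
  have key : hk0 p x + hk1 p x * (p * d) + hk2 p x * (p * d) ^ 2 = 0 := by
    simp only [hk0, hk1, hk2]
    linear_combination hy + x ^ p * hr - pD x ^ p * hy' + x ^ p * d ^ 3 * r * hp3
  rw [hatF, hy']
  generalize hk0 p x = k0 at *
  generalize hk1 p x = k1 at *
  generalize hk2 p x = k2 at *
  generalize Ring.inverse k1 = i at *
  have h3 : k1 ^ 3 * i ^ 3 = 1 := by rw [← mul_pow, hi, one_pow]
  subst he
  linear_combination (p * d) * h3 - i ^ 3 * (k1 ^ 2 + k2 * (p * e) - k1 * k2 * (p * d) +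
    k2 ^ 2 * (p * d) ^ 2) * key + i ^ 3 * (2 * k2 ^ 2 * e * d ^ 2 + k2 ^ 3 * p * d ^ 4) * hp3

/-- the comparison identity as a rational function -/
noncomputable def Phi (p : ℕ) (b0 b1 b2 : ℕ → B) (x : B) : B :=
  mF x * PP p b0 (sF x) - (PP p b0 (tF x) * mF (hatF p x) +
    p * PP p b1 (tF x) * m1F (hatF p x) + p ^ 2 * PP p b2 (tF x) * m2F (hatF p x))

theorem map_Phi {F : Type*} [FunLike F B B'] [RingHomClass F B B'] (f : F)
    (hp3 : (p : B) ^ 3 = 0) (h : IsUnit (pAll x)) (b0 b1 b2 : ℕ → B) :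
    f (Phi p b0 b1 b2 x) = Phi p (fun a => f (b0 a)) (fun a => f (b1 a)) (fun a => f (b2 a))
      (f x) := by
  have h1 := ok_hat hp3 h
  simp only [Phi, map_sub, map_add, map_mul, map_pow, map_natCast, map_PP, map_mF f h1,
    map_m1F f h1, map_m2F f h1, map_mF f (ok_of_all h), map_sF f (ok_of_all h),
    map_tF f (unitD_of_all h), map_hatF f x (unit_hk1 hp3 h)]

theorem transfer {A : Type*} [CommRing A] (hp3 : (p : A) ^ 3 = 0) [Algebra A B] [Algebra A B']
    {u : B} {v : B'} (hinj : Function.Injective (Polynomial.aeval (R := A) u))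
    (hu : IsUnit (pAll u)) (hv : IsUnit (pAll v)) (b0 b1 b2 : ℕ → A)
    (h : Phi p (fun a => algebraMap A B (b0 a)) (fun a => algebraMap A B (b1 a))
      (fun a => algebraMap A B (b2 a)) u = 0) :
    Phi p (fun a => algebraMap A B' (b0 a)) (fun a => algebraMap A B' (b1 a))
      (fun a => algebraMap A B' (b2 a)) v = 0 := by
  set D : Polynomial A := pAll Polynomial.X with hD
  set O := Localization.Away D
  set j := algebraMap (Polynomial A) O with hj
  have hu' : IsUnit ((Polynomial.aeval (R := A) u).toRingHom D) := by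
    rw [hD, map_pAll]; simpa using hu
  have hv' : IsUnit ((Polynomial.aeval (R := A) v).toRingHom D) := by
    rw [hD, map_pAll]; simpa using hv
  set i0 : O →+* B := IsLocalization.Away.lift D hu' with hi0
  set i1 : O →+* B' := IsLocalization.Away.lift D hv' with hi1
  have e0 : ∀ f, i0 (j f) = Polynomial.aeval u f := fun f => IsLocalization.Away.lift_eq D hu' f
  have e1 : ∀ f, i1 (j f) = Polynomial.aeval v f := fun f => IsLocalization.Away.lift_eq D hv' f
  have inj : Function.Injective i0 := by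
    rw [IsLocalization.injective_iff_map_algebraMap_eq (Submonoid.powers D)]
    intro f g
    refine ⟨fun hfg => by rw [hfg], fun hfg => ?_⟩
    rw [← hj, e0, e0] at hfg
    rw [hinj hfg]
  have hO3 : (p : O) ^ 3 = 0 := by
    have := congrArg (fun a => j (Polynomial.C a)) hp3
    simpa using this
  have hx : IsUnit (pAll (j Polynomial.X)) := by
    rw [← map_pAll]; exact IsLocalization.Away.algebraMap_isUnit D
  have m0 := map_Phi i0 hO3 hx (fun a => j (Polynomial.C (b0 a)))
    (fun a => j (Polynomial.C (b1 a))) (fun a => j (Polynomial.C (b2 a)))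
  have m1 := map_Phi i1 hO3 hx (fun a => j (Polynomial.C (b0 a)))
    (fun a => j (Polynomial.C (b1 a))) (fun a => j (Polynomial.C (b2 a)))
  simp only [e0, e1, Polynomial.aeval_C, Polynomial.aeval_X] at m0 m1
  rw [h, ← map_zero i0] at m0
  rw [← m1, inj m0, map_zero]

end

theorem aeval_inj {A : Type*} [CommRing A] {u w : PowerSeries A} (hw : IsUnit w)
    (hu : u = PowerSeries.X * w) : Function.Injective (Polynomial.aeval (R := A) u) := by
  rw [injective_iff_map_eq_zero]
  have h0 : ∀ f : Polynomial A, Polynomial.aeval u f = 0 → f.coeff 0 = 0 := by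
    intro f hf
    rw [← Polynomial.divX_mul_X_add f, map_add, map_mul, Polynomial.aeval_X, Polynomial.aeval_C,
      hu] at hf
    simpa using congrArg PowerSeries.constantCoeff hf
  have : ∀ (n : ℕ) (f : Polynomial A), Polynomial.aeval u f = 0 → f.coeff n = 0 := by
    intro n
    induction n with
    | zero => exact h0
    | succ n ih =>
      intro f hf
      rw [← Polynomial.coeff_divX]
      apply ih
      have h1 := h0 f hf
      rw [← Polynomial.divX_mul_X_add f, map_add, map_mul, Polynomial.aeval_X, h1, map_zero,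
        map_zero, add_zero] at hf
      apply hw.mul_left_cancel
      apply PowerSeries.X_mul_cancel
      rw [← mul_assoc, ← hu, mul_comm, hf]; simp
  intro f hf
  ext n
  exact this n f hf

end Pool.Agent.Lib.MP_bdc5f5_nt
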